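import Pool.Agent.Lib.V3.Prob

/-! Block WIN: the number of sites of a plane inside a disc. -/

namespace Pool.Agent.Lib.V3

open Finset

namespace WIN

theorem mem_I {c u : ℝ} {m : ℤ} (h : ((m : ℝ) - c) ^ 2 ≤ u) :
    m ∈ Icc ⌈c - √u⌉ ⌊c + √u⌋ := by
  have := abs_le.1 (Real.abs_le_sqrt h)
  exact mem_Icc.2 ⟨Int.ceil_le.2 (by linarith), Int.le_floor.2 (by linarith)⟩

theorem card_I (c : ℝ) {u : ℝ} (hu : 1 ≤ u) :
    ((Icc ⌈c - √u⌉ ⌊c + √u⌋).card : ℝ) ≤ 3 * √u := by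
  have h1 : 1 ≤ √u := Real.one_le_sqrt.2 hu
  have h2 := Int.le_ceil (c - √u)
  have h3 := Int.floor_le (c + √u)
  rw [Int.card_Icc]
  rcases le_total 0 (⌊c + √u⌋ + 1 - ⌈c - √u⌉) with h | h
  · have : (((⌊c + √u⌋ + 1 - ⌈c - √u⌉).toNat : ℤ) : ℝ) = ((⌊c + √u⌋ + 1 - ⌈c - √u⌉ : ℤ) : ℝ) := by
      rw [Int.toNat_of_nonneg h]
    push_cast at this
    linarith
  · rw [Int.toNat_eq_zero.2 h]
    push_cast
    linarith

theorem eq_pt (y : V) : pt (y 0) (y 1) (y 2) = y := by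
  funext i
  fin_cases i <;> rfl

end WIN

theorem bWIN : St_WIN := fun d j u hu => by
  classical
  set I₁ := Icc ⌈j * d.θ1 - √u⌉ ⌊j * d.θ1 + √u⌋ with h₁
  set I₂ := Icc ⌈j * d.θ2 - √u⌉ ⌊j * d.θ2 + √u⌋ with h₂
  refine ⟨((I₁ ×ˢ I₂).image fun m => pt j m.1 m.2).filter fun y => d.eta y ≤ u,
    fun y => ⟨fun h => ?_, fun h => mem_filter.2 ⟨?_, h.2⟩⟩, ?_⟩
  · obtain ⟨h, h'⟩ := mem_filter.1 h
    obtain ⟨m, -, rfl⟩ := mem_image.1 h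
    exact ⟨rfl, h'⟩
  · obtain ⟨rfl, h⟩ := h
    unfold Dat.eta at h
    refine mem_image.2 ⟨(y 1, y 2), mem_product.2 ⟨WIN.mem_I ?_, WIN.mem_I ?_⟩, WIN.eq_pt y⟩
    · linarith [sq_nonneg ((y 2 : ℝ) - y 0 * d.θ2)]
    · linarith [sq_nonneg ((y 1 : ℝ) - y 0 * d.θ1)]
  · have h := ((card_filter_le _ fun y => d.eta y ≤ u).trans
      (card_image_le (s := I₁ ×ˢ I₂) (f := fun m => pt j m.1 m.2))).trans_eq (card_product _ _)
    have h' := mul_le_mul (WIN.card_I (j * d.θ1) hu) (WIN.card_I (j * d.θ2) hu)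
      (Nat.cast_nonneg _) (by positivity)
    have h3 : √u * √u = u := Real.mul_self_sqrt (by linarith)
    have h4 := (Nat.cast_le (α := ℝ)).2 h
    push_cast at h4
    linarith

end Pool.Agent.Lib.V3
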