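import Pool.Agent.Lib.V3.Prob

/-! Row SEP: sites of one plane with disjoint routes. -/

namespace Pool.Agent.Lib.V3

open MeasureTheory ProbabilityTheory Filter Topology Finset SimpleGraph
open scoped NNReal ENNReal

namespace SEP47

lemma pick (D : ℕ) (hD : 0 < D) (n : ℕ) (hn : 1 ≤ n) (S : Finset V)
    (hS : ∀ v ∈ S, 0 ≤ v 0 ∧ v 0 ≤ 2 * n) :
    ∃ (j : ℤ) (Y : Finset V), Y ⊆ S ∧ (S.card : ℝ) ≤ 3 * D ^ 2 * n * Y.card ∧ 0 ≤ j ∧ j ≤ 2 * n ∧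
      (∀ y ∈ Y, y 0 = j) ∧ ∀ y ∈ Y, ∀ y' ∈ Y, y 1 % D = y' 1 % D ∧ y 2 % D = y' 2 % D := by
  classical
  have D0 : (0 : ℤ) < D := by exact_mod_cast hD
  let T : Finset (ℤ × ℤ × ℤ) := Icc 0 (2 * n : ℤ) ×ˢ Ico 0 (D : ℤ) ×ˢ Ico 0 (D : ℤ)
  let f : V → ℤ × ℤ × ℤ := fun v => (v 0, v 1 % D, v 2 % D)
  have hf : ∀ v ∈ S, f v ∈ T := fun v hv => by
    simp only [T, f, mem_product, mem_Icc, mem_Ico]
    exact ⟨hS v hv, ⟨Int.emod_nonneg _ D0.ne', Int.emod_lt_of_pos _ D0⟩,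
      Int.emod_nonneg _ D0.ne', Int.emod_lt_of_pos _ D0⟩
  have hT : T.Nonempty := ⟨(0, 0, 0), by simp [T, hD]⟩
  obtain ⟨t, ht, hmax⟩ := exists_max_image T (fun t => (S.filter fun v => f v = t).card) hT
  have h1 : S.card ≤ T.card * (S.filter fun v => f v = t).card := by
    rw [card_eq_sum_card_fiberwise hf]
    exact (sum_le_card_nsmul _ _ _ hmax).trans_eq (smul_eq_mul _ _)
  have h2 : T.card = (2 * n + 1) * (D * D) := by
    simp only [T, card_product, Int.card_Icc, Int.card_Ico, sub_zero, Int.toNat_natCast]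
    congr 1
  have ht' := mem_Icc.1 (mem_product.1 ht).1
  refine ⟨t.1, S.filter fun v => f v = t, filter_subset _ _, ?_, ht'.1, ht'.2,
    fun y hy => congrArg Prod.fst (mem_filter.1 hy).2, fun y hy y' hy' => ?_⟩
  · have h3 : T.card ≤ 3 * D ^ 2 * n := by rw [h2]; nlinarith [Nat.zero_le (D * D)]
    exact_mod_cast h1.trans (Nat.mul_le_mul_right _ h3)
  · have := (mem_filter.1 hy).2.trans (mem_filter.1 hy').2.symm
    simp only [f, Prod.mk.injEq] at this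
    exact this.2

theorem sep (z : V) (K : ℕ) (z0 : 0 ≤ z 0) (hK : n1 z ≤ K) (n : ℕ) (S : Finset V) (hn : 1 ≤ n)
    (hS : ∀ v ∈ S, 0 ≤ v 0 ∧ v 0 ≤ 2 * n) :
    ∃ (j : ℤ) (Y : Finset V) (E : V → Finset (Sym2 V)), Y ⊆ S ∧
      (S.card : ℝ) ≤ 3 * (2 * K + 1) ^ 2 * n * Y.card ∧
      0 ≤ j ∧ j ≤ 2 * n ∧ (∀ y ∈ Y, y 0 = j) ∧
      (∀ y ∈ Y, ∀ y' ∈ Y, y ≠ y' → Disjoint (E y) (E y')) ∧ (∀ y ∈ Y, (E y).card ≤ K) ∧
      ∀ y ∈ Y, (∀ e ∈ E y, e ∈ Up (j + 1) ∧ e ∈ Lo (j + 1 + z 0)) ∧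
        ∃ q : G.Walk (y + e0) (y + e0 + z), (q.length : ℝ) = n1 z ∧ ∀ e ∈ q.edges, e ∈ E y := by
  classical
  obtain ⟨j, Y, h1, h2, h3, h4, h5, h6⟩ := pick (2 * K + 1) (by omega) n hn S hS
  choose q hq hb using fun y : V => exists_walk_box (y + e0) (y + e0 + z)
  have hz : (z 0).natAbs + (z 1).natAbs + (z 2).natAbs ≤ K := by
    rw [n1_nat] at hK; exact_mod_cast hK
  have hb' : ∀ y, ∀ e ∈ (q y).edges.toFinset, ∀ x ∈ e, y 0 + 1 ≤ x 0 ∧ x 0 ≤ y 0 + 1 + z 0 ∧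
      |x 1 - y 1| ≤ K ∧ |x 2 - y 2| ≤ K := fun y e he x hx => by
    have hs := Walk.mem_support_of_mem_edges (List.mem_toFinset.1 he) hx
    have a0 := hb y x hs 0
    have a1 := hb y x hs 1
    have a2 := hb y x hs 2
    simp only [Pi.add_apply, e0_zero, e0_one, e0_two] at a0 a1 a2
    refine ⟨by omega, by omega, abs_le.2 ⟨by omega, by omega⟩, abs_le.2 ⟨by omega, by omega⟩⟩
  refine ⟨j, Y, fun y => (q y).edges.toFinset, h1, by exact_mod_cast h2, h3, h4, h5,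
    fun y hy y' hy' hne => Finset.disjoint_left.2 fun e he he' => hne ?_, fun y _ => ?_,
    fun y hy => ⟨fun e he => ⟨fun x hx => ?_, fun x hx => ?_⟩, q y, by simpa using hq y,
      fun e he => List.mem_toFinset.2 he⟩⟩
  · induction e using Sym2.ind with
    | h x x' =>
      obtain ⟨-, -, a1, a2⟩ := hb' y _ he x (Sym2.mem_mk_left _ _)
      obtain ⟨-, -, b1, b2⟩ := hb' y' _ he' x (Sym2.mem_mk_left _ _)
      obtain ⟨c1, c2⟩ := h6 y hy y' hy'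
      have key : ∀ a b : ℤ, a % ((2 * K + 1 : ℕ) : ℤ) = b % ((2 * K + 1 : ℕ) : ℤ) →
          |b - a| < ((2 * K + 1 : ℕ) : ℤ) → a = b := fun a b h h' =>
        (sub_eq_zero.1 (Int.eq_zero_of_abs_lt_dvd (Int.ModEq.dvd h) h')).symm
      rw [abs_le] at a1 a2 b1 b2
      refine vext ((h5 y hy).trans (h5 y' hy').symm) (key _ _ c1 ?_) (key _ _ c2 ?_) <;>
        rw [abs_lt] <;> constructor <;> push_cast <;> omega
  · refine (List.toFinset_card_le _).trans ?_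
    have := hq y
    rw [add_sub_cancel_left] at this
    rw [Walk.length_edges]
    exact_mod_cast this.trans_le hK
  · have := (hb' y e he x hx).1
    rwa [h5 y hy] at this
  · have := (hb' y e he x hx).2.1
    rwa [h5 y hy] at this

end SEP47

theorem bSEP47 : St_SEP := by
  intro z z0
  obtain ⟨K, hK⟩ : ∃ K : ℕ, n1 z = K := ⟨_, n1_nat z⟩
  refine ⟨K, 1 / (3 * (2 * K + 1) ^ 2), by positivity, fun n S hn hS => ?_⟩
  obtain ⟨j, Y, E, h1, h2, h3⟩ := SEP47.sep z K z0 hK.le n S hn hS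
  refine ⟨j, Y, E, h1, ?_, h3⟩
  rw [div_mul_eq_mul_div, div_le_iff₀ (by positivity)]
  linarith

end Pool.Agent.Lib.V3
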