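import Pool.Agent.Lib.V3.Prob

/-! Row FINAL: a rare fast route beats the uniform lower tail. -/

namespace Pool.Agent.Lib.V3

open MeasureTheory ProbabilityTheory Filter Topology Finset SimpleGraph
open scoped NNReal ENNReal

namespace FINAL

/-- the half-space bound seen from the end point -/
lemma half_Lo (p : Par) (d : Dat) {C : ℝ} (hH : p.Half d C) (y : V) (hy : 0 ≤ y 0) {k : ℝ}
    (hk : C * (p.g d y + 1) ≤ k) : 1 / 2 ≤ p.pr {τ | p.A d (y 0) τ y ≤ k} := by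
  refine (hH y hy).trans ?_
  rw [← p.pr_rf y]
  refine p.pr_mono fun τ hτ => ?_
  have h : p.TA (Up 0) (rf y τ) 0 y - d.ρ y ≤ C * (p.g d y + 1) := hτ
  rw [p.TA_rf_Up, sub_zero, sub_zero, sub_self, p.TA_comm] at h
  exact h.trans hk

open Classical in
/-- many of the events occur with probability one quarter -/
lemma many (p : Par) (Y : Finset V) (H : V → Set Cfg) (hm : ∀ y, MeasurableSet (H y))
    (hH : ∀ y ∈ Y, 1 / 2 ≤ p.pr (H y)) (m : ℕ) (hY : 4 * m + 1 ≤ Y.card) :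
    1 / 4 ≤ p.pr {τ | m ≤ (Y.filter fun y => τ ∈ H y).card} := by
  have hY' : (4 * m + 1 : ℝ) ≤ Y.card := by exact_mod_cast hY
  have m0 : (0 : ℝ) ≤ m := Nat.cast_nonneg _
  have h := p.avg (insertNone Y) (fun o => o.elim (Y.card : ℝ) fun _ => 1)
    (fun o => o.elim {τ | m ≤ (Y.filter fun y => τ ∈ H y).card} fun y => (H y)ᶜ)
    (3 / 4 * Y.card) (fun o _ => by cases o <;> simp) fun τ => by
      rw [sum_insertNone]
      simp only [Option.elim_none, Option.elim_some]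
      have e : ∑ y ∈ Y, (H y)ᶜ.indicator (fun _ => (1 : ℝ)) τ =
          ((Y.filter fun y => ¬ τ ∈ H y).card : ℝ) := by
        rw [card_filter]
        push_cast
        exact sum_congr rfl fun y _ => by by_cases h : τ ∈ H y <;> simp [h]
      rw [e]
      have e2 : ((Y.filter fun y => τ ∈ H y).card : ℝ) + (Y.filter fun y => ¬ τ ∈ H y).card =
          Y.card := by exact_mod_cast card_filter_add_card_filter_not (s := Y) fun y => τ ∈ H y
      by_cases hτ : m ≤ (Y.filter fun y => τ ∈ H y).card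
      · rw [Set.indicator_of_mem (by exact hτ)]
        have : (0 : ℝ) ≤ (Y.filter fun y => ¬ τ ∈ H y).card := Nat.cast_nonneg _
        linarith
      · rw [Set.indicator_of_notMem (by exact hτ)]
        have : ((Y.filter fun y => τ ∈ H y).card : ℝ) ≤ m := by exact_mod_cast (not_le.1 hτ).le
        linarith
  rw [sum_insertNone] at h
  simp only [Option.elim_none, Option.elim_some, one_mul] at h
  have h2 : ∑ y ∈ Y, p.pr (H y)ᶜ ≤ ∑ _y ∈ Y, (1 / 2 : ℝ) := sum_le_sum fun y hy => by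
    rw [p.pr_compl (hm y)]; linarith [hH y hy]
  rw [sum_const, nsmul_eq_mul] at h2
  have h3 : (Y.card : ℝ) * (1 / 4) ≤
      Y.card * p.pr {τ | m ≤ (Y.filter fun y => τ ∈ H y).card} := by linarith
  exact le_of_mul_le_mul_left h3 (by linarith)

/-- one of the good sites has a fast route above it -/
lemma some_fast (hF : St_FAST) (p : Par) (j : ℤ) (Y : Finset V) (H : V → Set Cfg)
    (E : V → Finset (Sym2 V)) (K m : ℕ) (hm : ∀ y, MeasurableSet (H y))
    (hd : ∀ y, Dep (Lo j) (H y)) (hH : ∀ y ∈ Y, 1 / 2 ≤ p.pr (H y)) (hY : 4 * m + 1 ≤ Y.card)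
    (hdis : ∀ y ∈ Y, ∀ y' ∈ Y, y ≠ y' → Disjoint (E y) (E y')) (hK : ∀ y ∈ Y, (E y).card ≤ K)
    (hE : ∀ y ∈ Y, ∀ e ∈ E y, e ∉ Lo j) (hq : (1 - p.q ^ K) ^ m ≤ 1 / 2) :
    1 / 8 ≤ p.pr {τ | ∃ y ∈ Y, τ ∈ H y ∧ ∀ e ∈ E y, τ e ≤ p.lo} := by
  classical
  have hU : MeasurableSet {τ : Cfg | ∃ y ∈ Y, τ ∈ H y ∧ ∀ e ∈ E y, τ e ≤ p.lo} := by
    have : {τ : Cfg | ∃ y ∈ Y, τ ∈ H y ∧ ∀ e ∈ E y, τ e ≤ p.lo} =
        ⋃ y ∈ Y, (H y ∩ ⋂ e ∈ E y, {τ : Cfg | τ e ≤ p.lo}) := by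
      ext τ
      simp only [Set.mem_ofPred_eq, Set.mem_iUnion, Set.mem_inter_iff, Set.mem_iInter, exists_prop]
    rw [this]
    exact Finset.measurableSet_biUnion _ fun y _ => (hm y).inter
      (Finset.measurableSet_biInter _ fun e _ =>
        measurableSet_le (measurable_pi_apply e) measurable_const)
  have h1 := many p Y H hm hH m hY
  have h2 := p.cond (Lo j) (Nice.ind hU) (fun τ => Set.indicator_nonneg (fun _ _ => zero_le_one) τ)
    {τ | m ≤ (Y.filter fun y => τ ∈ H y).card} (c := 1 / 2) (by norm_num) fun τ hτ => by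
      have h3 := hF p (Y.filter fun y => τ ∈ H y) E K
        (fun y hy y' hy' => hdis y (mem_filter.1 hy).1 y' (mem_filter.1 hy').1)
        fun y hy => hK y (mem_filter.1 hy).1
      have q1 : p.q ^ K ≤ 1 := pow_le_one₀ p.q_pos'.le p.q_le_one
      have q0 : 0 < p.q ^ K := pow_pos p.q_pos' K
      have h4 := pow_le_pow_of_le_one (a := 1 - p.q ^ K) (by linarith) (by linarith)
        (show m ≤ (Y.filter fun y => τ ∈ H y).card from hτ)
      have h5 := p.one_le_pr_add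
        {τ' | ∀ y ∈ Y.filter fun y => τ ∈ H y, ∃ e ∈ E y, p.lo < τ' e}
      have h6 := p.int_ind ((meas_spl_right (Lo j) τ) hU)
      have h7 : p.pr {τ' | ∀ y ∈ Y.filter fun y => τ ∈ H y, ∃ e ∈ E y, p.lo < τ' e}ᶜ ≤
          p.pr ((fun τ' => spl (Lo j) τ τ') ⁻¹'
            {τ : Cfg | ∃ y ∈ Y, τ ∈ H y ∧ ∀ e ∈ E y, τ e ≤ p.lo}) := p.pr_mono fun τ' h => by
        simp only [Set.mem_compl_iff, Set.mem_ofPred_eq, not_forall, not_exists, not_and,
          not_lt] at h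
        obtain ⟨y, hy, h⟩ := h
        obtain ⟨hy, hyH⟩ := mem_filter.1 hy
        refine ⟨y, hy, hd y τ _ (fun e he => (spl_mem _ _ he).symm) hyH, fun e he => ?_⟩
        exact (spl_notMem τ τ' (hE y hy e he)).trans_le (h e he)
      refine le_trans ?_ (le_of_eq h6.symm)
      linarith
  rw [p.int_ind hU] at h2
  linarith

end FINAL

open FINAL in
theorem bFINAL (hF : St_FAST) (hS : St_SEP) : St_FINAL := by
  intro p d C₁ C M g hL c1 hH c0 hLow hP
  have k0 : 0 ≤ 2 * M ^ 2 := by positivity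
  set k := 2 * M ^ 2 with hk
  have l0 : 0 ≤ C * (k + 1) := by positivity
  have hδ : 0 < ((p.r + p.hi) / 2 - p.lo) / 2 := by linarith [p.lo_lt]
  set δ := ((p.r + p.hi) / 2 - p.lo) / 2 with hδ'
  obtain ⟨N, hN⟩ := exists_nat_ge ((C₁ * (k + 1) + p.b + C * (k + 1)) / δ)
  obtain ⟨z, hz, hzg⟩ := g.G3 δ hδ N
  have z0 : 0 ≤ z 0 := (Int.natCast_nonneg N).trans hz
  have hfast : C₁ * (k + 1) + p.b + C * (k + 1) + p.lo * n1 z ≤ d.ρ z := by
    have h1 : (N : ℝ) ≤ z 0 := by exact_mod_cast hz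
    have h2 : (z 0 : ℝ) ≤ n1 z := by
      unfold n1
      linarith [le_abs_self (z 0 : ℝ), abs_nonneg (z 1 : ℝ), abs_nonneg (z 2 : ℝ)]
    have h3 := hL z
    rw [div_le_iff₀ hδ] at hN
    have h4 := mul_le_mul_of_nonneg_left h2 hδ.le
    have h5 := mul_le_mul_of_nonneg_left (h1.trans h2) hδ.le
    have h6 : (p.r + p.hi) / 2 * n1 z = p.lo * n1 z + 2 * (δ * n1 z) := by rw [hδ']; ring
    unfold Par.g at hzg
    linarith
  obtain ⟨K, c, hc, hsep⟩ := hS z z0
  obtain ⟨m, hm⟩ := exists_pow_lt_of_lt_one (show (0 : ℝ) < 1 / 2 by norm_num)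
    (show 1 - p.q ^ K < 1 by linarith [pow_pos p.q_pos' K])
  have hcs := mul_pos hc p.cS_pos
  obtain ⟨N₁, hN₁⟩ := exists_nat_ge (k + (z 0 + 1) + (4 * m + 1) / (c * p.cS))
  obtain ⟨n, hn, -, S, hSv, hcard⟩ := hP N₁
  have hn' : k + (z 0 + 1) + (4 * m + 1) / (c * p.cS) ≤ n := hN₁.trans (by exact_mod_cast hn)
  have z0' : (0 : ℝ) ≤ z 0 := by exact_mod_cast z0
  have m0 : 0 ≤ (4 * m + 1 : ℝ) / (c * p.cS) := by positivity
  have n1' : (1 : ℝ) ≤ n := by linarith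
  have n1'' : 1 ≤ n := by exact_mod_cast n1'
  have nz : z 0 + 1 ≤ n := by
    have : (z 0 + 1 : ℝ) ≤ n := by linarith
    exact_mod_cast this
  have hgk : ∀ v ∈ S, p.g d v ≤ k := fun v hv => by
    refine (hSv v hv).2.2.trans ?_
    have h1 : (v 0 : ℝ) ≤ 2 * n := by exact_mod_cast (hSv v hv).2.1
    rw [div_pow, Real.sq_sqrt (by linarith), div_mul_eq_mul_div, div_le_iff₀ (by linarith), hk]
    nlinarith [sq_nonneg M]
  obtain ⟨j, Y, E, hYS, hY, j0, j2, hYj, hdis, hK, hE⟩ := hsep n S n1''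
    fun v hv => ⟨by have := (hSv v hv).1; omega, (hSv v hv).2.1⟩
  have hYm : 4 * m + 1 ≤ Y.card := by
    have h1 : (4 * m + 1 : ℝ) ≤ n * (c * p.cS) := (div_le_iff₀ hcs).1 (by linarith)
    have h2 := mul_le_mul_of_nonneg_left hcard hc.le
    have h3 : (n : ℝ) * (4 * m + 1) ≤ n * Y.card := by nlinarith
    have h4 := le_of_mul_le_mul_left h3 (by linarith)
    exact_mod_cast h4
  have h8 := some_fast hF p j Y (fun y => {τ | p.A d j τ y ≤ C₁ * (k + 1)}) E K m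
    (fun y => measurableSet_le (p.A_meas d j y) measurable_const)
    (fun y τ τ' h hτ => by
      have : p.A d j τ y ≤ C₁ * (k + 1) := hτ
      show p.A d j τ' y ≤ C₁ * (k + 1)
      rwa [← p.A_congr d h])
    (fun y hy => by
      have := half_Lo p d hH y (by rw [hYj y hy]; exact j0) (k := C₁ * (k + 1))
        (mul_le_mul_of_nonneg_left (by linarith [hgk y (hYS hy)]) c1)
      rwa [hYj y hy] at this)
    hYm hdis hK (fun y hy e he => notMem_Lo_of_Up ((hE y hy).1 e he).1) hm.le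
  have h9 := hLow n k S (j + 1 + z 0) n1'' k0 (by linarith)
    (fun v hv => ⟨(hSv v hv).1, (hSv v hv).2.1, hgk v hv⟩) hcard (by omega) (by omega)
  have h10 : p.pr {τ | ∃ y ∈ Y, τ ∈ {τ | p.A d j τ y ≤ C₁ * (k + 1)} ∧ ∀ e ∈ E y, τ e ≤ p.lo} ≤
      p.pr (p.Low d n (j + 1 + z 0) (C * (k + 1))) := p.pr_mono fun τ ⟨y, hy, hA, hτ⟩ => by
    obtain ⟨hin, q, hq, hqE⟩ := hE y hy
    have a1 : p.TA (Lo j) τ 0 y - d.ρ y ≤ C₁ * (k + 1) := hA
    have a2 := p.TA_anti (Lo_mono (show j ≤ j + 1 + z 0 by omega)) τ 0 y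
    have a3 := p.TA_le (Lo (j + 1 + z 0)) τ y (y + e0)
    rw [add_sub_cancel_left, n1_e0, mul_one] at a3
    have a4 := p.TA_le_LW τ q fun e he => (hin e (hqE e he)).2
    have a5 := p.LW_le_mul (τ := τ) (l := q.edges) (c := p.lo) fun e he =>
      (p.w_mono (hτ e (hqE e he))).trans_eq p.w_lo
    rw [Walk.length_edges, hq] at a5
    have a6 := p.TA_tri (Lo (j + 1 + z 0)) τ 0 y (y + e0)
    have a7 := p.TA_tri (Lo (j + 1 + z 0)) τ 0 (y + e0) (y + e0 + z)
    have a8 : p.A d (j + 1 + z 0) τ (y + e0 + z) ≤ -(C * (k + 1)) := by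
      unfold Par.A
      rw [d.ρ_add, d.ρ_add, d.ρ_e0]
      linarith [g.ρ0_nonneg]
    have a9 : 0 ≤ d.ε / 36 * d.eta (y + e0 + z) / n := by
      have := g.ε_pos
      have := d.eta_nonneg (y + e0 + z)
      positivity
    exact ⟨y + e0 + z, by simp [hYj y hy], by linarith, by linarith⟩
  linarith

end Pool.Agent.Lib.V3
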