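import Pool.Agent.Lib.V3.Prob

/-! Row PC: walks from the origin rarely carry many light edges. -/

namespace Pool.Agent.Lib.V3

open MeasureTheory ProbabilityTheory Finset SimpleGraph Pool.Agent.Lib.MP_eba68f_pr
open scoped NNReal ENNReal

namespace PC

/-- the sets of edges that lie on one walk of length at most `l` from `u` are few -/
lemma fam (l : ℕ) : ∀ u : V, ∃ F : Finset (Finset (Sym2 V)), F.card ≤ 13 ^ l ∧
    ∀ (v : V) (q : G.Walk u v), q.length ≤ l → ∀ s : Finset (Sym2 V),
      (∀ e ∈ s, e ∈ q.edges) → s ∈ F := by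
  classical
  induction l with
  | zero =>
    intro u
    refine ⟨{∅}, by simp, fun v q hq s hs => ?_⟩
    cases q with
    | nil =>
      rw [mem_singleton]
      exact Finset.eq_empty_of_forall_notMem fun e he => by simpa using hs e he
    | cons h q => simp at hq
  | succ l ih =>
    intro u
    choose F hF hF' using ih
    refine ⟨insert ∅ ((nb u).biUnion fun w => F w ∪ (F w).image (insert s(u, w))), ?_,
      fun v q hq s hs => ?_⟩
    · have h1 : ((nb u).biUnion fun w => F w ∪ (F w).image (insert s(u, w))).card ≤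
          (nb u).card * (2 * 13 ^ l) :=
        card_biUnion_le_card_mul _ _ _ fun w _ => by
          have h2 := card_union_le (F w) ((F w).image (insert s(u, w)))
          have h3 : ((F w).image (insert s(u, w))).card ≤ (F w).card := card_image_le
          have h4 := hF w
          omega
      have h5 := Nat.mul_le_mul_right (2 * 13 ^ l) (card_nb u)
      have h6 := card_insert_le (∅ : Finset (Sym2 V))
        ((nb u).biUnion fun w => F w ∪ (F w).image (insert s(u, w)))
      have h7 : 1 ≤ 13 ^ l := Nat.one_le_pow _ _ (by norm_num)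
      rw [pow_succ]
      omega
    · cases q with
      | nil =>
        rw [mem_insert]
        exact Or.inl (Finset.eq_empty_of_forall_notMem fun e he => by simpa using hs e he)
      | @cons _ w _ h q =>
        have hl : q.length ≤ l := by
          rw [Walk.length_cons] at hq
          omega
        refine mem_insert_of_mem (mem_biUnion.2 ⟨w, mem_nb.2 h, ?_⟩)
        have key : ∀ e ∈ s, e ≠ s(u, w) → e ∈ q.edges := fun e he hne => by
          have := hs e he
          rw [Walk.edges_cons, List.mem_cons] at this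
          exact this.resolve_left hne
        by_cases hm : s(u, w) ∈ s
        · refine mem_union_right _ (mem_image.2 ⟨s.erase s(u, w), ?_, insert_erase hm⟩)
          exact hF' w v q hl _ fun e he => key e (mem_of_mem_erase he) (ne_of_mem_erase he)
        · exact mem_union_left _ (hF' w v q hl s fun e he => key e he fun h' => hm (h' ▸ he))

end PC

theorem bPC : St_PC := by
  classical
  intro D
  obtain ⟨K, hK⟩ := exists_nat_ge D
  have hA : (0 : ℝ) < 13 ^ K := by positivity
  have hA1 : (1 : ℝ) ≤ 13 ^ K := one_le_pow₀ (by norm_num)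
  obtain ⟨x, hx0, hx⟩ : ∃ x : ℝ, 0 < x ∧ 13 ^ K * x = 1 / 100 :=
    ⟨1 / 100 / 13 ^ K, by positivity, by field_simp⟩
  have hx1 : x ≤ 1 := by nlinarith
  refine ⟨x ^ 100, by positivity, fun p hp n hn => ?_⟩
  obtain ⟨F, hF, hF'⟩ := PC.fam (K * n) 0
  have hsub : Light p.hi (D * n) (n / 100) ⊆
      ⋃ s ∈ F.filter fun s => n ≤ 100 * s.card, {τ : Cfg | ∀ e ∈ s, τ e ∈ Set.Iic p.hi} := by
    rintro τ ⟨v, q, hq, s, hs, hc⟩
    have h1 : q.length ≤ K * n := by
      have : (q.length : ℝ) ≤ K * n :=
        hq.trans (mul_le_mul_of_nonneg_right hK (Nat.cast_nonneg n))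
      exact_mod_cast this
    have h2 : n ≤ 100 * s.card := by
      have : (n : ℝ) ≤ 100 * s.card := by linarith
      exact_mod_cast this
    simp only [Set.mem_iUnion]
    exact ⟨s, mem_filter.2 ⟨hF' v q h1 s fun e he => (hs e he).1, h2⟩, fun e he => (hs e he).2⟩
  refine (p.pr_mono hsub).trans ((p.pr_biUnion_le _ _).trans ?_)
  have h3 : ∀ s ∈ F.filter fun s => n ≤ 100 * s.card,
      p.pr {τ : Cfg | ∀ e ∈ s, τ e ∈ Set.Iic p.hi} ≤ x ^ n := fun s hs => by
    rw [p.pr_all s measurableSet_Iic]
    refine (pow_le_pow_left₀ measureReal_nonneg hp _).trans ?_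
    rw [← pow_mul]
    exact pow_le_pow_of_le_one hx0.le hx1 (mem_filter.1 hs).2
  refine (sum_le_card_nsmul _ _ _ h3).trans ?_
  have h4 : ((F.filter fun s => n ≤ 100 * s.card).card : ℝ) ≤ (13 ^ K) ^ n := by
    rw [← pow_mul]
    exact_mod_cast (card_filter_le _ _).trans hF
  rw [nsmul_eq_mul]
  refine (mul_le_mul_of_nonneg_right h4 (by positivity)).trans ?_
  rw [← mul_pow, hx]
  exact pow_le_of_le_one (by norm_num) (by norm_num) (by omega)

end Pool.Agent.Lib.V3
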