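import Pool.Agent.Lib.V3.Prob

/-! Block SUM: a sum over the plane lattice. -/

namespace Pool.Agent.Lib.V3

namespace SUM

open Finset

theorem tel {s : ℝ} (hs : 1 ≤ s) {u : ℝ} (hu : 0 ≤ u) (N : ℕ) :
    ∑ k ∈ range N, 1 / ((u + k) ^ 2 + s ^ 2) ≤ 4 / s := by
  have key : ∀ N : ℕ, ∑ k ∈ range N, 1 / ((u + k) ^ 2 + s ^ 2) ≤
      4 / (u + s) - 4 / (u + N + s) := fun N => by
    induction N with
    | zero => simp
    | succ N ih =>
      have h0 : (0 : ℝ) ≤ N := N.cast_nonneg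
      have h1 : 1 / ((u + N) ^ 2 + s ^ 2) ≤ 4 / (u + N + s) - 4 / (u + (N + 1) + s) := by
        rw [div_sub_div _ _ (by positivity) (by positivity), div_le_div_iff₀ (by positivity)
          (by positivity)]
        nlinarith [sq_nonneg (u + N - s), mul_nonneg (by linarith : 0 ≤ u + N + s)
          (by linarith : 0 ≤ u + N + s - 1)]
      rw [sum_range_succ]
      push_cast
      linarith
  have h1 : 4 / (u + s) ≤ 4 / s := div_le_div_of_nonneg_left (by norm_num) (by linarith)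
    (by linarith)
  have h2 : 0 ≤ 4 / (u + N + s) := by positivity
  linarith [key N]

theorem half {s : ℝ} (hs : 1 ≤ s) (c : ℝ) (S : Finset ℤ) (h : ∀ m ∈ S, c ≤ m) :
    ∑ m ∈ S, 1 / (((m : ℝ) - c) ^ 2 + s ^ 2) ≤ 4 / s := by
  obtain ⟨N, hN⟩ : ∃ N : ℕ, ∀ m ∈ S, (m - ⌈c⌉).toNat < N :=
    ⟨S.sup (fun m => (m - ⌈c⌉).toNat) + 1, fun m hm =>
      Nat.lt_succ_of_le (le_sup (f := fun m => (m - ⌈c⌉).toNat) hm)⟩
  refine le_trans ?_ (tel hs (sub_nonneg.2 (Int.le_ceil c)) N)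
  have sub : S ⊆ (range N).image fun k : ℕ => ⌈c⌉ + (k : ℤ) := fun m hm =>
    mem_image.2 ⟨_, mem_range.2 (hN m hm), by have := Int.ceil_le.2 (h m hm); omega⟩
  refine (sum_le_sum_of_subset_of_nonneg sub fun _ _ _ => by positivity).trans_eq ?_
  rw [sum_image fun a _ b _ e => by simpa using e]
  exact sum_congr rfl fun k _ => by push_cast; ring_nf

theorem line {s : ℝ} (hs : 1 ≤ s) (c : ℝ) (S : Finset ℤ) :
    ∑ m ∈ S, 1 / (((m : ℝ) - c) ^ 2 + s ^ 2) ≤ 8 / s := by
  classical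
  rw [← sum_filter_add_sum_filter_not S fun m : ℤ => c ≤ m]
  have h1 := half hs c (S.filter fun m : ℤ => c ≤ m) fun m hm => (mem_filter.1 hm).2
  have h2 := half hs (-c) ((S.filter fun m : ℤ => ¬c ≤ m).image Neg.neg) fun m hm => by
    obtain ⟨k, hk, rfl⟩ := mem_image.1 hm
    have := (mem_filter.1 hk).2
    push_cast
    linarith
  rw [sum_image fun a _ b _ e => neg_injective e] at h2
  have h3 : ∀ m : ℤ, (((-m : ℤ) : ℝ) - -c) ^ 2 = ((m : ℝ) - c) ^ 2 := fun m => by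
    push_cast
    ring
  simp only [h3] at h2
  linarith [show 8 / s = 4 / s + 4 / s by ring]

theorem line' {a l : ℝ} (ha : 0 < a) (hl : a ≤ l) (c : ℝ) (S : Finset ℤ) :
    ∑ m ∈ S, 1 / (a * ((m : ℝ) - c) ^ 2 + l) ≤ 8 / (a * √(l / a)) := by
  have h0 : 1 ≤ l / a := (one_le_div ha).2 hl
  have h1 : √(l / a) ^ 2 = l / a := Real.sq_sqrt (by linarith)
  have := mul_le_mul_of_nonneg_left (line (Real.one_le_sqrt.2 h0) c S) (inv_pos.2 ha).le
  rw [mul_sum, h1] at this
  refine (sum_congr rfl fun m _ => ?_).le.trans (this.trans_eq (by ring))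
  have : 0 < a * ((m : ℝ) - c) ^ 2 + l := by nlinarith [sq_nonneg ((m : ℝ) - c)]
  field_simp

/-- The sum over a finite set of points of the plane lattice. -/
theorem plane {ι : Type} {a l : ℝ} (ha : 0 < a) (hl : a ≤ l) (c d : ℝ) (S : Finset ι)
    (x y : ι → ℤ) (h : ∀ i ∈ S, ∀ j ∈ S, x i = x j → y i = y j → i = j) :
    ∑ i ∈ S, 1 / (a * (((x i : ℝ) - c) ^ 2 + ((y i : ℝ) - d) ^ 2) + l) ^ 2 ≤ 64 / (a * l) := by
  classical
  have l0 : 0 < l := ha.trans_le hl
  have h1 : √(l / a) ^ 2 = l / a := Real.sq_sqrt (by positivity)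
  have h2 := mul_le_mul (line' ha hl c (S.image x)) (line' ha hl d (S.image y))
    (sum_nonneg fun _ _ => by positivity) (by positivity)
  have h3 : 8 / (a * √(l / a)) * (8 / (a * √(l / a))) = 64 / (a * l) := by
    rw [div_mul_div_comm, mul_mul_mul_comm, ← sq √_, h1]
    congr 1
    · norm_num
    · field_simp
  rw [h3, sum_mul_sum, ← sum_product'] at h2
  refine le_trans ?_ ((sum_le_sum_of_subset_of_nonneg (s := S.image fun i => (x i, y i))
    (fun p hp => ?_) fun _ _ _ => by positivity).trans h2)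
  · rw [sum_image fun i hi j hj e => h i hi j hj (congrArg Prod.fst e) (congrArg Prod.snd e)]
    refine sum_le_sum fun i _ => ?_
    rw [div_mul_div_comm, one_mul, sq]
    have p1 : 0 ≤ a * ((x i : ℝ) - c) ^ 2 := by positivity
    have p2 : 0 ≤ a * ((y i : ℝ) - d) ^ 2 := by positivity
    exact one_div_le_one_div_of_le (by positivity)
      (mul_le_mul (by linarith) (by linarith) (by positivity) (by positivity))
  · obtain ⟨i, hi, rfl⟩ := mem_image.1 hp
    exact mem_product.2 ⟨mem_image_of_mem _ hi, mem_image_of_mem _ hi⟩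

end SUM

theorem bSUM : St_SUM := fun _ _ c₁ c₂ s ha hl =>
  SUM.plane ha hl c₁ c₂ s Prod.fst Prod.snd fun _ _ _ _ h h' => Prod.ext h h'

end Pool.Agent.Lib.V3
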