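import Pool.Agent.Lib.V3.Prob

/-! Row FAST: independent trials. -/

namespace Pool.Agent.Lib.V3

open MeasureTheory ProbabilityTheory Filter Topology Finset SimpleGraph
open scoped NNReal ENNReal

theorem bFAST47 : St_FAST := by
  classical
  intro p Y E K
  have q1 : p.q ^ K ≤ 1 := pow_le_one₀ p.q_pos'.le p.q_le_one
  have ms : ∀ Y : Finset V, MeasurableSet {τ : Cfg | ∀ y ∈ Y, ∃ e ∈ E y, p.lo < τ e} := fun Y => by
    have : {τ : Cfg | ∀ y ∈ Y, ∃ e ∈ E y, p.lo < τ e} =
        ⋂ y ∈ Y, ⋃ e ∈ E y, {τ : Cfg | p.lo < τ e} := by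
      ext τ
      simp only [Set.mem_ofPred_eq, Set.mem_iUnion, Set.mem_iInter, exists_prop]
    rw [this]
    exact Finset.measurableSet_biInter _ fun y _ => Finset.measurableSet_biUnion _ fun e _ =>
      measurableSet_lt measurable_const (measurable_pi_apply e)
  induction Y using Finset.induction_on with
  | empty => intro _ _; simpa using p.pr_le_one _
  | insert y Y hy ih =>
    intro hd hK
    have h1 := ih (fun a ha b hb => hd a (mem_insert_of_mem ha) b (mem_insert_of_mem hb))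
      fun a ha => hK a (mem_insert_of_mem ha)
    have e : {τ : Cfg | ∀ a ∈ insert y Y, ∃ e ∈ E a, p.lo < τ e} =
        {τ : Cfg | ∀ a ∈ ({y} : Finset V), ∃ e ∈ E a, p.lo < τ e} ∩
          {τ : Cfg | ∀ a ∈ Y, ∃ e ∈ E a, p.lo < τ e} := by
      ext τ; simp
    have h2 := p.pr_inter (E y : Set (Sym2 V)) (ms {y}) (ms Y)
      (fun τ τ' h hτ a ha => by
        obtain ⟨e, he, h'⟩ := hτ a ha
        rw [mem_singleton.1 ha] at he ⊢
        exact ⟨e, he, h e he ▸ h'⟩)
      (fun τ τ' h hτ a ha => by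
        obtain ⟨e, he, h'⟩ := hτ a ha
        refine ⟨e, he, h e (fun he' => ?_) ▸ h'⟩
        exact Finset.disjoint_left.1 (hd y (mem_insert_self _ _) a (mem_insert_of_mem ha)
          fun h => hy (h ▸ ha)) he' he)
    have h3 : p.pr {τ : Cfg | ∀ a ∈ ({y} : Finset V), ∃ e ∈ E a, p.lo < τ e} ≤ 1 - p.q ^ K := by
      have h4 := p.pr_all (E y) (s := Set.Iic p.lo) measurableSet_Iic
      have h5 := p.pr_compl (ms {y})
      have h6 : {τ : Cfg | ∀ a ∈ ({y} : Finset V), ∃ e ∈ E a, p.lo < τ e}ᶜ =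
          {τ : Cfg | ∀ e ∈ E y, τ e ∈ Set.Iic p.lo} := by ext τ; simp
      rw [h6, h4] at h5
      have h7 : p.q ^ K ≤ p.q ^ (E y).card :=
        pow_le_pow_of_le_one p.q_pos'.le p.q_le_one (hK y (mem_insert_self _ _))
      have : p.F.real (Set.Iic p.lo) = p.q := rfl
      rw [this] at h5
      linarith
    rw [e, h2, card_insert_of_notMem hy, pow_succ']
    exact mul_le_mul h3 h1 (p.pr_nonneg _) (by linarith)

end Pool.Agent.Lib.V3
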