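import Pool.Agent.Lib.V3.Prob

/-! The core step: many sites of the middle planes with a small excess. -/

namespace Pool.Agent.Lib.V3

open MeasureTheory ProbabilityTheory Filter Topology Function Finset
open scoped NNReal ENNReal

namespace CORE

/-- the middle planes -/
def JJ (n : ℕ) : Finset ℕ := (range n).filter fun j => n ≤ 3 * j ∧ n ≤ 3 * (n - 1 - j)

lemma mem_JJ {n j : ℕ} : j ∈ JJ n ↔ j < n ∧ n ≤ 3 * j ∧ n ≤ 3 * (n - 1 - j) := by
  simp only [JJ, mem_filter, mem_range]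

lemma flip_mem {n j : ℕ} (h : j ∈ JJ n) : n - 1 - j ∈ JJ n := by
  rw [mem_JJ] at h ⊢
  omega

lemma card_JJ_le (n : ℕ) : ((JJ n).card : ℝ) ≤ n := by
  have := (card_filter_le (range n) fun j => n ≤ 3 * j ∧ n ≤ 3 * (n - 1 - j))
  rw [card_range] at this
  exact_mod_cast this

lemma card_JJ_ge {n : ℕ} (hn : 24 ≤ n) : (n : ℝ) ≤ 4 * (JJ n).card := by
  have h : Finset.Ico ((n + 2) / 3) (n - (n + 2) / 3) ⊆ JJ n := fun j hj => by
    rw [Finset.mem_Ico] at hj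
    rw [mem_JJ]
    omega
  have h1 := card_le_card h
  rw [Nat.card_Ico] at h1
  have : n ≤ 4 * (JJ n).card := by omega
  exact_mod_cast this

lemma sum_flip (n : ℕ) (f : ℕ → ℝ) : ∑ j ∈ JJ n, f (n - 1 - j) = ∑ j ∈ JJ n, f j := by
  refine Finset.sum_bij' (fun j _ => n - 1 - j) (fun j _ => n - 1 - j) (fun j hj => flip_mem hj)
    (fun j hj => flip_mem hj) (fun j hj => ?_) (fun j hj => ?_) (fun j _ => rfl)
  · rw [mem_JJ] at hj
    show n - 1 - (n - 1 - j) = j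
    omega
  · rw [mem_JJ] at hj
    show n - 1 - (n - 1 - j) = j
    omega

lemma card_flip (n : ℕ) (Q : ℕ → Prop) [DecidablePred Q] :
    ((JJ n).filter fun j => Q (n - 1 - j)).card ≤ ((range n).filter Q).card := by
  refine Finset.card_le_card_of_injOn (fun j => n - 1 - j) (fun j hj => ?_) (fun i hi j hj h => ?_)
  · rw [Finset.mem_coe, mem_filter, mem_JJ] at hj
    rw [Finset.mem_coe, mem_filter, mem_range]
    refine ⟨?_, hj.2⟩
    show n - 1 - j < n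
    omega
  · rw [Finset.mem_coe, mem_filter, mem_JJ] at hi hj
    have h' : n - 1 - i = n - 1 - j := h
    omega

/-- off the lower tail event the centred time is at least `-lam` -/
lemma low_ge {p : Par} {d : Dat} (hε : 0 < d.ε) {n : ℕ} {j : ℤ} {lam : ℝ} (hl : 0 ≤ lam)
    {τ : Cfg} (h : τ ∉ p.Low d n j lam) {y : V} (hy : y 0 = j) : -lam ≤ p.A d j τ y := by
  by_contra hc
  have hc := lt_of_not_ge hc
  have h0 : 0 ≤ d.ε / 36 * d.eta y / n := by
    have := d.eta_nonneg y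
    positivity
  have h1 : (0 : ℝ) ≤ n := Nat.cast_nonneg n
  exact h ⟨y, hy, by linarith, by linarith⟩

/-- off the lower tail event a site with a moderate centred time lies in the window -/
lemma low_win {p : Par} {d : Dat} (hε : 0 < d.ε) {n : ℕ} (hn : 0 < n) {j : ℤ} {lam k t : ℝ}
    (hk : k + lam < n) (ht : 36 * (k + 2 * lam) ≤ d.ε * t)
    {τ : Cfg} (h : τ ∉ p.Low d n j lam) {y : V} (hy : y 0 = j) (hA : p.A d j τ y ≤ k + lam) :
    d.eta y ≤ n * t := by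
  have hn' : (0 : ℝ) < n := by exact_mod_cast hn
  have h1 : d.ε / 36 * d.eta y / n - lam < p.A d j τ y := by
    by_contra hc
    exact h ⟨y, hy, le_of_not_gt hc, by linarith⟩
  have h2 : d.ε / 36 * d.eta y / n ≤ d.ε * t / 36 := by linarith
  rw [div_le_iff₀ hn'] at h2
  have h3 : d.ε * d.eta y ≤ d.ε * (n * t) := by linarith
  exact le_of_mul_le_mul_left h3 hε

/-- the lower tail events at one site -/
def Tail (p : Par) (d : Dat) (s : ℝ) (j : ℕ) (y : V) : Set Cfg :=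
  {τ | p.A d j τ y < p.g d y - s}

lemma tail_meas (p : Par) (d : Dat) (s : ℝ) (j : ℕ) (y : V) : MeasurableSet (Tail p d s j y) :=
  measurableSet_lt (p.A_meas d j y) measurable_const

lemma tail_dep (p : Par) (d : Dat) (s : ℝ) (j : ℕ) (y : V) : Dep (Lo j) (Tail p d s j y) := by
  intro τ τ' h hτ
  have h1 : p.A d j τ y < p.g d y - s := hτ
  show p.A d j τ' y < p.g d y - s
  rwa [← p.A_congr d h]

lemma tail_pr {p : Par} (hV : p.VarB) (d : Dat) {s : ℝ} (hs : 0 < s) (j : ℕ) (y : V) :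
    p.pr (Tail p d s j y) ≤ p.σ ^ 2 / s ^ 2 := by
  refine le_trans (p.pr_mono fun τ hτ => ?_) (hV.low 0 y hs)
  have h1 : p.A d j τ y < p.g d y - s := hτ
  have h2 := p.T_le_TA (Lo j) τ 0 y
  show p.T τ 0 y ≤ p.h (y - 0) - s
  rw [sub_zero]
  unfold Par.A Par.g at h1
  linarith

/-- first use of the martingale bound -/
lemma sum_ev1 (hM : St_MART) {p : Par} (hV : p.VarB) (d : Dat) (n : ℕ) (x : V) {t s : ℝ}
    (ht : 1 ≤ t) (hs : 300 * p.σ ^ 2 * √t ≤ p.c1 * s) (W : ℕ → Finset V)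
    (hW0 : ∀ j, ∀ y ∈ W j, y 0 = j) (hWc : ∀ j, ((W j).card : ℝ) ≤ 9 * (n * t)) :
    ∑ j ∈ JJ n, p.pr (p.Ev x j (W j) (Tail p d s j)) ≤ n / 100 := by
  have hσ := p.σ_pos
  have hc := p.c1_pos
  have ht0 : 0 < t := by linarith
  have hst : 0 < √t := Real.sqrt_pos.2 ht0
  have hl : 0 < 300 * p.σ ^ 2 * √t := by positivity
  have hs0 : 0 < s := (mul_pos_iff_of_pos_left hc).1 (hl.trans_le hs)
  have hn : (0 : ℝ) ≤ n := Nat.cast_nonneg n
  have h1 := hM p x (JJ n) W (Tail p d s) fun j _ y hy =>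
    ⟨hW0 j y hy, tail_meas p d s j y, tail_dep p d s j y⟩
  have h2 : ∑ j ∈ JJ n, ∑ y ∈ W j, p.pr (Tail p d s j y) ≤
      n * (9 * (n * t) * (p.σ ^ 2 / s ^ 2)) := by
    have : ∀ j ∈ JJ n, ∑ y ∈ W j, p.pr (Tail p d s j y) ≤ 9 * (n * t) * (p.σ ^ 2 / s ^ 2) := by
      intro j _
      have := Finset.sum_le_card_nsmul (W j) (fun y => p.pr (Tail p d s j y)) _
        fun y _ => tail_pr hV d hs0 j y
      rw [nsmul_eq_mul] at this
      exact this.trans (mul_le_mul_of_nonneg_right (hWc j) (by positivity))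
    have h3 := Finset.sum_le_card_nsmul (JJ n) _ _ this
    rw [nsmul_eq_mul] at h3
    exact h3.trans (mul_le_mul_of_nonneg_right (card_JJ_le n) (by positivity))
  have h3 : p.Vr x * ∑ j ∈ JJ n, ∑ y ∈ W j, p.pr (Tail p d s j y) ≤
      p.σ ^ 2 * (n * (9 * (n * t) * (p.σ ^ 2 / s ^ 2))) :=
    mul_le_mul (hV x) h2 (sum_nonneg fun j _ => sum_nonneg fun y _ => p.pr_nonneg _)
      (by positivity)
  have h4 : (300 * p.σ ^ 2 * √t) ^ 2 ≤ (p.c1 * s) ^ 2 := pow_le_pow_left₀ hl.le hs 2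
  have h5 : (300 * p.σ ^ 2 * √t) ^ 2 = 90000 * p.σ ^ 4 * t := by
    rw [mul_pow, Real.sq_sqrt ht0.le]; ring
  have h6 : p.σ ^ 2 * (n * (9 * (n * t) * (p.σ ^ 2 / s ^ 2))) ≤ (p.c1 * (n / 100)) ^ 2 := by
    have e : p.σ ^ 2 * (n * (9 * (n * t) * (p.σ ^ 2 / s ^ 2))) =
        (n : ℝ) ^ 2 / 10000 * (90000 * p.σ ^ 4 * t) / s ^ 2 := by ring
    rw [e, div_le_iff₀ (by positivity)]
    have e2 : (p.c1 * (n / 100)) ^ 2 * s ^ 2 = (n : ℝ) ^ 2 / 10000 * (p.c1 * s) ^ 2 := by ring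
    rw [e2, ← h5]
    exact mul_le_mul_of_nonneg_left h4 (by positivity)
  have h7 := (h1.trans h3).trans h6
  have h8 := (abs_le_of_sq_le_sq' h7 (by positivity : 0 ≤ p.c1 * (n / 100))).2
  exact le_of_mul_le_mul_left h8 hc

/-- second use of the martingale bound -/
lemma sum_ev2 (hM : St_MART) {p : Par} (hV : p.VarB) (n : ℕ) (x : V) (S : ℕ → Finset V)
    (hS0 : ∀ j, ∀ y ∈ S j, y 0 = j)
    (h : (n : ℝ) / 20 ≤ ∑ j ∈ JJ n, p.pr (p.Ev x j (S j) fun _ => Set.univ)) :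
    p.cS * n ^ 2 ≤ ∑ j ∈ JJ n, ((S j).card : ℝ) := by
  have hσ := p.σ_pos
  have hc := p.c1_pos
  have h1 := hM p x (JJ n) S (fun _ _ => Set.univ) fun j _ y hy =>
    ⟨hS0 j y hy, MeasurableSet.univ, fun _ _ _ _ => Set.mem_univ _⟩
  simp only [p.pr_univ, sum_const, nsmul_eq_mul, mul_one] at h1
  have h2 : (p.c1 * (n / 20)) ^ 2 ≤
      (p.c1 * ∑ j ∈ JJ n, p.pr (p.Ev x j (S j) fun _ => Set.univ)) ^ 2 :=
    pow_le_pow_left₀ (by positivity) (mul_le_mul_of_nonneg_left h hc.le) 2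
  have h3 : p.Vr x * ∑ j ∈ JJ n, ((S j).card : ℝ) ≤ p.σ ^ 2 * ∑ j ∈ JJ n, ((S j).card : ℝ) :=
    mul_le_mul_of_nonneg_right (hV x) (sum_nonneg fun j _ => Nat.cast_nonneg _)
  have h4 := (h2.trans h1).trans h3
  unfold Par.cS
  rw [div_mul_eq_mul_div, div_le_iff₀ (by positivity)]
  nlinarith

/-- the bad event of one configuration at one plane -/
def Bad (p : Par) (d : Dat) (n : ℕ) (x : V) (lam s : ℝ) (W S : ℕ → Finset V) (j : ℕ) : Set Cfg :=
  p.Low d n j lam ∪ p.Ev x j (W j) (Tail p d s j) ∪ p.Ev x j (S j) fun _ => Set.univ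

/-- the global exceptional event -/
def Exc (p : Par) (n : ℕ) (x : V) : Set Cfg :=
  {τ | p.h (x - 0) + 10 * p.σ ≤ p.T τ 0 x} ∪ Light p.hi (DD p.r p.b * n) (n / 100) ∪
    {τ | rf x τ ∈ Light p.hi (DD p.r p.b * n) (n / 100)}

lemma exc_pr {p : Par} (hV : p.VarB) (hR : p.Rare) {n : ℕ} (hn : 1 ≤ n) (x : V) :
    p.pr (Exc p n x) ≤ 3 / 100 := by
  have hσ := p.σ_pos
  have h1 := hV.high 0 x (t := 10 * p.σ) (by positivity)
  have e : p.σ ^ 2 / (10 * p.σ) ^ 2 = 1 / 100 := by field_simp; norm_num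
  rw [e] at h1
  have h2 := hR n hn
  have h3 := p.pr_rf x (Light p.hi (DD p.r p.b * n) (n / 100))
  have h4 := p.pr_union_le ({τ | p.h (x - 0) + 10 * p.σ ≤ p.T τ 0 x} ∪
    Light p.hi (DD p.r p.b * n) (n / 100)) {τ | rf x τ ∈ Light p.hi (DD p.r p.b * n) (n / 100)}
  have h5 := p.pr_union_le {τ | p.h (x - 0) + 10 * p.σ ≤ p.T τ 0 x}
    (Light p.hi (DD p.r p.b * n) (n / 100))
  unfold Exc
  linarith

lemma bad_pr (p : Par) (d : Dat) (n : ℕ) (x : V) (lam s : ℝ) (W S : ℕ → Finset V) (j : ℕ)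
    (h : p.pr (p.Low d n j lam) ≤ 1 / 100) :
    p.pr (Bad p d n x lam s W S j) ≤ 1 / 100 + p.pr (p.Ev x j (W j) (Tail p d s j)) +
      p.pr (p.Ev x j (S j) fun _ => Set.univ) := by
  have h1 := p.pr_union_le (p.Low d n j lam ∪ p.Ev x j (W j) (Tail p d s j))
    (p.Ev x j (S j) fun _ => Set.univ)
  have h2 := p.pr_union_le (p.Low d n j lam) (p.Ev x j (W j) (Tail p d s j))
  unfold Bad
  linarith

/-- one side of the pointwise argument -/
lemma side {p : Par} {d : Dat} (hε : 0 < d.ε) {n : ℕ} (hn : 0 < n) {x : V} {lam k t s K : ℝ}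
    (hk : k + lam < n) (ht : 36 * (k + 2 * lam) ≤ d.ε * t) {W S : ℕ → Finset V} {j : ℕ}
    (hW : ∀ y : V, y 0 = j → d.eta y ≤ n * t → y ∈ W j)
    (hS : ∀ y ∈ W j, p.g d y * (n - 1) ≤ j * K → y ∈ S j)
    {τ : Cfg} (h : τ ∉ Bad p d n x lam s W S j) {y : V} (hy : y 0 = j) (hc : p.Cross x j τ y)
    (hh : p.hi < τ (ed y)) (hA : p.A d j τ y ≤ k + lam) :
    p.g d y - s ≤ p.A d j τ y ∧ j * K < p.g d y * (n - 1) := by
  have h1 : τ ∉ p.Low d n j lam := fun h' => h (Or.inl (Or.inl h'))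
  have hw := hW y hy (low_win hε hn hk ht h1 hy hA)
  constructor
  · by_contra hc'
    exact h (Or.inl (Or.inr ⟨y, hw, lt_of_not_ge hc', hc, hh⟩))
  · by_contra hc'
    exact h (Or.inr ⟨y, hS y hw (le_of_not_gt hc'), Set.mem_univ _, hc, hh⟩)

lemma n1_le {p : Par} {d : Dat} (g : p.Good d) {n : ℕ} {x : V} (hx : x 0 = n)
    (hg : p.g d x ≤ n) : p.b / p.r * n1 x ≤ DD p.r p.b * n := by
  have hr := p.r_pos
  have hb := p.b_pos
  have h0 : ((x 0 : ℤ) : ℝ) = n := by rw [hx]; simp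
  have h1 := g.g_ge x (by rw [hx]; exact Int.natCast_nonneg n)
  rw [h0] at h1
  have h2 : |(x 1 : ℝ)| + |(x 2 : ℝ)| ≤ 2 / p.r * (p.b + 1) * n := by
    rw [div_mul_eq_mul_div, div_mul_eq_mul_div, le_div_iff₀ hr]
    linarith
  unfold DD n1
  rw [mul_assoc, h0, Nat.abs_cast]
  refine mul_le_mul_of_nonneg_left ?_ (by positivity)
  linarith

/-- the pointwise counting inequality -/
lemma point (hD : St_DEC) {p : Par} {d : Dat} (g : p.Good d) {n : ℕ} (hn : 0 < n) {x : V}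
    (hx : x 0 = n) {lam t s : ℝ} (hl : 0 ≤ lam)
    (hk : p.g d x + 10 * p.σ + p.b + lam < n)
    (ht : 36 * (p.g d x + 10 * p.σ + p.b + 2 * lam) ≤ d.ε * t) {W S : ℕ → Finset V}
    (hW : ∀ (j : ℕ) (y : V), y 0 = j → d.eta y ≤ n * t → y ∈ W j)
    (hS : ∀ j : ℕ, ∀ y ∈ W j,
      p.g d y * (n - 1) ≤ j * (p.g d x + 10 * p.σ + p.b + 2 * s) → y ∈ S j) (τ : Cfg) :
    ((JJ n).card : ℝ) - 2 * (n / 100) ≤ ∑ j ∈ JJ n,
      (Exc p n x ∪ Bad p d n x lam s W S j ∪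
        {τ | rf x τ ∈ Bad p d n x lam s W S (n - 1 - j)}).indicator (fun _ => (1 : ℝ)) τ := by
  classical
  have hn0 : (0 : ℝ) ≤ n := Nat.cast_nonneg n
  by_cases hE : τ ∈ Exc p n x
  · have : ∀ j ∈ JJ n, (Exc p n x ∪ Bad p d n x lam s W S j ∪
        {τ | rf x τ ∈ Bad p d n x lam s W S (n - 1 - j)}).indicator (fun _ => (1 : ℝ)) τ = 1 :=
      fun j _ => by
        rw [Set.indicator_of_mem]
        exact Or.inl (Or.inl hE)
    rw [sum_congr rfl this, sum_const, nsmul_eq_mul, mul_one]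
    linarith
  have hσ := p.σ_pos
  have hb := p.b_pos
  have hT : p.T τ 0 x < p.h x + 10 * p.σ := by
    by_contra hc
    refine hE (Or.inl (Or.inl ?_))
    show p.h (x - 0) + 10 * p.σ ≤ p.T τ 0 x
    rw [sub_zero]
    exact le_of_not_gt hc
  obtain ⟨y, y', h1, h2, h3, h4⟩ := hD p d g x n τ (DD p.r p.b * n) (n / 100) hx
    (n1_le g hx (by linarith)) (fun h => hE (Or.inl (Or.inr h))) (fun h => hE (Or.inr h))
  have key : ∀ j ∈ JJ n, (1 : ℝ) ≤ (Exc p n x ∪ Bad p d n x lam s W S j ∪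
        {τ | rf x τ ∈ Bad p d n x lam s W S (n - 1 - j)}).indicator (fun _ => (1 : ℝ)) τ +
        (if τ (ed (y j)) ≤ p.hi then 1 else 0) +
        (if rf x τ (ed (y' (n - 1 - j))) ≤ p.hi then 1 else 0) := by
    intro j hj
    have i0 : 0 ≤ (Exc p n x ∪ Bad p d n x lam s W S j ∪
        {τ | rf x τ ∈ Bad p d n x lam s W S (n - 1 - j)}).indicator (fun _ => (1 : ℝ)) τ :=
      Set.indicator_nonneg (fun _ _ => zero_le_one) _
    by_cases c1 : τ (ed (y j)) ≤ p.hi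
    · rw [if_pos c1]
      split_ifs <;> linarith
    by_cases c2 : rf x τ (ed (y' (n - 1 - j))) ≤ p.hi
    · rw [if_pos c2, if_neg c1]
      linarith
    rw [if_neg c1, if_neg c2, add_zero, add_zero]
    rw [Set.indicator_of_mem]
    by_contra hc
    have b1 : τ ∉ Bad p d n x lam s W S j := fun h => hc (Or.inl (Or.inr h))
    have b2 : rf x τ ∉ Bad p d n x lam s W S (n - 1 - j) := fun h => hc (Or.inr h)
    rw [mem_JJ] at hj
    have hj' : n - 1 - j < n := by omega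
    have hjj : j + (n - 1 - j) + 1 = n := by omega
    obtain ⟨y0, -, cr, -⟩ := h1 j hj.1
    obtain ⟨-, y0', -, cr'⟩ := h1 (n - 1 - j) hj'
    have hsum := h2 j (n - 1 - j) hjj
    have l1 := low_ge g.ε_pos hl (fun h => b1 (Or.inl (Or.inl h))) y0
    have l2 := low_ge g.ε_pos hl (fun h => b2 (Or.inl (Or.inl h))) y0'
    have hg : p.g d x = p.h x - d.ρ x := rfl
    obtain ⟨s1, s2⟩ := side g.ε_pos hn hk ht (hW j) (hS j) b1 y0 cr (lt_of_not_ge c1)
      (by linarith)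
    obtain ⟨s3, s4⟩ := side g.ε_pos hn hk ht (hW (n - 1 - j)) (hS (n - 1 - j)) b2 y0' cr'
      (lt_of_not_ge c2) (by linarith)
    have hc1 : (j : ℝ) + ((n - 1 - j : ℕ) : ℝ) + 1 = n := by exact_mod_cast hjj
    have hn1 : (0 : ℝ) ≤ n - 1 := by
      have : (1 : ℝ) ≤ n := by exact_mod_cast hn
      linarith
    have hle : p.g d (y j) + p.g d (y' (n - 1 - j)) ≤ p.g d x + 10 * p.σ + p.b + 2 * s := by
      linarith
    have hm := mul_le_mul_of_nonneg_right hle hn1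
    have e : (j : ℝ) * (p.g d x + 10 * p.σ + p.b + 2 * s) +
        ((n - 1 - j : ℕ) : ℝ) * (p.g d x + 10 * p.σ + p.b + 2 * s) =
        (p.g d x + 10 * p.σ + p.b + 2 * s) * (n - 1) := by
      rw [← hc1]; ring
    linarith
  have hsum := sum_le_sum key
  rw [sum_const, nsmul_eq_mul, mul_one, sum_add_distrib, sum_add_distrib, sum_boole,
    sum_boole] at hsum
  have c1 : (((JJ n).filter fun j => τ (ed (y j)) ≤ p.hi).card : ℝ) ≤
      ((range n).filter fun j => τ (ed (y j)) ≤ p.hi).card := by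
    exact_mod_cast card_le_card (filter_subset_filter _ (filter_subset _ _))
  have c2 : (((JJ n).filter fun j => rf x τ (ed (y' (n - 1 - j))) ≤ p.hi).card : ℝ) ≤
      ((range n).filter fun j => rf x τ (ed (y' j)) ≤ p.hi).card := by
    exact_mod_cast card_flip n fun j => rf x τ (ed (y' j)) ≤ p.hi
  linarith

end CORE

open CORE in
theorem bCORE (hW : St_WIN) (hD : St_DEC) (hM : St_MART) : St_CORE := by
  classical
  intro p d g hV hR n x lam t s hn hx hl hk hL ht hε hs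
  have hn0 : (24 : ℝ) ≤ n := by exact_mod_cast hn
  have hu : (1 : ℝ) ≤ n * t := by nlinarith
  choose W hW1 hW2 using fun j : ℕ => hW d j (n * t) hu
  let S : ℕ → Finset V := fun j => (W j).filter fun y =>
    p.g d y * (n - 1) ≤ j * (p.g d x + 10 * p.σ + p.b + 2 * s)
  have hW0 : ∀ j, ∀ y ∈ W j, y 0 = j := fun j y hy => ((hW1 j y).1 hy).1
  have hS0 : ∀ j, ∀ y ∈ S j, y 0 = j := fun j y hy => hW0 j y (mem_filter.1 hy).1
  have e1 := sum_ev1 hM hV d n x ht hs W hW0 hW2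
  have hp := p.avg (JJ n) (fun _ => 1) (fun j => Exc p n x ∪ Bad p d n x lam s W S j ∪
      {τ | rf x τ ∈ Bad p d n x lam s W S (n - 1 - j)}) _ (fun _ _ => zero_le_one)
    (point hD g (by omega) hx hl hk hε (fun j y h0 h1 => (hW1 j y).2 ⟨h0, h1⟩)
      fun j y hy h => mem_filter.2 ⟨hy, h⟩)
  have hb : ∀ j ∈ JJ n, 1 * p.pr (Exc p n x ∪ Bad p d n x lam s W S j ∪
      {τ | rf x τ ∈ Bad p d n x lam s W S (n - 1 - j)}) ≤
      3 / 100 + p.pr (Bad p d n x lam s W S j) + p.pr (Bad p d n x lam s W S (n - 1 - j)) := by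
    intro j _
    have h1 := p.pr_union_le (Exc p n x ∪ Bad p d n x lam s W S j)
      {τ | rf x τ ∈ Bad p d n x lam s W S (n - 1 - j)}
    have h2 := p.pr_union_le (Exc p n x) (Bad p d n x lam s W S j)
    have h3 := p.pr_rf x (Bad p d n x lam s W S (n - 1 - j))
    have h4 := exc_pr hV hR (by omega : 1 ≤ n) x
    linarith
  have hq := hp.trans (sum_le_sum hb)
  rw [sum_add_distrib, sum_add_distrib, sum_const, nsmul_eq_mul,
    sum_flip n fun j => p.pr (Bad p d n x lam s W S j)] at hq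
  have hr := sum_le_sum fun j (hj : j ∈ JJ n) =>
    bad_pr p d n x lam s W S j (hL j (mem_JJ.1 hj).1)
  rw [sum_add_distrib, sum_add_distrib, sum_const, nsmul_eq_mul] at hr
  have hJ := card_JJ_ge hn
  have e2 := sum_ev2 hM hV n x S hS0 (by linarith)
  refine ⟨(JJ n).biUnion S, fun v hv => ?_, ?_⟩
  · obtain ⟨j, hj, hv⟩ := mem_biUnion.1 hv
    have h0 := hS0 j v hv
    have h1 := (mem_filter.1 hv).2
    rw [mem_JJ] at hj
    refine ⟨by omega, by omega, ?_⟩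
    rw [h0, Int.cast_natCast]
    exact h1
  · rw [card_biUnion, Nat.cast_sum]
    · exact e2
    · intro i _ j _ hij
      refine disjoint_left.2 fun v h1 h2 => hij ?_
      have := (hS0 i v h1).symm.trans (hS0 j v h2)
      exact_mod_cast this

end Pool.Agent.Lib.V3
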