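import Pool.Agent.Lib.V3.Prob

/-! Row DEC: first and last crossings of the slabs by a geodesic. -/

namespace Pool.Agent.Lib.V3

open Finset SimpleGraph Pool.Agent.Lib.MP_eba68f_pr
open scoped NNReal

namespace DEC

lemma step_up {a c : V} {j : ℤ} (h : G.Adj a c) (ha : a 0 ≤ j) (hc : j < c 0) :
    a 0 = j ∧ c = a + e0 := by
  rw [adj_iff] at h
  rw [vext_iff]
  simp only [Pi.add_apply, e0_zero, e0_one, e0_two]
  omega

/-- first crossing of the slab above the plane `j` -/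
lemma first (j : ℤ) {u v : V} (q : G.Walk u v) : u 0 ≤ j → j < v 0 →
    ∃ (y : V) (q₁ : G.Walk u y) (q₂ : G.Walk (y + e0) v), y 0 = j ∧
      (∀ z ∈ q₁.support, z 0 ≤ j) ∧ q.edges = q₁.edges ++ ed y :: q₂.edges := by
  induction q with
  | nil => intro h1 h2; omega
  | @cons a c e hac q ih =>
    intro h1 h2
    by_cases hc : c 0 ≤ j
    · obtain ⟨y, q₁, q₂, hy, hs, he⟩ := ih hc h2
      refine ⟨y, Walk.cons hac q₁, q₂, hy, fun z hz => ?_, by simp [he]⟩
      rw [Walk.support_cons, List.mem_cons] at hz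
      rcases hz with rfl | hz
      exacts [h1, hs z hz]
    · obtain ⟨ha, rfl⟩ := step_up hac h1 (not_le.1 hc)
      refine ⟨a, Walk.nil, q, ha, fun z hz => ?_, rfl⟩
      rw [Walk.support_nil, List.mem_singleton] at hz
      rw [hz]
      exact h1

/-- last crossing of the slab above the plane `j` -/
lemma last (j : ℤ) {u v : V} (q : G.Walk u v) : j < v 0 → (∀ z ∈ q.support, j + 1 ≤ z 0) ∨
    ∃ (y : V) (q₁ : G.Walk u y) (q₂ : G.Walk (y + e0) v), y 0 = j ∧
      (∀ z ∈ q₂.support, j + 1 ≤ z 0) ∧ q.edges = q₁.edges ++ ed y :: q₂.edges := by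
  induction q with
  | nil =>
    intro h
    refine Or.inl fun z hz => ?_
    rw [Walk.support_nil, List.mem_singleton] at hz
    rw [hz]
    exact h
  | @cons a c e hac q ih =>
    intro h
    rcases ih h with hs | ⟨y, q₁, q₂, hy, hs, he⟩
    · by_cases ha : a 0 ≤ j
      · obtain ⟨ha', rfl⟩ := step_up hac ha (hs c q.start_mem_support)
        exact Or.inr ⟨a, Walk.nil, q, ha', hs, rfl⟩
      · refine Or.inl fun z hz => ?_
        rw [Walk.support_cons, List.mem_cons] at hz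
        rcases hz with rfl | hz
        exacts [not_le.1 ha, hs z hz]
    · exact Or.inr ⟨y, Walk.cons hac q₁, q₂, hy, hs, by simp [he]⟩

/-- both crossings, with the three inequalities -/
lemma both (p : Par) (τ : Cfg) {x : V} (q : G.Walk 0 x) (j : ℤ) (h0 : 0 ≤ j) (h1 : j < x 0) :
    ∃ y u : V, y 0 = j ∧ u 0 = j ∧ ed y ∈ q.edges ∧ ed u ∈ q.edges ∧
      p.TA (Lo j) τ 0 y + p.w (τ (ed y)) + p.T τ (y + e0) x ≤ p.LW τ q.edges ∧
      p.T τ 0 u + p.w (τ (ed u)) + p.TA (Up (j + 1)) τ (u + e0) x ≤ p.LW τ q.edges ∧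
      p.TA (Lo j) τ 0 y + p.T τ y (u + e0) + p.TA (Up (j + 1)) τ (u + e0) x ≤
        p.LW τ q.edges := by
  obtain ⟨y, q₁, q₂, hy, hs, he⟩ := first j q h0 h1
  rcases last j (Walk.cons (adj_e0 y) q₂) h1 with h | ⟨u, r₁, r₂, hu, ht, hr⟩
  · have := h y (Walk.start_mem_support _)
    omega
  have hr' : ed y :: q₂.edges = r₁.edges ++ ed u :: r₂.edges := hr
  have a1 := p.TA_le_LW τ q₁ (edges_mem_Lo q₁ hs)
  have a2 := p.T_le_LW τ q₂
  have a3 := p.TA_le_LW τ r₂ (edges_mem_Up r₂ ht)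
  have a4 := p.T_le_LW τ r₁
  have a5 := p.T_le_LW τ q₁
  have a6 := p.T_tri τ 0 y u
  have a7 := p.T_tri τ y u (u + e0)
  have a8 := p.T_ed τ u
  have e1 : p.LW τ q.edges = p.LW τ q₁.edges + (p.w (τ (ed y)) + p.LW τ q₂.edges) := by
    rw [he, p.LW_append, Par.LW_cons]
  have e2 : p.LW τ q.edges =
      p.LW τ q₁.edges + (p.LW τ r₁.edges + (p.w (τ (ed u)) + p.LW τ r₂.edges)) := by
    rw [he, hr', p.LW_append, p.LW_append, Par.LW_cons]
  refine ⟨y, u, hy, hu, by simp [he], by simp [he, hr'], by linarith, by linarith, by linarith⟩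

lemma map_ed (x u : V) : Sym2.map (x - ·) (ed (x - (u + e0))) = ed u := by
  unfold ed
  rw [Sym2.map_mk, Sym2.eq_swap]
  congr 1 <;> abel

/-- the geodesic together with the crossing sites -/
lemma geo (p : Par) {d : Dat} (g : p.Good d) (x : V) (n : ℕ) (τ : Cfg) (hx : x 0 = n) :
    ∃ (q : G.Walk 0 x) (y y' : ℕ → V), (q.length : ℝ) ≤ p.b / p.r * n1 x ∧
      (∀ j : ℕ, j < n → ed (y j) ∈ q.edges ∧ Sym2.map (x - ·) (ed (y' j)) ∈ q.edges) ∧
      (∀ j : ℕ, j < n → y j 0 = j ∧ y' j 0 = j ∧ p.Cross x j τ (y j) ∧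
        p.Cross x j (rf x τ) (y' j)) ∧
      ∀ j j' : ℕ, j + j' + 1 = n →
        p.A d j τ (y j) + p.A d j' (rf x τ) (y' j') ≤ p.T τ 0 x - d.ρ x + p.b := by
  obtain ⟨q, -, hq⟩ := p.exists_geo τ 0 x
  have hl := p.geo_length hq
  rw [sub_zero] at hl
  have H : ∀ j : ℕ, ∃ y u : V, j < n → y 0 = j ∧ u 0 = j ∧ ed y ∈ q.edges ∧ ed u ∈ q.edges ∧
      p.TA (Lo j) τ 0 y + p.w (τ (ed y)) + p.T τ (y + e0) x ≤ p.T τ 0 x ∧
      p.T τ 0 u + p.w (τ (ed u)) + p.TA (Up (j + 1)) τ (u + e0) x ≤ p.T τ 0 x ∧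
      p.TA (Lo j) τ 0 y + p.T τ y (u + e0) + p.TA (Up (j + 1)) τ (u + e0) x ≤ p.T τ 0 x := by
    intro j
    by_cases hj : j < n
    · obtain ⟨y, u, h⟩ := both p τ q j (by omega) (by omega)
      rw [hq] at h
      exact ⟨y, u, fun _ => h⟩
    · exact ⟨0, 0, fun h => absurd h hj⟩
  choose y u H using H
  have K : ∀ j j' : ℕ, j + j' + 1 = n →
      p.TA (Lo j') (rf x τ) 0 (x - (u j + e0)) = p.TA (Up (j + 1)) τ (u j + e0) x := by
    intro j j' h
    rw [p.TA_rf_Lo, sub_zero, sub_sub_cancel, p.TA_comm,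
      show x 0 - (j' : ℤ) = (j : ℤ) + 1 by omega]
  refine ⟨q, y, fun j => x - (u (n - 1 - j) + e0), hl, fun j hj => ⟨(H j hj).2.2.1, ?_⟩,
    fun j hj => ⟨(H j hj).1, ?_, (H j hj).2.2.2.2.1, ?_⟩, fun j j' h => ?_⟩
  · rw [map_ed]
    exact (H _ (by omega)).2.2.2.1
  · have := (H (n - 1 - j) (by omega)).2.1
    simp only [Pi.sub_apply, Pi.add_apply, e0_zero]
    omega
  · have h1 := (H (n - 1 - j) (by omega)).2.2.2.2.2.1
    unfold Par.Cross
    rw [K (n - 1 - j) j (by omega), p.T_rf0, p.T_rf, sub_self,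
      show x - (x - (u (n - 1 - j) + e0) + e0) = u (n - 1 - j) by abel, p.T_comm τ _ 0]
    unfold rf
    rw [map_ed]
    linarith
  · obtain ⟨hy, hu, -, -, -, -, h1⟩ := H j (by omega)
    have h2 := g.T_sub_ρ τ (y j) (u j + e0) (by simp only [Pi.add_apply, e0_zero]; omega)
    have h3 : (u j + e0 - y j) 0 = 1 := by
      simp only [Pi.sub_apply, Pi.add_apply, e0_zero]
      omega
    have h4 : 0 ≤ p.r / 2 * (|((u j + e0 - y j) 1 : ℝ)| + |((u j + e0 - y j) 2 : ℝ)|) := by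
      have := p.r_pos
      positivity
    rw [h3, d.ρ_sub] at h2
    unfold Par.A
    simp only [show n - 1 - j' = j by omega]
    rw [K j j' h, d.ρ_sub]
    push_cast at h2
    linarith

lemma few {a : ℝ≥0} {l m : ℝ} {τ : Cfg} (h : τ ∉ Light a l m) {v : V} (q : G.Walk 0 v)
    (hl : (q.length : ℝ) ≤ l) (n : ℕ) (y : ℕ → V)
    (hy : ∀ j : ℕ, j < n → y j 0 = j ∧ ed (y j) ∈ q.edges) :
    ((((range n).filter fun j => τ (ed (y j)) ≤ a).card : ℝ) < m) := by
  classical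
  refine not_le.1 fun hm => h ⟨v, q, hl,
    ((range n).filter fun j => τ (ed (y j)) ≤ a).image fun j => ed (y j), fun e he => ?_, ?_⟩
  · obtain ⟨j, hj, rfl⟩ := mem_image.1 he
    rw [mem_filter, mem_range] at hj
    exact ⟨(hy j hj.1).2, hj.2⟩
  · rw [card_image_of_injOn]
    · exact hm
    · intro i hi j hj hij
      rw [mem_coe, mem_filter, mem_range] at hi hj
      have h1 := (hy i hi.1).1
      have h2 := (hy j hj.1).1
      rw [ed_inj hij] at h1
      omega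

end DEC

theorem bDEC : St_DEC := by
  intro p d g x n τ l m hx hl h1 h2
  obtain ⟨q, y, y', hq, he, hc, ha⟩ := DEC.geo p g x n τ hx
  refine ⟨y, y', hc, ha, DEC.few h1 q (hq.trans hl) n y fun j hj => ⟨(hc j hj).1, (he j hj).1⟩,
    DEC.few h2 ((q.reverse.map (refl x)).copy (sub_self x) rfl) ?_ n y'
      fun j hj => ⟨(hc j hj).2.1, ?_⟩⟩
  · rw [Walk.length_copy, Walk.length_map, Walk.length_reverse]
    exact hq.trans hl
  · rw [Walk.edges_copy, Walk.edges_map, Walk.edges_reverse, List.mem_map]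
    refine ⟨_, List.mem_reverse.2 (he j hj).2, ?_⟩
    unfold ed
    rw [Sym2.map_mk, Sym2.map_mk]
    congr 1 <;> exact sub_sub_cancel _ _

end Pool.Agent.Lib.V3
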