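import Pool.Agent.Lib.V3.Prob

/-! Block HALF: the passage time inside the upper half space is close to the functional. -/

namespace Pool.Agent.Lib.V3

open MeasureTheory ProbabilityTheory Finset SimpleGraph Pool.Agent.Lib.MP_eba68f_pr
open scoped NNReal ENNReal

namespace HALF

/-- the constant of the block; it depends on the two bounds of the weights only -/
noncomputable def C0 (r b : ℝ) : ℝ := 25 * b * (b / r) * (132 / r + 1) + 3

theorem C0_pos (p : Par) : 0 < C0 p.r p.b := by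
  have := p.r_pos
  have := p.b_pos
  unfold C0
  positivity

theorem low (p : Par) (u v : V) {s t : ℝ} (h : p.Vr (v - u) ≤ s ^ 2) (ht : 0 < t) :
    p.pr {τ | p.T τ u v ≤ p.h (v - u) - t} ≤ s ^ 2 / t ^ 2 := by
  refine le_trans (p.pr_mono fun τ hτ => ?_)
    ((p.cheb u v ht).trans (div_le_div_of_nonneg_right h (sq_nonneg t)))
  have : p.T τ u v ≤ p.h (v - u) - t := hτ
  show t ≤ |p.T τ u v - p.h (v - u)|
  exact le_abs.2 (Or.inr (by linarith))

theorem high (p : Par) (u v : V) {s t : ℝ} (h : p.Vr (v - u) ≤ s ^ 2) (ht : 0 < t) :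
    p.pr {τ | p.h (v - u) + t ≤ p.T τ u v} ≤ s ^ 2 / t ^ 2 := by
  refine le_trans (p.pr_mono fun τ hτ => ?_)
    ((p.cheb u v ht).trans (div_le_div_of_nonneg_right h (sq_nonneg t)))
  have : p.h (v - u) + t ≤ p.T τ u v := hτ
  show t ≤ |p.T τ u v - p.h (v - u)|
  exact le_abs.2 (Or.inl (by linarith))

/-- cutting a walk at its last passage from the lower to the upper half space -/
theorem split (p : Par) (τ : Cfg) {a v : V} (q : G.Walk a v) (hv : 0 ≤ v 0) :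
    (0 ≤ a 0 ∧ p.TA (Up 0) τ a v ≤ p.LW τ q.edges) ∨
      ∃ u : V, u 0 = 0 ∧ p.T τ a u + p.TA (Up 0) τ u v ≤ p.LW τ q.edges := by
  induction q with
  | nil => exact Or.inl ⟨hv, (p.T_self _ _).le⟩
  | @cons a c v h q ih =>
    rw [Walk.edges_cons, Par.LW_cons]
    have h1 := p.T_adj τ h
    rcases ih hv with ⟨hc, h2⟩ | ⟨u, hu, h2⟩
    · by_cases ha : 0 ≤ a 0
      · have h3 := p.TA_le_LW (A := Up 0) τ (Walk.cons h Walk.nil)
          (edges_mem_Up _ fun z hz => by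
            simp only [Walk.support_cons, Walk.support_nil, List.mem_cons, List.not_mem_nil,
              or_false] at hz
            rcases hz with rfl | rfl
            exacts [ha, hc])
        simp only [Walk.edges_cons, Walk.edges_nil, Par.LW_cons, Par.LW_nil, add_zero] at h3
        exact Or.inl ⟨ha, by linarith [p.TA_tri (Up 0) τ a c v]⟩
      · refine Or.inr ⟨c, ?_, by linarith⟩
        have := adj_iff.1 h
        omega
    · exact Or.inr ⟨u, hu, by linarith [p.T_tri τ a c u]⟩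

theorem last (p : Par) (τ : Cfg) (v : V) (hv : 0 ≤ v 0) :
    ∃ u : V, u 0 = 0 ∧ p.T τ 0 u + p.TA (Up 0) τ u v ≤ p.T τ 0 v := by
  obtain ⟨q, -, hq⟩ := p.exists_geo τ 0 v
  rw [← hq]
  rcases split p τ q hv with ⟨-, h⟩ | h
  · exact ⟨0, rfl, by rw [p.T_self]; linarith⟩
  · exact h

/-- rounding an integer to a multiple of the mesh -/
theorem round (M D : ℕ) (hM : 0 < M) (a : ℤ) (ha : |(a : ℝ)| < 2 * D * M) :
    ∃ w ∈ Finset.Icc (-(2 * D : ℤ)) (2 * D), |(a : ℝ) - M * w| ≤ M := by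
  have hM' : (0 : ℤ) < M := by exact_mod_cast hM
  have h1 : |a| < 2 * D * M := by exact_mod_cast ha
  obtain ⟨h2, h3⟩ := abs_lt.1 h1
  have h4 := Int.emod_nonneg a hM'.ne'
  have h5 := Int.emod_lt_of_pos a hM'
  have h6 := Int.mul_ediv_add_emod a M
  refine ⟨a / M, Finset.mem_Icc.2 ⟨?_, ?_⟩, ?_⟩
  · by_contra h
    have : a / M + 1 ≤ -(2 * D : ℤ) := by omega
    nlinarith
  · by_contra h
    have : (2 * D : ℤ) ≤ a / M := by omega
    nlinarith
  · have : |a - M * (a / M)| ≤ (M : ℤ) := abs_le.2 ⟨by omega, by omega⟩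
    exact_mod_cast this

/-- grid point of the plane through the origin -/
def gp (M : ℕ) (w : ℤ × ℤ) : V := pt 0 (M * w.1) (M * w.2)

/-- the deterministic alternative -/
theorem alt (p : Par) {d : Dat} (g : p.Good d) (v : V) (hv : 0 ≤ v 0) (τ : Cfg) (s : ℝ)
    (D m N : ℕ) (hD : 24 * p.b ≤ p.r * D) (hm : 0 < m)
    (hm' : 4 * (p.g d v + 3 * s) ≤ p.r * m) (hN : p.b / p.r * n1 v < N)
    (hT : p.T τ 0 v < p.h v + 3 * s) :
    p.TA (Up 0) τ 0 v - d.ρ v ≤ p.b * (D * m) + p.g d v + 3 * s ∨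
      ∃ i ∈ range N, ∃ w ∈ Finset.Icc (-(2 * D : ℤ)) (2 * D) ×ˢ Finset.Icc (-(2 * D : ℤ)) (2 * D),
        n1 (v - gp (2 ^ i * m) w) ≤ 3 * (p.b / p.r) * n1 v ∧
          p.T τ (gp (2 ^ i * m) w) v ≤
            p.h (v - gp (2 ^ i * m) w) - p.r / 8 * (D * (2 ^ i * m)) := by
  have hr := p.r_pos
  have hb := p.b_pos
  have hrb := p.r_le
  obtain ⟨u, hu, h1⟩ := last p τ v hv
  have h2 := p.T_ge τ 0 u
  have h3 := p.T_le_TA (Up 0) τ u v
  have h4 := p.T_nonneg τ u v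
  have h5 := p.T_le0 τ v
  have h6 := p.TA_tri (Up 0) τ 0 u v
  have h7 := p.TA_le (Up 0) τ 0 u
  rw [sub_zero] at h2 h7
  have hu0 := n1_nonneg u
  have hD2 : (24 : ℝ) ≤ D := by
    by_contra h
    nlinarith
  have hm1 : (1 : ℝ) ≤ m := by exact_mod_cast hm
  have hL : (1 : ℝ) ≤ D * m := by nlinarith
  have hun : n1 u ≤ p.b / p.r * n1 v := by
    rw [div_mul_eq_mul_div, le_div_iff₀ hr]
    linarith
  by_cases hc : n1 u ≤ D * m
  · left
    have := mul_le_mul_of_nonneg_left hc hb.le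
    have := mul_nonneg hr.le hu0
    unfold Par.g
    linarith
  right
  rw [not_le] at hc
  obtain ⟨i, hi, hi'⟩ := exists_nat_pow_near (x := n1 u / (D * m)) (y := 2)
    ((one_le_div (by linarith)).2 hc.le) one_lt_two
  rw [le_div_iff₀ (by linarith)] at hi
  rw [div_lt_iff₀ (by linarith), pow_succ] at hi'
  have hp1 : (1 : ℝ) ≤ 2 ^ i := one_le_pow₀ one_le_two
  have hiN : i < N := by
    have a1 : (i : ℝ) < 2 ^ i := by exact_mod_cast Nat.lt_two_pow_self
    have a2 : (2 : ℝ) ^ i ≤ 2 ^ i * (D * m) := le_mul_of_one_le_right (by linarith) hL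
    have : (i : ℝ) < N := by linarith
    exact_mod_cast this
  set M : ℕ := 2 ^ i * m with hM
  have hMr : (M : ℝ) = 2 ^ i * m := by rw [hM]; push_cast; ring
  have hM0 : 0 < M := Nat.mul_pos (Nat.two_pow_pos i) hm
  have hn : n1 u = |(u 1 : ℝ)| + |(u 2 : ℝ)| := by simp [n1, hu]
  have a1 := abs_nonneg (u 1 : ℝ)
  have a2 := abs_nonneg (u 2 : ℝ)
  have e1 : (2 : ℝ) ^ i * 2 * (D * m) = 2 * D * M := by rw [hMr]; ring
  have e2 : (2 : ℝ) ^ i * (D * m) = D * M := by rw [hMr]; ring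
  rw [e1] at hi'
  rw [e2] at hi
  obtain ⟨w1, hw1, k1⟩ := round M D hM0 (u 1) (by linarith)
  obtain ⟨w2, hw2, k2⟩ := round M D hM0 (u 2) (by linarith)
  have hd : n1 (u - gp M (w1, w2)) ≤ 2 * M := by
    simp only [n1, gp, Pi.sub_apply, pt_zero, pt_one, pt_two, hu, sub_zero, Int.cast_zero,
      abs_zero, Int.cast_sub, Int.cast_mul, Int.cast_natCast]
    linarith
  have hM1 : (0 : ℝ) ≤ M := Nat.cast_nonneg _
  have hgn : n1 (gp M (w1, w2)) ≤ n1 u + 2 * M := by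
    have := n1_tri 0 u (gp M (w1, w2))
    rw [sub_zero, sub_zero, n1_sub_comm] at this
    linarith
  have hMu : 24 * M ≤ n1 u := by nlinarith
  refine ⟨i, mem_range.2 hiN, (w1, w2), mem_product.2 ⟨hw1, hw2⟩, ?_, ?_⟩
  · have b1 := n1_add_le v (-gp M (w1, w2))
    rw [n1_neg, ← sub_eq_add_neg] at b1
    have b2 : n1 v ≤ p.b / p.r * n1 v := le_mul_of_one_le_left (n1_nonneg v) p.one_le_ratio
    linarith
  · have b1 := p.T_tri τ (gp M (w1, w2)) u v
    have b2 := (p.T_le τ (gp M (w1, w2)) u).trans (mul_le_mul_of_nonneg_left hd hb.le)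
    have b3 := g.G1 (v - gp M (w1, w2)) (by simpa [gp] using hv)
    have b4 := g.ρ_le (gp M (w1, w2)) (by simp [gp])
    have b5 : n1 (gp M (w1, w2)) =
        |(gp M (w1, w2) 1 : ℝ)| + |(gp M (w1, w2) 2 : ℝ)| := by simp [n1, gp]
    have b6 : (gp M (w1, w2) 0 : ℝ) = 0 := by simp [gp]
    rw [← b5, b6] at b4
    have b7 := mul_le_mul_of_nonneg_left hgn hr.le
    have b8 : p.r * m ≤ p.r * n1 u := mul_le_mul_of_nonneg_left (by nlinarith) hr.le
    have b9 := mul_le_mul_of_nonneg_left hi hr.le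
    have b10 := mul_le_mul_of_nonneg_right hD hM1
    have b11 := mul_le_mul_of_nonneg_right hrb hM1
    rw [← hMr]
    unfold Par.g at b3 hm'
    rw [d.ρ_sub] at b3
    linarith

/-- the local form: only variances of sites within three times `b / r` times `|v|` are used -/
theorem core (p : Par) {d : Dat} (g : p.Good d) (v : V) (hv : 0 ≤ v 0) {s : ℝ} (hs : 1 ≤ s)
    (hV : ∀ z : V, n1 z ≤ 3 * (p.b / p.r) * n1 v → p.Vr z ≤ s ^ 2) :
    1 / 2 ≤ p.pr {τ | p.TA (Up 0) τ 0 v - d.ρ v ≤ C0 p.r p.b * (p.g d v + s)} := by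
  have hr := p.r_pos
  have hb := p.b_pos
  have hq := p.one_le_ratio
  have hg := g.G1 v hv
  set D : ℕ := ⌈24 * (p.b / p.r)⌉₊ with hDd
  set m : ℕ := ⌈(4 * p.g d v + 132 * s) / p.r⌉₊ with hmd
  obtain ⟨N, hN⟩ := exists_nat_gt (p.b / p.r * n1 v)
  have hD1 : 24 * (p.b / p.r) ≤ D := Nat.le_ceil _
  have hD2 : (D : ℝ) ≤ 25 * (p.b / p.r) := by
    have := Nat.ceil_lt_add_one (a := 24 * (p.b / p.r)) (by positivity)
    linarith
  have hD : 24 * p.b ≤ p.r * D := by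
    rw [← mul_div_assoc, div_le_iff₀ hr] at hD1
    linarith
  have hx : 0 < (4 * p.g d v + 132 * s) / p.r := by positivity
  have hm0 : 0 < m := Nat.ceil_pos.2 hx
  have hm1 : 4 * p.g d v + 132 * s ≤ p.r * m := by
    have : (4 * p.g d v + 132 * s) / p.r ≤ m := Nat.le_ceil _
    rw [div_le_iff₀ hr] at this
    linarith
  have hm2 : (m : ℝ) ≤ (132 / p.r + 1) * (p.g d v + s) := by
    have a1 := Nat.ceil_lt_add_one hx.le
    have a2 : (4 * p.g d v + 132 * s) / p.r ≤ 132 / p.r * (p.g d v + s) := by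
      rw [div_mul_eq_mul_div]
      exact div_le_div_of_nonneg_right (by linarith) hr.le
    linarith
  have hmr : (0 : ℝ) < m := by exact_mod_cast hm0
  have hD0 : (1 : ℝ) ≤ D := by linarith
  set I := Finset.Icc (-(2 * D : ℤ)) (2 * D) with hI
  have hIc : (I.card : ℝ) ≤ 5 * D := by
    have a1 : (I.card : ℤ) = 4 * D + 1 := by
      rw [hI, Int.card_Icc_of_le _ _ (by omega)]
      ring
    have a2 : (I.card : ℝ) = 4 * D + 1 := by exact_mod_cast a1
    linarith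
  let E : ℕ → ℤ × ℤ → Set Cfg := fun i w =>
    {τ | n1 (v - gp (2 ^ i * m) w) ≤ 3 * (p.b / p.r) * n1 v ∧
      p.T τ (gp (2 ^ i * m) w) v ≤ p.h (v - gp (2 ^ i * m) w) - p.r / 8 * (D * (2 ^ i * m))}
  have hE : ∀ i w, p.pr (E i w) ≤ s ^ 2 / (p.r / 8 * (D * (2 ^ i * m))) ^ 2 := by
    intro i w
    by_cases h : n1 (v - gp (2 ^ i * m) w) ≤ 3 * (p.b / p.r) * n1 v
    · exact (p.pr_mono fun τ hτ => hτ.2).trans (low p _ _ (hV _ h) (by positivity))
    · rw [p.pr_eq_zero fun τ hτ => h hτ.1]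
      positivity
  have hE2 : ∀ i : ℕ, p.pr (⋃ w ∈ I ×ˢ I, E i w) ≤ 1 / 8 * (1 / 2) ^ i := by
    intro i
    refine (p.pr_biUnion_le _ _).trans ((sum_le_card_nsmul _ _ _ fun w _ => hE i w).trans ?_)
    rw [card_product, nsmul_eq_mul, Nat.cast_mul, ← mul_div_assoc, div_le_iff₀ (by positivity)]
    have hp1 : (1 : ℝ) ≤ 2 ^ i := one_le_pow₀ one_le_two
    have a1 : (I.card : ℝ) * I.card ≤ (5 * D) * (5 * D) :=
      mul_le_mul hIc hIc (Nat.cast_nonneg _) (by positivity)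
    have a2 : (132 * s) ^ 2 ≤ (p.r * m) ^ 2 := pow_le_pow_left₀ (by positivity) (by linarith) 2
    have a3 : 1 / 8 * (1 / 2 : ℝ) ^ i * (p.r / 8 * (D * (2 ^ i * m))) ^ 2 =
        2 ^ i * (D ^ 2 * (p.r * m) ^ 2 / 512) := by
      rw [one_div_pow]
      field_simp
      norm_num
    have a4 : (D : ℝ) ^ 2 * (132 * s) ^ 2 ≤ D ^ 2 * (p.r * m) ^ 2 :=
      mul_le_mul_of_nonneg_left a2 (sq_nonneg _)
    have a5 := mul_le_mul_of_nonneg_right a1 (sq_nonneg s)
    have a6 : (D : ℝ) ^ 2 * (p.r * m) ^ 2 / 512 ≤ 2 ^ i * (D ^ 2 * (p.r * m) ^ 2 / 512) :=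
      le_mul_of_one_le_left (by positivity) hp1
    have a7 : 0 ≤ (D : ℝ) ^ 2 * s ^ 2 := by positivity
    rw [a3]
    nlinarith
  have hE3 : p.pr (⋃ i ∈ range N, ⋃ w ∈ I ×ˢ I, E i w) ≤ 1 / 4 := by
    refine (p.pr_biUnion_le _ _).trans ((sum_le_sum fun i _ => hE2 i).trans ?_)
    rw [← mul_sum]
    linarith [sum_geometric_two_le N]
  have hH : p.pr {τ | p.h (v - 0) + 3 * s ≤ p.T τ 0 v} ≤ 1 / 9 := by
    refine (high p 0 v (s := s) (hV _ ?_) (by positivity)).trans (le_of_eq ?_)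
    · rw [sub_zero]
      nlinarith [n1_nonneg v]
    · field_simp
      norm_num
  have hC : p.b * (D * m) + p.g d v + 3 * s ≤ C0 p.r p.b * (p.g d v + s) := by
    have a1 : (D : ℝ) * m ≤ 25 * (p.b / p.r) * ((132 / p.r + 1) * (p.g d v + s)) :=
      mul_le_mul hD2 hm2 hmr.le (by positivity)
    have a2 := mul_le_mul_of_nonneg_left a1 hb.le
    unfold C0
    linarith
  have hsub := p.pr_mono
    (A := {τ | p.TA (Up 0) τ 0 v - d.ρ v ≤ C0 p.r p.b * (p.g d v + s)}ᶜ)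
    (B := {τ | p.h (v - 0) + 3 * s ≤ p.T τ 0 v} ∪ ⋃ i ∈ range N, ⋃ w ∈ I ×ˢ I, E i w)
    fun τ hτ => by
      by_cases h : p.h (v - 0) + 3 * s ≤ p.T τ 0 v
      · exact Or.inl h
      rw [sub_zero, not_le] at h
      rcases alt p g v hv τ s D m N hD hm0 (by linarith) hN h with h1 | ⟨i, hi, w, hw, h1⟩
      · exact absurd (h1.trans hC) hτ
      · exact Or.inr (Set.mem_biUnion hi (Set.mem_biUnion hw h1))
  have h1 := p.one_le_pr_add {τ | p.TA (Up 0) τ 0 v - d.ρ v ≤ C0 p.r p.b * (p.g d v + s)}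
  have h2 := hsub.trans (p.pr_union_le _ _)
  linarith

end HALF

theorem bHALF : St_HALF := by
  intro p d g hV
  have h0 := HALF.C0_pos p
  have h1 := p.one_le
  refine ⟨HALF.C0 p.r p.b * p.σ, by positivity, fun v hv => ?_⟩
  refine (HALF.core p g v hv h1 fun z _ => hV z).trans (p.pr_mono fun τ hτ => ?_)
  have h2 : p.TA (Up 0) τ 0 v - d.ρ v ≤ HALF.C0 p.r p.b * (p.g d v + p.σ) := hτ
  have h3 := g.G1 v hv
  have h4 : p.g d v + p.σ ≤ p.σ * (p.g d v + 1) := by nlinarith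
  show p.TA (Up 0) τ 0 v - d.ρ v ≤ HALF.C0 p.r p.b * p.σ * (p.g d v + 1)
  rw [mul_assoc]
  exact h2.trans (mul_le_mul_of_nonneg_left h4 h0.le)

end Pool.Agent.Lib.V3
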