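import Pool.Agent.Lib.V3.B_LOW

/-! The lower tail bound on a plane with free constants; the variance bound is used on a cone only. -/

namespace Pool.Agent.Lib.V3

open MeasureTheory ProbabilityTheory Filter Topology Function Finset SimpleGraph
  Pool.Agent.Lib.MP_eba68f_pr
open scoped NNReal ENNReal

namespace LOWK

open LOW (Bad idx bad_meas eta_three cone pt_self abs_int)

/-- number of bad sites in a finite set -/
noncomputable def cnt (p : Par) (d : Dat) (a l : ℝ) (I : Finset (ℤ × ℤ × ℤ)) (τ : Cfg) : ℝ :=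
  ∑ t ∈ I, (Bad p d a l (pt t.1 t.2.1 t.2.2)).indicator (fun _ => (1 : ℝ)) τ

lemma cnt_nice (p : Par) (d : Dat) (a l : ℝ) (I : Finset (ℤ × ℤ × ℤ)) : Nice (cnt p d a l I) :=
  Nice.sum _ fun _ _ => Nice.ind (bad_meas p d a l _)

lemma cnt_nonneg (p : Par) (d : Dat) (a l : ℝ) (I : Finset (ℤ × ℤ × ℤ)) (τ : Cfg) :
    0 ≤ cnt p d a l I τ :=
  sum_nonneg fun _ _ => Set.indicator_nonneg (fun _ _ => zero_le_one) _

lemma low0 (p : Par) {z : V} {s t : ℝ} (hz : p.Vr z ≤ s) (ht : 0 < t) :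
    p.pr {τ | p.T τ 0 z ≤ p.h z - t} ≤ s / t ^ 2 := by
  refine le_trans (p.pr_mono fun τ hτ => ?_)
    ((p.cheb0 z ht).trans (div_le_div_of_nonneg_right hz (sq_nonneg t)))
  have h1 : p.T τ 0 z ≤ p.h z - t := hτ
  show t ≤ |p.T τ 0 z - p.h z|
  exact le_abs.2 (Or.inr (by linarith))

lemma int_cnt (hS : St_SUM) (p : Par) (d : Dat) {a l s : ℝ} (ha : 0 < a) (hal : a ≤ l)
    (hs : 0 ≤ s) (n : ℕ) (M : ℤ) (I : Finset (ℤ × ℤ × ℤ)) (hI : I ⊆ idx n M)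
    (hV : ∀ t ∈ I, p.Vr (pt t.1 t.2.1 t.2.2) ≤ s) :
    ∫ τ, cnt p d a l I τ ∂p.P ≤ 6 * n * (s * (64 / (a * l))) := by
  unfold cnt
  rw [integral_finsetSum _ fun t _ => (Nice.ind (bad_meas p d a l _)).int _]
  have h1 : ∀ t ∈ I,
      ∫ τ, (Bad p d a l (pt t.1 t.2.1 t.2.2)).indicator (fun _ => (1 : ℝ)) τ ∂p.P ≤
        s * (1 / (a * (((t.2.1 : ℝ) - t.1 * d.θ1) ^ 2 + ((t.2.2 : ℝ) - t.1 * d.θ2) ^ 2)
          + l) ^ 2) := by
    intro t ht
    rw [p.int_ind (bad_meas p d a l _), mul_one_div]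
    have hp : 0 < a * d.eta (pt t.1 t.2.1 t.2.2) + l :=
      add_pos_of_nonneg_of_pos (mul_nonneg ha.le (d.eta_nonneg _)) (ha.trans_le hal)
    exact low0 p (hV t ht) hp
  refine (sum_le_sum h1).trans ((sum_le_sum_of_subset_of_nonneg hI fun _ _ _ =>
    mul_nonneg hs (by positivity)).trans ?_)
  unfold idx
  rw [sum_product]
  have h2 : ∀ i ∈ Finset.Icc 1 (6 * (n : ℤ)),
      ∑ m ∈ Finset.Icc (-M) M ×ˢ Finset.Icc (-M) M,
        s * (1 / (a * (((m.1 : ℝ) - i * d.θ1) ^ 2 + ((m.2 : ℝ) - i * d.θ2) ^ 2)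
          + l) ^ 2) ≤ s * (64 / (a * l)) := by
    intro i _
    rw [← mul_sum]
    exact mul_le_mul_of_nonneg_left (hS a l _ _ _ ha hal) hs
  refine (sum_le_sum h2).trans_eq ?_
  rw [sum_const, Int.card_Icc, nsmul_eq_mul]
  have h3 : (6 * (n : ℤ) + 1 - 1).toNat = 6 * n := by omega
  rw [h3]
  push_cast
  ring

lemma arith {ε n k R b B' L lam A B ey ez ev th gz ρ0 : ℝ} (hε : 0 < ε) (hε1 : ε ≤ 1)
    (hn : 1 ≤ n) (hρ : 0 ≤ ρ0) (hl : B' + b + k / 6 + R ^ 2 + L ≤ lam)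
    (hA : A ≤ ε / 36 * ey / n - lam) (hB : B ≤ B')
    (h3 : ey ≤ 3 * (ez + ev + th)) (hv : ε * ev ≤ 2 * n * k) (hth : th ≤ 2 * R ^ 2)
    (hz : ε * ez ≤ 6 * n * gz) :
    A + b + B - ρ0 ≤ gz - (ε / (12 * n) * ez + L) := by
  have hn0 : 0 < n := by linarith
  have h1 : ε / 36 * ey / n ≤ ε / (12 * n) * ez + k / 6 + R ^ 2 := by
    rw [div_le_iff₀ hn0]
    have e : (ε / (12 * n) * ez + k / 6 + R ^ 2) * n = ε * ez / 12 + n * k / 6 + R ^ 2 * n := by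
      field_simp
    rw [e]
    have a1 := mul_le_mul_of_nonneg_left h3 hε.le
    have a2 := mul_le_mul_of_nonneg_left hth hε.le
    have a3 := mul_le_mul_of_nonneg_right hε1 (sq_nonneg R)
    have a4 := mul_le_mul_of_nonneg_left hn (sq_nonneg R)
    have a5 := sq_nonneg R
    linarith
  have h2 : 2 * (ε / (12 * n) * ez) ≤ gz := by
    have e : 2 * (ε / (12 * n) * ez) = ε * ez / (6 * n) := by field_simp; ring
    rw [e, div_le_iff₀ (by linarith)]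
    linarith
  linarith

/-- the deterministic step: a low site of the plane and a good continuation give a bad site -/
lemma det {p : Par} {d : Dat} (g : p.Good d) {B L k lam : ℝ} {n : ℕ} {j : ℤ} {y v : V}
    {τ τ' : Cfg} (hl : B + p.b + k / 6 + p.R ^ 2 + L ≤ lam) (hn : 1 ≤ n) (hkn : k ≤ n)
    (hv1 : (n : ℤ) ≤ 2 * v 0) (hv2 : v 0 ≤ 2 * n) (hv3 : p.g d v ≤ k) (hj : 0 ≤ j)
    (hj3 : j ≤ 3 * n) (hy : y 0 = j)
    (hA : p.A d j τ y ≤ d.ε / 36 * d.eta y / n - lam)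
    (hAn : p.A d j τ y < n) :
    (|((v + (y + e0)) 1 : ℝ)| ≤ p.R * ((v + (y + e0)) 0 : ℤ) ∧
      |((v + (y + e0)) 2 : ℝ)| ≤ p.R * ((v + (y + e0)) 0 : ℤ)) ∧
    (p.TA (Up 0) (sh (y + e0) τ') 0 v - d.ρ v ≤ B →
      spl (Lo j) τ τ' ∈ Bad p d (d.ε / (12 * n)) L (v + (y + e0))) := by
  have hb := p.b_pos
  have hr := p.r_pos
  have hn' : (1 : ℝ) ≤ n := by exact_mod_cast hn
  have hv1' : (n : ℝ) ≤ 2 * v 0 := by exact_mod_cast hv1
  have hv2' : (v 0 : ℝ) ≤ 2 * n := by exact_mod_cast hv2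
  have hy0 : (0 : ℝ) ≤ y 0 := by rw [hy]; exact_mod_cast hj
  have hy3 : (y 0 : ℝ) ≤ 3 * n := by rw [hy]; exact_mod_cast hj3
  have z0 : (v + (y + e0)) 0 = v 0 + (y 0 + 1) := rfl
  have z0' : (((v + (y + e0)) 0 : ℤ) : ℝ) = v 0 + (y 0 + 1) := by rw [z0]; push_cast; ring
  have z1 : (((v + (y + e0)) 1 : ℤ) : ℝ) = v 1 + y 1 := by simp
  have z2 : (((v + (y + e0)) 2 : ℤ) : ℝ) = v 2 + y 2 := by simp
  have hyb : p.r / 2 * (|(y 1 : ℝ)| + |(y 2 : ℝ)|) ≤ n + p.b * (3 * n) := by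
    have h1 := g.T_sub_ρ (spl (Lo j) τ fun _ => p.b.toNNReal) 0 y (by rw [hy]; exact hj)
    rw [sub_zero] at h1
    have h2 : p.T (spl (Lo j) τ fun _ => p.b.toNNReal) 0 y - d.ρ y < n := hAn
    have h3 := mul_le_mul_of_nonneg_left hy3 hb.le
    linarith
  have hvb : p.r / 2 * (|(v 1 : ℝ)| + |(v 2 : ℝ)|) ≤ n + p.b * (2 * n) := by
    have h1 := g.g_ge v (by omega)
    have h3 := mul_le_mul_of_nonneg_left hv2' hb.le
    linarith
  have hr2 : 0 ≤ p.r / 2 := by linarith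
  have m1 := mul_nonneg hr2 (abs_nonneg (y 1 : ℝ))
  have m2 := mul_nonneg hr2 (abs_nonneg (y 2 : ℝ))
  have m3 := mul_nonneg hr2 (abs_nonneg (v 1 : ℝ))
  have m4 := mul_nonneg hr2 (abs_nonneg (v 2 : ℝ))
  have m5 := mul_le_mul_of_nonneg_left (abs_add_le (v 1 : ℝ) (y 1)) hr2
  have m6 := mul_le_mul_of_nonneg_left (abs_add_le (v 2 : ℝ) (y 2)) hr2
  have m7 := mul_nonneg hb.le (by linarith : (0 : ℝ) ≤ n)
  have cz1 : |((v + (y + e0)) 1 : ℝ)| ≤ p.R * ((v + (y + e0)) 0 : ℤ) := by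
    rw [z1, z0']
    exact cone p (n := n) (by linarith) (by linarith)
  have cz2 : |((v + (y + e0)) 2 : ℝ)| ≤ p.R * ((v + (y + e0)) 0 : ℤ) := by
    rw [z2, z0']
    exact cone p (n := n) (by linarith) (by linarith)
  have hz6 : (((v + (y + e0)) 0 : ℤ) : ℝ) ≤ 6 * n := by rw [z0']; linarith
  refine ⟨⟨cz1, cz2⟩, fun hB => ?_⟩
  have hzp : 0 < (v + (y + e0)) 0 := by rw [z0]; omega
  have G2z := g.G2 _ hzp cz1 cz2
  have G1z := g.G1 _ hzp.le
  have G2v := g.G2 v (by omega) (cone p (n := n) (by linarith) hv1')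
    (cone p (n := n) (by linarith) hv1')
  have G1v := g.G1 v (by omega)
  have hv : d.ε * d.eta v ≤ 2 * n * k :=
    G2v.trans (mul_le_mul hv2' hv3 G1v (by linarith))
  have hz : d.ε * d.eta (v + (y + e0)) ≤ 6 * n * p.g d (v + (y + e0)) :=
    G2z.trans (mul_le_mul_of_nonneg_right hz6 G1z)
  have hth : d.θ1 ^ 2 + d.θ2 ^ 2 ≤ 2 * p.R ^ 2 := by
    have a1 := pow_le_pow_left₀ (abs_nonneg _) g.θ1_le 2
    have a2 := pow_le_pow_left₀ (abs_nonneg _) g.θ2_le 2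
    rw [sq_abs] at a1 a2
    linarith
  have key := arith g.ε_pos g.ε_le hn' g.ρ0_nonneg hl hA hB (eta_three d y v) hv hth hz
  have e1 : p.TA (Up 0) (sh (y + e0) τ') 0 v =
      p.TA (Up (j + 1)) (spl (Lo j) τ τ') (y + e0) (v + (y + e0)) := by
    have e : (0 : ℤ) + (y + e0) 0 = j + 1 := by rw [← hy]; simp
    rw [p.TA_sh_Up, e, zero_add]
    exact p.TA_congr (fun e he => (spl_notMem _ _ (notMem_Lo_of_Up he)).symm) _ _
  have e2 : p.A d j τ y = p.TA (Lo j) (spl (Lo j) τ τ') 0 y - d.ρ y :=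
    p.A_congr d (fun e he => (spl_mem _ _ he).symm) y
  have t1 := p.T_tri (spl (Lo j) τ τ') 0 (y + e0) (v + (y + e0))
  have t2 := p.T_tri (spl (Lo j) τ τ') 0 y (y + e0)
  have t3 := (p.T_ed (spl (Lo j) τ τ') y).trans (p.w_le _)
  have t4 := p.T_le_TA (Lo j) (spl (Lo j) τ τ') 0 y
  have t5 := p.T_le_TA (Up (j + 1)) (spl (Lo j) τ τ') (y + e0) (v + (y + e0))
  have e3 : d.ρ (v + (y + e0)) = d.ρ v + (d.ρ y + d.ρ0) := by rw [d.ρ_add, d.ρ_add, d.ρ_e0]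
  have e4 : p.g d (v + (y + e0)) = p.h (v + (y + e0)) - d.ρ (v + (y + e0)) := rfl
  show p.T (spl (Lo j) τ τ') 0 (v + (y + e0)) ≤
    p.h (v + (y + e0)) - (d.ε / (12 * n) * d.eta (v + (y + e0)) + L)
  linarith

lemma le_cnt (p : Par) (d : Dat) (a l : ℝ) (I : Finset (ℤ × ℤ × ℤ)) (S : Finset V) (u : V)
    (τ : Cfg) (hS : ∀ v ∈ S, ((v + u) 0, (v + u) 1, (v + u) 2) ∈ I) :
    ∑ v ∈ S, (Bad p d a l (v + u)).indicator (fun _ => (1 : ℝ)) τ ≤ cnt p d a l I τ := by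
  classical
  have hi : Set.InjOn (fun v : V => ((v + u) 0, (v + u) 1, (v + u) 2)) S := by
    intro v _ w _ h
    simp only [Prod.mk.injEq] at h
    exact add_right_cancel (vext h.1 h.2.1 h.2.2)
  have e := Finset.sum_image (f := fun t : ℤ × ℤ × ℤ =>
    (Bad p d a l (pt t.1 t.2.1 t.2.2)).indicator (fun _ => (1 : ℝ)) τ) hi
  simp only [pt_self] at e
  rw [← e]
  refine sum_le_sum_of_subset_of_nonneg ?_ fun _ _ _ =>
    Set.indicator_nonneg (fun _ _ => zero_le_one) _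
  intro t ht
  obtain ⟨v, hv, rfl⟩ := Finset.mem_image.1 ht
  exact hS v hv

/-- the lower tail bound with free constants -/
theorem lowK (hS : St_SUM) {p : Par} {d : Dat} (g : p.Good d) {n : ℕ} {k B L lam s : ℝ}
    {S : Finset V} {j : ℤ} (hn : 1 ≤ n) (hkn : k ≤ n) (hL1 : 1 ≤ L) (hs : 0 ≤ s)
    (hl : B + p.b + k / 6 + p.R ^ 2 + L ≤ lam)
    (hSv : ∀ v ∈ S, (n : ℤ) ≤ 2 * v 0 ∧ v 0 ≤ 2 * n ∧ p.g d v ≤ k) (hj : 0 ≤ j) (hj3 : j ≤ 3 * n)
    (hV : ∀ z : V, 1 ≤ z 0 → z 0 ≤ 6 * n → |(z 1 : ℝ)| ≤ p.R * z 0 → |(z 2 : ℝ)| ≤ p.R * z 0 →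
      p.Vr z ≤ s)
    (hH : ∀ v ∈ S, 1 / 2 ≤ p.pr {τ | p.TA (Up 0) τ 0 v - d.ρ v ≤ B}) :
    (S.card : ℝ) * p.pr (p.Low d n j lam) * (d.ε * L) ≤ 9216 * s * n ^ 2 := by
  classical
  have hε := g.ε_pos
  have hn' : (1 : ℝ) ≤ n := by exact_mod_cast hn
  have ha : 0 < d.ε / (12 * n) := by positivity
  have hal : d.ε / (12 * n) ≤ L := by
    refine le_trans ?_ hL1
    rw [div_le_one (by positivity)]
    linarith [g.ε_le]
  obtain ⟨I, hI⟩ : ∃ I : Finset (ℤ × ℤ × ℤ), ∀ t, t ∈ I ↔ t ∈ idx n ⌈p.R * (6 * n)⌉ ∧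
      |(t.2.1 : ℝ)| ≤ p.R * t.1 ∧ |(t.2.2 : ℝ)| ≤ p.R * t.1 :=
    ⟨(idx n ⌈p.R * (6 * n)⌉).filter fun t => |(t.2.1 : ℝ)| ≤ p.R * t.1 ∧
      |(t.2.2 : ℝ)| ≤ p.R * t.1, fun t => Finset.mem_filter⟩
  have hnice := cnt_nice p d (d.ε / (12 * n)) L I
  have hcond := p.cond (Lo j) hnice (cnt_nonneg p d _ _ _)
    (p.Low d n j lam) (c := (S.card : ℝ) / 2)
    (by positivity) (by
      rintro τ ⟨y, hy, hA, hAn⟩
      have hm : ∀ v : V, MeasurableSet {τ' : Cfg | sh (y + e0) τ' ∈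
          {τ : Cfg | p.TA (Up 0) τ 0 v - d.ρ v ≤ B}} := fun v =>
        meas_sh (y + e0) (measurableSet_le ((p.TA_meas _ _ _).sub_const _) measurable_const)
      have h1 := integral_mono ((Nice.sum S fun v _ => Nice.ind (hm v)).int p.P)
        ((hnice.comp (meas_spl_right (Lo j) τ)).int p.P) fun τ' => by
          refine le_trans (sum_le_sum fun v hv => ?_) (le_cnt p d _ _ I S (y + e0) _ ?_)
          · obtain ⟨h1, h2, h3⟩ := hSv v hv
            have hd := (det g (τ' := τ') hl hn hkn h1 h2 h3 hj hj3 hy hA hAn).2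
            by_cases hτ : τ' ∈ {τ' : Cfg | sh (y + e0) τ' ∈
                {τ : Cfg | p.TA (Up 0) τ 0 v - d.ρ v ≤ B}}
            · rw [Set.indicator_of_mem hτ, Set.indicator_of_mem (hd hτ)]
            · rw [Set.indicator_of_notMem hτ]
              exact Set.indicator_nonneg (fun _ _ => zero_le_one) _
          · intro v hv
            obtain ⟨h1, h2, h3⟩ := hSv v hv
            have hd := (det g (τ' := τ') hl hn hkn h1 h2 h3 hj hj3 hy hA hAn).1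
            have z0 : (v + (y + e0)) 0 = v 0 + (y 0 + 1) := rfl
            have hz : 1 ≤ (v + (y + e0)) 0 ∧ (v + (y + e0)) 0 ≤ 6 * (n : ℤ) := by
              rw [z0]
              omega
            have hz6 : (((v + (y + e0)) 0 : ℤ) : ℝ) ≤ 6 * n := by exact_mod_cast hz.2
            have hR6 := mul_le_mul_of_nonneg_left hz6 p.R_pos.le
            exact (hI _).2 ⟨Finset.mem_product.2 ⟨Finset.mem_Icc.2 hz, Finset.mem_product.2
              ⟨abs_int (hd.1.trans hR6) (Int.le_ceil _),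
                abs_int (hd.2.trans hR6) (Int.le_ceil _)⟩⟩, hd⟩
      refine le_trans ?_ h1
      rw [integral_finsetSum _ fun v _ => (Nice.ind (hm v)).int _]
      have h2 : ∀ v ∈ S, (1 / 2 : ℝ) ≤ ∫ τ', {τ' : Cfg | sh (y + e0) τ' ∈
          {τ : Cfg | p.TA (Up 0) τ 0 v - d.ρ v ≤ B}}.indicator
            (fun _ => (1 : ℝ)) τ' ∂p.P := by
        intro v hv
        rw [p.int_ind (hm v), p.pr_sh]
        exact hH v hv
      refine le_trans (le_of_eq ?_) (sum_le_sum h2)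
      rw [sum_const, nsmul_eq_mul]
      ring)
  have hup := hcond.trans (int_cnt hS p d ha hal hs n _ I (fun t ht => ((hI t).1 ht).1)
    fun t ht => by
      obtain ⟨h1, h2, h3⟩ := (hI t).1 ht
      have h4 := Finset.mem_Icc.1 (Finset.mem_product.1 h1).1
      exact hV _ h4.1 h4.2 h2 h3)
  have e : 6 * (n : ℝ) * (s * (64 / (d.ε / (12 * n) * L))) = 4608 * s * n ^ 2 / (d.ε * L) := by
    field_simp
    ring
  have hεL : 0 < d.ε * L := by positivity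
  rw [e, le_div_iff₀ hεL] at hup
  linarith

end LOWK

end Pool.Agent.Lib.V3
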