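import Mathlib

/-! Covariance with an orthogonal family, and the martingale bound on a product space
(written by helper96). -/

namespace Pool.Agent.Lib.V3.M95

open MeasureTheory ProbabilityTheory Finset

variable {Ω : Type*} [MeasurableSpace Ω] {P : Measure Ω}

/-- Cauchy-Schwarz for real integrals. -/
theorem cs (f g : Ω → ℝ) (hf : MemLp f 2 P) (hg : MemLp g 2 P) :
    (∫ x, f x * g x ∂P) ^ 2 ≤ (∫ x, f x ^ 2 ∂P) * ∫ x, g x ^ 2 ∂P := by
  have i1 : Integrable (fun x => f x ^ 2) P := hf.integrable_sq
  have i2 : Integrable (fun x => g x ^ 2) P := hg.integrable_sq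
  have i3 : Integrable (fun x => f x * g x) P := hf.integrable_mul hg
  have key : ∀ t : ℝ, 0 ≤ (∫ x, f x ^ 2 ∂P) * (t * t) + (2 * ∫ x, f x * g x ∂P) * t
      + ∫ x, g x ^ 2 ∂P := by
    intro t
    have h0 : 0 ≤ ∫ x, (t * f x + g x) ^ 2 ∂P := integral_nonneg fun x => sq_nonneg _
    have e : (fun x => (t * f x + g x) ^ 2)
        = fun x => (t * t * f x ^ 2 + 2 * t * (f x * g x)) + g x ^ 2 := by
      funext x; ring
    have j1 : Integrable (fun x => t * t * f x ^ 2) P := i1.const_mul _
    have j2 : Integrable (fun x => 2 * t * (f x * g x)) P := i3.const_mul _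
    have j3 : Integrable (fun x => t * t * f x ^ 2 + 2 * t * (f x * g x)) P := j1.add j2
    rw [e, integral_add j3 i2, integral_add j1 j2, integral_const_mul,
      integral_const_mul] at h0
    linarith
  have h := discrim_le_zero key
  unfold discrim at h
  nlinarith [h]

/-- Second moment of the sum of an orthogonal family. -/
theorem sq_sum {ι : Type*} (I : Finset ι) (ξ : ι → Ω → ℝ) (hξ : ∀ i ∈ I, MemLp (ξ i) 2 P)
    (ho : ∀ i ∈ I, ∀ k ∈ I, i ≠ k → ∫ x, ξ i x * ξ k x ∂P = 0) :
    ∫ x, (∑ i ∈ I, ξ i x) ^ 2 ∂P = ∑ i ∈ I, ∫ x, ξ i x ^ 2 ∂P := by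
  classical
  have e : (fun x => (∑ i ∈ I, ξ i x) ^ 2) = fun x => ∑ i ∈ I, ∑ k ∈ I, ξ i x * ξ k x := by
    funext x
    rw [sq, sum_mul_sum]
  have hi : ∀ i ∈ I, ∀ k ∈ I, Integrable (fun x => ξ i x * ξ k x) P :=
    fun i hi k hk => (hξ i hi).integrable_mul (hξ k hk)
  rw [e, integral_finsetSum _ fun i h => integrable_finsetSum _ fun k hk => hi i h k hk]
  refine sum_congr rfl fun i h => ?_
  rw [integral_finsetSum _ fun k hk => hi i h k hk, sum_eq_single i]
  · simp only [sq]
  · intro k hk hne
    exact ho i h k hk hne.symm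
  · intro hn
    exact absurd h hn

/-- Abstract martingale bound: for an orthogonal family of centred variables the sum of the
covariances with `T` is bounded through the variance of `T`. -/
theorem mart [IsProbabilityMeasure P] {ι : Type*} (I : Finset ι) (T : Ω → ℝ) (hT : MemLp T 2 P)
    (ξ : ι → Ω → ℝ) (hξ : ∀ i ∈ I, MemLp (ξ i) 2 P)
    (h0 : ∀ i ∈ I, ∫ x, ξ i x ∂P = 0)
    (ho : ∀ i ∈ I, ∀ k ∈ I, i ≠ k → ∫ x, ξ i x * ξ k x ∂P = 0)
    (p : ι → ℝ) (hp : ∀ i ∈ I, ∫ x, ξ i x ^ 2 ∂P ≤ p i) :
    (∑ i ∈ I, ∫ x, T x * ξ i x ∂P) ^ 2 ≤ variance T P * ∑ i ∈ I, p i := by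
  set m : ℝ := ∫ x, T x ∂P with hm
  have hc : MemLp (fun x => T x - m) 2 P := hT.sub (memLp_const m)
  have hs : MemLp (fun x => ∑ i ∈ I, ξ i x) 2 P := memLp_finsetSum I hξ
  have h1 := cs _ _ hc hs
  have hv : variance T P = ∫ x, (T x - m) ^ 2 ∂P := variance_eq_integral hT.aemeasurable
  have e : ∫ x, (T x - m) * ∑ i ∈ I, ξ i x ∂P = ∑ i ∈ I, ∫ x, T x * ξ i x ∂P := by
    simp_rw [mul_sum]
    have hi0 : ∀ i ∈ I, Integrable (fun x => (T x - m) * ξ i x) P :=
      fun i hi => hc.integrable_mul (hξ i hi)
    rw [integral_finsetSum _ hi0]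
    refine sum_congr rfl fun i hi => ?_
    have i1 : Integrable (fun x => T x * ξ i x) P := hT.integrable_mul (hξ i hi)
    have i2 : Integrable (fun x => m * ξ i x) P :=
      ((hξ i hi).integrable one_le_two).const_mul m
    simp_rw [sub_mul]
    rw [integral_sub i1 i2, integral_const_mul, h0 i hi]
    ring
  rw [e, sq_sum I ξ hξ ho, ← hv] at h1
  exact h1.trans (mul_le_mul_of_nonneg_left (sum_le_sum hp) (variance_nonneg _ _))

/-- Form with comparison variables: `U i` is uncorrelated with `ξ i` and
`(T - U i) ξ i ≥ c` on the event `E i`, `≥ 0` everywhere. -/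
theorem mart' [IsProbabilityMeasure P] {ι : Type*} (I : Finset ι) (T : Ω → ℝ) (hT : MemLp T 2 P)
    (ξ : ι → Ω → ℝ) (hξ : ∀ i ∈ I, MemLp (ξ i) 2 P)
    (h0 : ∀ i ∈ I, ∫ x, ξ i x ∂P = 0)
    (ho : ∀ i ∈ I, ∀ k ∈ I, i ≠ k → ∫ x, ξ i x * ξ k x ∂P = 0)
    (p : ι → ℝ) (hp : ∀ i ∈ I, ∫ x, ξ i x ^ 2 ∂P ≤ p i)
    (U : ι → Ω → ℝ) (hU : ∀ i ∈ I, MemLp (U i) 2 P)
    (hU0 : ∀ i ∈ I, ∫ x, U i x * ξ i x ∂P = 0)
    (c : ℝ) (hc : 0 ≤ c) (E : ι → Set Ω) (hE : ∀ i ∈ I, MeasurableSet (E i))
    (hpos : ∀ i ∈ I, ∀ᵐ x ∂P, 0 ≤ (T x - U i x) * ξ i x)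
    (hge : ∀ i ∈ I, ∀ᵐ x ∂P, x ∈ E i → c ≤ (T x - U i x) * ξ i x) :
    (c * ∑ i ∈ I, P.real (E i)) ^ 2 ≤ variance T P * ∑ i ∈ I, p i := by
  refine le_trans ?_ (mart I T hT ξ hξ h0 ho p hp)
  have hle : c * ∑ i ∈ I, P.real (E i) ≤ ∑ i ∈ I, ∫ x, T x * ξ i x ∂P := by
    rw [mul_sum]
    refine sum_le_sum fun i hi => ?_
    have i1 : Integrable (fun x => T x * ξ i x) P := hT.integrable_mul (hξ i hi)
    have i2 : Integrable (fun x => U i x * ξ i x) P := (hU i hi).integrable_mul (hξ i hi)
    have e1 : ∫ x, T x * ξ i x ∂P = ∫ x, (T x - U i x) * ξ i x ∂P := by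
      simp_rw [sub_mul]
      rw [integral_sub i1 i2, hU0 i hi, sub_zero]
    have e2 : c * P.real (E i) = ∫ x, (E i).indicator (fun _ => c) x ∂P := by
      rw [integral_indicator_const _ (hE i hi), smul_eq_mul, mul_comm]
    rw [e1, e2]
    refine integral_mono_ae ((integrable_const c).indicator (hE i hi)) ?_ ?_
    · exact (i1.sub i2).congr (Filter.Eventually.of_forall fun x => (sub_mul _ _ _).symm)
    · filter_upwards [hpos i hi, hge i hi] with x h1 h2
      by_cases hx : x ∈ E i
      · rw [Set.indicator_of_mem hx]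
        exact h2 hx
      · rw [Set.indicator_of_notMem hx]
        exact h1
  have hnn : 0 ≤ c * ∑ i ∈ I, P.real (E i) :=
    mul_nonneg hc (sum_nonneg fun i _ => measureReal_nonneg)
  exact pow_le_pow_left₀ hnn hle 2

end Pool.Agent.Lib.V3.M95

/-! Splicing, independence and the martingale bound on a product space. -/

namespace Pool.Agent.Lib.V3.M95

open MeasureTheory ProbabilityTheory Finset

variable {ι α : Type*} [MeasurableSpace α] (F : Measure α) [IsProbabilityMeasure F]

theorem meas_splice (A : Set ι) [DecidablePred (· ∈ A)] :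
    Measurable fun z : (ι → α) × (ι → α) => A.piecewise z.1 z.2 := by
  refine measurable_pi_iff.2 fun i => ?_
  by_cases h : i ∈ A
  · simp only [Set.piecewise, h, if_true]
    fun_prop
  · simp only [Set.piecewise, h, if_false]
    fun_prop

/-- Splicing two independent configurations along `A` gives the product law. -/
theorem splice (A : Set ι) [DecidablePred (· ∈ A)] :
    MeasurePreserving (fun z : (ι → α) × (ι → α) => A.piecewise z.1 z.2)
      ((Measure.infinitePi fun _ : ι => F).prod (Measure.infinitePi fun _ : ι => F))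
      (Measure.infinitePi fun _ : ι => F) := by
  classical
  refine ⟨meas_splice A, ?_⟩
  refine Measure.eq_infinitePi _ fun s t ht => ?_
  rw [Measure.map_apply (meas_splice A) (.pi s.countable_toSet fun _ _ => ht _)]
  have : (fun z : (ι → α) × (ι → α) => A.piecewise z.1 z.2) ⁻¹' ((s : Set ι).pi t) =
      (((s.filter (· ∈ A) : Finset ι) : Set ι).pi t) ×ˢ
        (((s.filter (· ∉ A) : Finset ι) : Set ι).pi t) := by
    ext z
    simp only [Set.mem_preimage, Set.mem_pi, Finset.mem_coe, Set.mem_prod, Finset.mem_filter]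
    constructor
    · intro h
      refine ⟨fun i hi => ?_, fun i hi => ?_⟩
      · have := h i hi.1
        rwa [Set.piecewise_eq_of_mem _ _ _ hi.2] at this
      · have := h i hi.1
        rwa [Set.piecewise_eq_of_notMem _ _ _ hi.2] at this
    · rintro ⟨h1, h2⟩ i hi
      by_cases hp : i ∈ A
      · rw [Set.piecewise_eq_of_mem _ _ _ hp]
        exact h1 i ⟨hi, hp⟩
      · rw [Set.piecewise_eq_of_notMem _ _ _ hp]
        exact h2 i ⟨hi, hp⟩
  rw [this, Measure.prod_prod, Measure.infinitePi_pi _ (fun i _ => ht i),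
    Measure.infinitePi_pi _ (fun i _ => ht i), Finset.prod_filter_mul_prod_filter_not]

/-- Functions of complementary sets of coordinates are uncorrelated. -/
theorem indep (A : Set ι) (f g : (ι → α) → ℝ) (hf : Measurable f) (hg : Measurable g)
    (df : DependsOn f A) (dg : DependsOn g Aᶜ) :
    ∫ x, f x * g x ∂(Measure.infinitePi fun _ : ι => F)
      = (∫ x, f x ∂(Measure.infinitePi fun _ : ι => F))
        * ∫ x, g x ∂(Measure.infinitePi fun _ : ι => F) := by
  classical
  have hm : Measurable fun x => f x * g x := hf.mul hg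
  rw [← (splice F A).map_eq, integral_map (meas_splice A).aemeasurable hm.aestronglyMeasurable,
    (splice F A).map_eq, ← integral_prod_mul]
  refine integral_congr_ae (Filter.Eventually.of_forall fun z => ?_)
  have e1 : f (A.piecewise z.1 z.2) = f z.1 :=
    df fun i hi => Set.piecewise_eq_of_mem _ _ _ hi
  have e2 : g (A.piecewise z.1 z.2) = g z.2 :=
    dg fun i hi => Set.piecewise_eq_of_notMem _ _ _ hi
  simp only [e1, e2]

/-- Independence of events depending on complementary sets of coordinates. -/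
theorem indep_set (A : Set ι) (B C : Set (ι → α)) (hB : MeasurableSet B) (hC : MeasurableSet C)
    (dB : DependsOn (fun x => x ∈ B) A) (dC : DependsOn (fun x => x ∈ C) Aᶜ) :
    (Measure.infinitePi fun _ : ι => F).real (B ∩ C)
      = (Measure.infinitePi fun _ : ι => F).real B * (Measure.infinitePi fun _ : ι => F).real C := by
  classical
  have h := indep F A (B.indicator fun _ => (1 : ℝ)) (C.indicator fun _ => (1 : ℝ))
    (measurable_const.indicator hB) (measurable_const.indicator hC)
    (fun x y hxy => by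
      have : (x ∈ B) = (y ∈ B) := dB hxy
      simp only [Set.indicator_apply, this])
    (fun x y hxy => by
      have : (x ∈ C) = (y ∈ C) := dC hxy
      simp only [Set.indicator_apply, this])
  have e : (fun x => B.indicator (fun _ => (1 : ℝ)) x * C.indicator (fun _ => (1 : ℝ)) x)
      = (B ∩ C).indicator fun _ => (1 : ℝ) := by
    funext x
    by_cases h1 : x ∈ B <;> by_cases h2 : x ∈ C <;> simp [h1, h2]
  rw [e, integral_indicator_const _ (hB.inter hC), integral_indicator_const _ hB,
    integral_indicator_const _ hC] at h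
  simpa using h

/-- Conditioning on the coordinates in `A`: if for every configuration `x` of `B` the
conditional probabilities of the events `Z i` add up to at least `c`, then
`c P(B) ≤ ∑ P(Z i)`.  No measurable witness is needed. -/
theorem cond {κ : Type*} (A : Set ι) [DecidablePred (· ∈ A)] (B : Set (ι → α))
    (hB : MeasurableSet B) (I : Finset κ) (Z : κ → Set (ι → α))
    (hZ : ∀ i ∈ I, MeasurableSet (Z i)) (c : ℝ)
    (h : ∀ x ∈ B, c ≤ ∑ i ∈ I,
      (Measure.infinitePi fun _ : ι => F).real {y | A.piecewise x y ∈ Z i}) :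
    c * (Measure.infinitePi fun _ : ι => F).real B
      ≤ ∑ i ∈ I, (Measure.infinitePi fun _ : ι => F).real (Z i) := by
  set P := Measure.infinitePi fun _ : ι => F with hP
  have hs : ∀ i ∈ I, MeasurableSet
      ((fun z : (ι → α) × (ι → α) => A.piecewise z.1 z.2) ⁻¹' Z i) :=
    fun i hi => meas_splice A (hZ i hi)
  have hm : ∀ i ∈ I, Measurable fun x => P {y | A.piecewise x y ∈ Z i} :=
    fun i hi => measurable_measure_prodMk_left (hs i hi)
  have hint : ∀ i ∈ I, Integrable (fun x => P.real {y | A.piecewise x y ∈ Z i}) P := by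
    intro i hi
    refine Integrable.of_bound (hm i hi).ennreal_toReal.aestronglyMeasurable 1 ?_
    refine Filter.Eventually.of_forall fun x => ?_
    rw [Real.norm_of_nonneg measureReal_nonneg]
    exact measureReal_le_one
  have e : ∀ i ∈ I, P.real (Z i) = ∫ x, P.real {y | A.piecewise x y ∈ Z i} ∂P := by
    intro i hi
    have h1 : P (Z i) = ∫⁻ x, P {y | A.piecewise x y ∈ Z i} ∂P := by
      rw [← (splice F A).measure_preimage (hZ i hi).nullMeasurableSet,
        Measure.prod_apply (hs i hi)]
      rfl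
    rw [measureReal_def, h1, ← integral_toReal (hm i hi).aemeasurable
      (Filter.Eventually.of_forall fun x => measure_lt_top _ _)]
    rfl
  rw [sum_congr rfl e, ← integral_finsetSum _ hint, mul_comm, ← smul_eq_mul,
    ← integral_indicator_const _ hB]
  refine integral_mono ((integrable_const c).indicator hB) (integrable_finsetSum _ hint) ?_
  intro x
  by_cases hx : x ∈ B
  · simp only [Set.indicator_of_mem hx]
    exact h x hx
  · simp only [Set.indicator_of_notMem hx]
    exact sum_nonneg fun i _ => measureReal_nonneg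

/-- One event: `c P(B) ≤ P(Z)`. -/
theorem cond1 (A : Set ι) [DecidablePred (· ∈ A)] (B Z : Set (ι → α)) (hB : MeasurableSet B)
    (hZ : MeasurableSet Z) (c : ℝ)
    (h : ∀ x ∈ B, c ≤ (Measure.infinitePi fun _ : ι => F).real {y | A.piecewise x y ∈ Z}) :
    c * (Measure.infinitePi fun _ : ι => F).real B
      ≤ (Measure.infinitePi fun _ : ι => F).real Z := by
  have := cond F A B hB ({()} : Finset Unit) (fun _ => Z) (fun _ _ => hZ) c
    (fun x hx => by simpa using h x hx)
  simpa using this

variable [DecidableEq ι]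

/-- A function not depending on the coordinate `e` is orthogonal to a centred indicator of it. -/
theorem zero (e : ι) (L : Set α) (hL : MeasurableSet L) (G : (ι → α) → ℝ) (hG : Measurable G)
    (hd : ∀ x t, G (Function.update x e t) = G x) :
    ∫ x, G x * (F.real L - L.indicator (fun _ => (1 : ℝ)) (x e))
      ∂(Measure.infinitePi fun _ : ι => F) = 0 := by
  have m1 : Measurable fun t : α => F.real L - L.indicator (fun _ => (1 : ℝ)) t :=
    measurable_const.sub (measurable_const.indicator hL)
  have h := indep F ({e}ᶜ) G (fun x => F.real L - L.indicator (fun _ => (1 : ℝ)) (x e)) hG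
    (m1.comp (measurable_pi_apply e))
    (fun x y hxy => by
      have : x = Function.update y e (x e) := by
        funext i
        by_cases hi : i = e
        · subst hi
          rw [Function.update_self]
        · rw [Function.update_of_ne hi]
          exact hxy i hi
      rw [this, hd])
    (fun x y hxy => by
      have : x e = y e := hxy e (by simp)
      simp only [this])
  have hp := measurePreserving_eval_infinitePi (fun _ : ι => F) e
  have h2 : ∫ x, (F.real L - L.indicator (fun _ => (1 : ℝ)) (x e))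
      ∂(Measure.infinitePi fun _ : ι => F)
      = ∫ t, (F.real L - L.indicator (fun _ => (1 : ℝ)) t) ∂F := by
    have h3 := integral_map (μ := Measure.infinitePi fun _ : ι => F)
      hp.measurable.aemeasurable (m1.aestronglyMeasurable)
    rw [hp.map_eq] at h3
    exact h3.symm
  rw [h, h2, integral_sub (integrable_const _) ((integrable_const _).indicator hL),
    integral_indicator_const _ hL]
  simp

/-- The martingale bound on the product space. -/
theorem martP {κ : Type*} (L : Set α) (hL : MeasurableSet L) (lo : α) (I : Finset κ) (e : κ → ι)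
    (C E : κ → Set (ι → α)) (hC : ∀ i ∈ I, MeasurableSet (C i))
    (hE : ∀ i ∈ I, MeasurableSet (E i))
    (own : ∀ i ∈ I, ∀ x t, Function.update x (e i) t ∈ C i ↔ x ∈ C i)
    (ord : ∀ i ∈ I, ∀ k ∈ I, i ≠ k → e i ≠ e k ∧
      ((∀ x t, Function.update x (e k) t ∈ C i ↔ x ∈ C i) ∨
        ∀ x t, Function.update x (e i) t ∈ C k ↔ x ∈ C k))
    (T : (ι → α) → ℝ) (hT : Measurable T) (M : ℝ) (hM : ∀ x, |T x| ≤ M)
    (up : ∀ i ∈ I, ∀ x, x (e i) ∈ L → T x ≤ T (Function.update x (e i) lo))
    (dn : ∀ i ∈ I, ∀ x, x (e i) ∉ L → T (Function.update x (e i) lo) ≤ T x)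
    (c : ℝ) (hc : 0 ≤ c)
    (gain : ∀ i ∈ I, ∀ x ∈ E i, x ∈ C i ∧ x (e i) ∉ L ∧
      T (Function.update x (e i) lo) + c ≤ T x) :
    (F.real L * c * ∑ i ∈ I, (Measure.infinitePi fun _ : ι => F).real (E i)) ^ 2
      ≤ variance T (Measure.infinitePi fun _ : ι => F)
        * ∑ i ∈ I, (Measure.infinitePi fun _ : ι => F).real (C i) := by
  classical
  set P := Measure.infinitePi fun _ : ι => F with hP
  set q := F.real L with hq
  have q0 : 0 ≤ q := measureReal_nonneg
  have q1 : q ≤ 1 := measureReal_le_one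
  set χ : κ → (ι → α) → ℝ := fun i => (C i).indicator fun _ => (1 : ℝ) with hχ
  set ψ : κ → (ι → α) → ℝ := fun i x => q - L.indicator (fun _ => (1 : ℝ)) (x (e i)) with hψ
  have mχ : ∀ i ∈ I, Measurable (χ i) := fun i hi => measurable_const.indicator (hC i hi)
  have mψ : ∀ i, Measurable (ψ i) := fun i =>
    measurable_const.sub ((measurable_const.indicator hL).comp (measurable_pi_apply (e i)))
  have bψ : ∀ i x, |ψ i x| ≤ 1 := by
    intro i x
    by_cases h : x (e i) ∈ L
    · simp only [hψ, Set.indicator_of_mem h]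
      rw [abs_le]
      constructor <;> linarith
    · simp only [hψ, Set.indicator_of_notMem h]
      rw [abs_le]
      constructor <;> linarith
  have χup : ∀ i k, (∀ x t, Function.update x (e k) t ∈ C i ↔ x ∈ C i) →
      ∀ x t, χ i (Function.update x (e k) t) = χ i x := by
    intro i k h x t
    simp only [hχ, Set.indicator_apply, h x t]
  have ψup : ∀ i k, e i ≠ e k → ∀ x t, ψ i (Function.update x (e k) t) = ψ i x := by
    intro i k h x t
    simp only [hψ, Function.update_of_ne h]
  have lp : ∀ f : (ι → α) → ℝ, Measurable f → ∀ b : ℝ, (∀ x, |f x| ≤ b) → MemLp f 2 P :=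
    fun f hf b hb => MemLp.of_bound hf.aestronglyMeasurable b (Filter.Eventually.of_forall hb)
  have mU : ∀ i, Measurable fun x : ι → α => T (Function.update x (e i) lo) :=
    fun i => hT.comp measurable_update_left
  have half : ∀ i ∈ I, ∀ k ∈ I, e i ≠ e k →
      (∀ x t, Function.update x (e k) t ∈ C i ↔ x ∈ C i) →
      ∫ x, (χ i x * ψ i x) * (χ k x * ψ k x) ∂P = 0 := by
    intro i hi k hk hne h
    have := zero F (e k) L hL (fun x => χ i x * ψ i x * χ k x)
      (((mχ i hi).mul (mψ i)).mul (mχ k hk))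
      (fun x t => by simp only [χup i k h, ψup i k hne, χup k k (own k hk)])
    rw [← this]
    refine integral_congr_ae (Filter.Eventually.of_forall fun x => ?_)
    simp only [hψ]
    ring
  refine mart' I T (lp T hT M hM) (fun i x => χ i x * ψ i x) ?_ ?_ ?_ _ ?_
    (fun i x => T (Function.update x (e i) lo)) (fun i _ => lp _ (mU i) M fun x => hM _) ?_
    (q * c) (mul_nonneg q0 hc) E hE ?_ ?_
  · intro i hi
    refine lp _ ((mχ i hi).mul (mψ i)) 1 fun x => ?_
    by_cases h : x ∈ C i
    · simp only [hχ, Set.indicator_of_mem h, one_mul]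
      exact bψ i x
    · simp [hχ, Set.indicator_of_notMem h]
  · intro i hi
    exact zero F (e i) L hL (χ i) (mχ i hi) (χup i i (own i hi))
  · intro i hi k hk hne
    obtain ⟨h1, h2 | h2⟩ := ord i hi k hk hne
    · exact half i hi k hk h1 h2
    · rw [← half k hk i hi h1.symm h2]
      refine integral_congr_ae (Filter.Eventually.of_forall fun x => ?_)
      simp only []
      ring
  · intro i hi
    have e1 : P.real (C i) = ∫ x, χ i x ∂P := by
      simp only [hχ]
      rw [integral_indicator_const _ (hC i hi), smul_eq_mul, mul_one]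
    rw [e1]
    refine integral_mono_of_nonneg (Filter.Eventually.of_forall fun x => sq_nonneg _)
      ((integrable_const _).indicator (hC i hi)) (Filter.Eventually.of_forall fun x => ?_)
    by_cases h : x ∈ C i
    · simp only [hχ, Set.indicator_of_mem h, one_mul]
      exact (sq_le_one_iff_abs_le_one _).mpr (bψ i x)
    · simp [hχ, Set.indicator_of_notMem h]
  · intro i hi
    have := zero F (e i) L hL (fun x => T (Function.update x (e i) lo) * χ i x)
      ((mU i).mul (mχ i hi))
      (fun x t => by simp only [Function.update_idem, χup i i (own i hi)])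
    rw [← this]
    refine integral_congr_ae (Filter.Eventually.of_forall fun x => ?_)
    simp only [hψ]
    ring
  · intro i hi
    refine Filter.Eventually.of_forall fun x => ?_
    by_cases h : x ∈ C i
    · by_cases h' : x (e i) ∈ L
      · simp only [hχ, hψ, Set.indicator_of_mem h, Set.indicator_of_mem h', one_mul]
        exact mul_nonneg_of_nonpos_of_nonpos (by linarith [up i hi x h']) (by linarith)
      · simp only [hχ, hψ, Set.indicator_of_mem h, Set.indicator_of_notMem h', one_mul, sub_zero]
        exact mul_nonneg (by linarith [dn i hi x h']) q0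
    · simp [hχ, Set.indicator_of_notMem h]
  · intro i hi
    refine Filter.Eventually.of_forall fun x hx => ?_
    obtain ⟨h, h', hg⟩ := gain i hi x hx
    simp only [hχ, hψ, Set.indicator_of_mem h, Set.indicator_of_notMem h', one_mul, sub_zero]
    rw [mul_comm q c]
    exact mul_le_mul_of_nonneg_right (by linarith) q0

end Pool.Agent.Lib.V3.M95
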