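import Pool.Agent.Lib.V3.Prob
import Pool.Agent.Lib.V3.MartK95

/-! Row MART: the martingale bound. -/

namespace Pool.Agent.Lib.V3

open MeasureTheory ProbabilityTheory Function Finset
open scoped NNReal ENNReal

namespace MART

lemma upd {j : ℤ} {C : Set Cfg} (h : Dep (Lo j) C) {y : V} (hy : j ≤ y 0) (τ : Cfg) (t : ℝ≥0) :
    update τ (ed y) t ∈ C ↔ τ ∈ C := by
  have key : ∀ e ∈ Lo j, update τ (ed y) t e = τ e := fun e he =>
    update_of_ne (fun h' : e = ed y => ed_notMem_Lo hy (by rw [← h']; exact he)) _ _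
  exact ⟨h _ _ key, h _ _ fun e he => (key e he).symm⟩

lemma dn (τ : Cfg) (e : Sym2 V) {t : ℝ≥0} (h : t ≤ τ e) : update τ e t ≤ τ := fun e' => by
  by_cases he : e' = e
  · rw [he, update_self]; exact h
  · rw [update_of_ne he]

lemma up (τ : Cfg) (e : Sym2 V) {t : ℝ≥0} (h : τ e ≤ t) : τ ≤ update τ e t := fun e' => by
  by_cases he : e' = e
  · rw [he, update_self]; exact h
  · rw [update_of_ne he]

lemma meas_E (p : Par) (x : V) (j : ℤ) (y : V) {C : Set Cfg} (hC : MeasurableSet C) :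
    MeasurableSet {τ : Cfg | τ ∈ C ∧ p.Cross x j τ y ∧ p.hi < τ (ed y)} := by
  have h1 : MeasurableSet {τ : Cfg | p.Cross x j τ y} :=
    measurableSet_le (((p.TA_meas _ _ _).add
      (p.w_meas.comp (measurable_pi_apply (ed y)))).add (p.T_meas _ _)) (p.T_meas _ _)
  have h0 : Measurable fun τ : Cfg => τ (ed y) := measurable_pi_apply (ed y)
  have h2 : MeasurableSet {τ : Cfg | p.hi < τ (ed y)} := h0 (measurableSet_Ioi (a := p.hi))
  exact hC.inter (h1.inter h2)

end MART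

open MART in
theorem bMART : St_MART := by
  classical
  intro p x J W C h
  obtain ⟨hm, M, hM⟩ := p.T_nice 0 x
  have lh : p.lo < p.hi := by exact_mod_cast p.lo_lt_hi
  have key := M95.martP p.F (Set.Iic p.lo) measurableSet_Iic p.lo (J.sigma W)
    (fun i => ed i.2) (fun i => C i.1 i.2)
    (fun i => {τ : Cfg | τ ∈ C i.1 i.2 ∧ p.Cross x i.1 τ i.2 ∧ p.hi < τ (ed i.2)})
    (fun i hi => (h _ (mem_sigma.1 hi).1 _ (mem_sigma.1 hi).2).2.1)
    (fun i hi => meas_E p x _ _ (h _ (mem_sigma.1 hi).1 _ (mem_sigma.1 hi).2).2.1)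
    (fun i hi => by
      obtain ⟨a, -, c⟩ := h _ (mem_sigma.1 hi).1 _ (mem_sigma.1 hi).2
      exact upd c a.ge)
    (fun i hi k hk hne => by
      obtain ⟨a, -, c⟩ := h _ (mem_sigma.1 hi).1 _ (mem_sigma.1 hi).2
      obtain ⟨a', -, c'⟩ := h _ (mem_sigma.1 hk).1 _ (mem_sigma.1 hk).2
      refine ⟨fun he => hne ?_, ?_⟩
      · have h2 : i.2 = k.2 := ed_inj he
        have h1 : i.1 = k.1 := by rw [h2] at a; omega
        exact Sigma.ext h1 (heq_of_eq h2)
      · rcases le_total i.1 k.1 with hl | hl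
        · exact Or.inl (upd c (by omega))
        · exact Or.inr (upd c' (by omega)))
    (fun τ => p.T τ 0 x) hm M hM
    (fun i _ τ hτ => p.T_mono 0 x (up τ _ hτ))
    (fun i _ τ hτ => p.T_mono 0 x (dn τ _ (not_le.1 hτ).le))
    (p.hi - p.lo) (sub_nonneg.2 p.lo_lt_hi.le)
    (fun i _ τ ⟨h1, h2, h3⟩ => ⟨h1, not_le.2 (lh.trans h3), by
      have hd := dn τ (ed i.2) (lh.trans h3).le
      have a1 := p.T_mono 0 i.2 hd
      have a2 := p.T_mono (i.2 + e0) x hd
      have a3 := p.T_ed (update τ (ed i.2) p.lo) i.2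
      rw [update_self, p.w_lo] at a3
      have a4 := p.T_tri (update τ (ed i.2) p.lo) 0 i.2 (i.2 + e0)
      have a5 := p.T_tri (update τ (ed i.2) p.lo) 0 (i.2 + e0) x
      have a6 := p.T_le_TA (Lo i.1) τ 0 i.2
      have a7 := p.w_mono h3.le
      rw [p.w_hi] at a7
      unfold Par.Cross at h2
      simp only at a1 a2 ⊢
      linarith⟩)
  rw [sum_sigma, sum_sigma] at key
  refine le_trans (pow_le_pow_left₀
    (mul_nonneg p.c1_pos.le (sum_nonneg fun _ _ => p.pr_nonneg _))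
    (mul_le_mul_of_nonneg_left (sum_le_sum fun j _ => ?_) p.c1_pos.le) 2) key
  refine le_trans (p.pr_mono fun τ ⟨y, hy, hτ⟩ => ?_) (p.pr_biUnion_le (W j) _)
  exact Set.mem_biUnion hy hτ

end Pool.Agent.Lib.V3
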