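import Pool.Agent.Lib.V3.Base

/-! Conditioning on a set of weights, independence, averaging. -/

namespace Pool.Agent.Lib.V3

open MeasureTheory ProbabilityTheory Filter Topology Function Finset SimpleGraph
  Pool.Agent.Lib.MP_eba68f_pr
open scoped NNReal ENNReal

namespace Par

variable (p : Par)

lemma map_spl (A : Set (Sym2 V)) :
    (p.P.prod p.P).map (fun z : Cfg × Cfg => spl A z.1 z.2) = p.P := by
  classical
  unfold P
  apply Measure.eq_infinitePi
  intro s t ht
  have e : (fun z : Cfg × Cfg => spl A z.1 z.2) ⁻¹' Set.pi s t =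
      (Set.pi (s.filter (· ∈ A)) t) ×ˢ (Set.pi (s.filter (· ∉ A)) t) := by
    ext z
    simp only [Set.mem_preimage, Set.mem_pi, Finset.mem_coe, Finset.mem_filter, Set.mem_prod]
    constructor
    · intro h
      exact ⟨fun i hi => spl_mem z.1 z.2 hi.2 ▸ h i hi.1,
        fun i hi => spl_notMem z.1 z.2 hi.2 ▸ h i hi.1⟩
    · rintro ⟨h1, h2⟩ i hi
      by_cases hA : i ∈ A
      · rw [spl_mem _ _ hA]; exact h1 i ⟨hi, hA⟩
      · rw [spl_notMem _ _ hA]; exact h2 i ⟨hi, hA⟩
  rw [Measure.map_apply (meas_spl A) (MeasurableSet.pi s.countable_toSet fun i _ => ht i), e,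
    Measure.prod_prod, Measure.infinitePi_pi _ fun i _ => ht i,
    Measure.infinitePi_pi _ fun i _ => ht i, Finset.prod_filter_mul_prod_filter_not]

lemma int_prod_spl (A : Set (Sym2 V)) {f : Cfg → ℝ} (hf : Nice f) :
    Integrable (fun z : Cfg × Cfg => f (spl A z.1 z.2)) (p.P.prod p.P) := by
  obtain ⟨hm, C, hC⟩ := hf
  exact Integrable.of_bound (hm.comp (meas_spl A)).aestronglyMeasurable C
    (ae_of_all _ fun z => hC _)

/-- Fubini along a set of weights -/
lemma int_spl (A : Set (Sym2 V)) {f : Cfg → ℝ} (hf : Nice f) :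
    ∫ τ, f τ ∂p.P = ∫ τ, ∫ τ', f (spl A τ τ') ∂p.P ∂p.P := by
  rw [← integral_prod _ (p.int_prod_spl A hf),
    ← integral_map (meas_spl A).aemeasurable hf.1.aestronglyMeasurable, map_spl]

/-- independence of functions of disjoint sets of weights -/
lemma int_mul (A : Set (Sym2 V)) {f g : Cfg → ℝ} (hf : Nice f) (hg : Nice g)
    (df : ∀ τ τ' : Cfg, (∀ e ∈ A, τ e = τ' e) → f τ = f τ')
    (dg : ∀ τ τ' : Cfg, (∀ e, e ∉ A → τ e = τ' e) → g τ = g τ') :
    ∫ τ, f τ * g τ ∂p.P = (∫ τ, f τ ∂p.P) * ∫ τ, g τ ∂p.P := by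
  rw [p.int_spl A (hf.mul hg)]
  have : ∀ τ τ' : Cfg, f (spl A τ τ') * g (spl A τ τ') = f τ * g τ' := fun τ τ' => by
    rw [df (spl A τ τ') τ fun e he => spl_mem _ _ he,
      dg (spl A τ τ') τ' fun e he => spl_notMem _ _ he]
  simp only [this, integral_const_mul, integral_mul_const]

lemma pr_inter (A : Set (Sym2 V)) {B C : Set Cfg} (hB : MeasurableSet B) (hC : MeasurableSet C)
    (dB : Dep A B) (dC : Dep Aᶜ C) : p.pr (B ∩ C) = p.pr B * p.pr C := by
  have key : ∀ {A : Set (Sym2 V)} {B : Set Cfg}, Dep A B → ∀ τ τ' : Cfg, (∀ e ∈ A, τ e = τ' e) →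
      B.indicator (fun _ => (1 : ℝ)) τ = B.indicator (fun _ => (1 : ℝ)) τ' := by
    intro A B d τ τ' h
    by_cases hτ : τ ∈ B
    · simp [hτ, d τ τ' h hτ]
    · have : τ' ∉ B := fun h' => hτ (d τ' τ (fun e he => (h e he).symm) h')
      simp [hτ, this]
  rw [← p.int_ind hB, ← p.int_ind hC, ← p.int_ind (hB.inter hC),
    ← p.int_mul A (Nice.ind hB) (Nice.ind hC) (key dB) (key dC)]
  congr 1
  funext τ
  by_cases h1 : τ ∈ B <;> by_cases h2 : τ ∈ C <;> simp [h1, h2]

/-- conditioning on the weights in `A`; the set `B` need not be measurable -/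
lemma cond (A : Set (Sym2 V)) {f : Cfg → ℝ} (hf : Nice f) (h0 : ∀ τ, 0 ≤ f τ) (B : Set Cfg)
    {c : ℝ} (hc : 0 ≤ c) (h : ∀ τ ∈ B, c ≤ ∫ τ', f (spl A τ τ') ∂p.P) :
    c * p.pr B ≤ ∫ τ, f τ ∂p.P := by
  rw [p.int_spl A hf]
  refine le_trans (mul_le_mul_of_nonneg_left (p.pr_mono (B := {τ | c ≤ ∫ τ', f (spl A τ τ') ∂p.P})
    h) hc) ?_
  exact mul_meas_ge_le_integral_of_nonneg
    (ae_of_all _ fun τ => integral_nonneg fun τ' => h0 _)
    (p.int_prod_spl A hf).integral_prod_left c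

/-- averaging a pointwise inequality; the sets need not be measurable -/
lemma avg {ι : Type} (s : Finset ι) (a : ι → ℝ) (B : ι → Set Cfg) (c : ℝ)
    (ha : ∀ i ∈ s, 0 ≤ a i) (h : ∀ τ, c ≤ ∑ i ∈ s, (B i).indicator (fun _ => a i) τ) :
    c ≤ ∑ i ∈ s, a i * p.pr (B i) := by
  have hm : ∀ i, MeasurableSet (toMeasurable p.P (B i)) := fun i => measurableSet_toMeasurable _ _
  have hn : ∀ i ∈ s, Nice fun τ => a i * (toMeasurable p.P (B i)).indicator (fun _ => (1 : ℝ)) τ :=
    fun i _ => (Nice.const _).mul (Nice.ind (hm i))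
  have := integral_mono ((Nice.const c).int p.P) ((Nice.sum s hn).int p.P) fun τ =>
    (h τ).trans (sum_le_sum fun i hi => by
      by_cases hτ : τ ∈ B i
      · simp [hτ, subset_toMeasurable p.P (B i) hτ]
      · rw [Set.indicator_of_notMem hτ]
        exact mul_nonneg (ha i hi) (Set.indicator_nonneg (fun _ _ => zero_le_one) _))
  rw [integral_finsetSum _ fun i hi => (hn i hi).int _] at this
  simp only [integral_const, probReal_univ, smul_eq_mul, one_mul, integral_const_mul,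
    p.int_ind (hm _)] at this
  refine this.trans_eq (sum_congr rfl fun i _ => ?_)
  simp only [pr, Measure.real, measure_toMeasurable]

/-- law of one weight -/
lemma pr_eval (e : Sym2 V) {s : Set ℝ≥0} (hs : MeasurableSet s) :
    p.pr {τ | τ e ∈ s} = p.F.real s :=
  congrArg ENNReal.toReal ((measurePreserving_eval_infinitePi (fun _ : Sym2 V => p.F)
    e).measure_preimage hs.nullMeasurableSet)

/-- cylinder sets -/
lemma pr_all (E : Finset (Sym2 V)) {s : Set ℝ≥0} (hs : MeasurableSet s) :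
    p.pr {τ | ∀ e ∈ E, τ e ∈ s} = p.F.real s ^ E.card := by
  have := Measure.infinitePi_pi (fun _ : Sym2 V => p.F) (s := E) (t := fun _ => s) fun _ _ => hs
  rw [Finset.prod_const] at this
  unfold pr P Measure.real
  rw [← ENNReal.toReal_pow, ← this]
  rfl

lemma pr_compl {B : Set Cfg} (hB : MeasurableSet B) : p.pr Bᶜ = 1 - p.pr B :=
  probReal_compl_eq_one_sub hB

lemma one_le_pr_add (B : Set Cfg) : 1 ≤ p.pr B + p.pr Bᶜ := by
  rw [← p.pr_univ, ← Set.union_compl_self B]
  exact p.pr_union_le _ _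

end Par

end Pool.Agent.Lib.V3
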