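import Pool.Agent.Lib.V3.Prob

/-! Row CHAIN: descent through the scales. -/

namespace Pool.Agent.Lib.V3

theorem bCHAIN : St_CHAIN := by
  intro Q B β₀ n₀ hB hβ mono step start
  refine ⟨5 * B + 1, by positivity, fun N => ?_⟩
  obtain ⟨k, hk⟩ := exists_nat_ge (((5 * B + 1) / β₀) ^ 2)
  obtain ⟨a, a1, a2, a3, a4⟩ : ∃ a : ℕ, 3 * N ≤ a ∧ n₀ ≤ a ∧ k ≤ a ∧ 0 < a :=
    ⟨3 * N + n₀ + k + 1, by omega, by omega, by omega, by omega⟩
  have sa : 0 < √(a : ℝ) := Real.sqrt_pos.2 (by exact_mod_cast a4)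
  have hb : 1 / √(a : ℝ) + 5 * B / √(a : ℝ) ≤ β₀ := by
    have h : (5 * B + 1) / β₀ ≤ √(a : ℝ) :=
      Real.le_sqrt_of_sq_le (hk.trans (by exact_mod_cast a3))
    rw [div_le_iff₀ hβ] at h
    rw [← add_div, div_le_iff₀ sa]
    linarith
  have key : ∀ n : ℕ, a ≤ n → Q n (1 / √(a : ℝ) + 5 * B / √(n : ℝ)) →
      ∃ m : ℕ, a ≤ 3 * m ∧ m < a ∧ Q m (1 / √(a : ℝ) + 5 * B / √(m : ℝ)) := by
    intro n
    induction n using Nat.strong_induction_on with
    | _ n ih =>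
      intro hn hQ
      have sn : √(a : ℝ) ≤ √(n : ℝ) := Real.sqrt_le_sqrt (by exact_mod_cast hn)
      have h1 : 5 * B / √(n : ℝ) ≤ 5 * B / √(a : ℝ) :=
        div_le_div_of_nonneg_left (by positivity) sa sn
      obtain ⟨m, m1, m2, hm⟩ := step n _ (a2.trans hn) (by positivity) (by linarith) hQ
      have sm : 0 < √(m : ℝ) := Real.sqrt_pos.2 (by exact_mod_cast (by omega : 0 < m))
      have h2 : 6 * √(m : ℝ) ≤ 5 * √(n : ℝ) := by
        have h : (3 * m : ℝ) ≤ 2 * n := by exact_mod_cast m2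
        have h0 : (0 : ℝ) ≤ n := Nat.cast_nonneg n
        refine (sq_le_sq₀ (by positivity) (by positivity)).1 ?_
        rw [mul_pow, mul_pow, Real.sq_sqrt (Nat.cast_nonneg m), Real.sq_sqrt h0]
        linarith
      have h3 : 5 * B / √(n : ℝ) + B / √(n : ℝ) ≤ 5 * B / √(m : ℝ) := by
        rw [← add_div, div_le_div_iff₀ (sa.trans_le sn) sm]
        linarith [mul_le_mul_of_nonneg_left h2 hB]
      have hq := mono m _ (1 / √(a : ℝ) + 5 * B / √(m : ℝ)) (by positivity) (by linarith) hm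
      by_cases c : m < a
      · exact ⟨m, by omega, c, hq⟩
      · exact ih m (by omega) (not_lt.1 c) hq
  obtain ⟨n, hn, hQ⟩ := start (1 / √(a : ℝ)) (by positivity) a
  obtain ⟨m, m1, m2, hm⟩ := key n hn
    (mono n _ _ (by positivity) (le_add_of_nonneg_right (by positivity)) hQ)
  have sm : 0 < √(m : ℝ) := Real.sqrt_pos.2 (by exact_mod_cast (by omega : 0 < m))
  have h4 : 1 / √(a : ℝ) ≤ 1 / √(m : ℝ) :=
    one_div_le_one_div_of_le sm (Real.sqrt_le_sqrt (by exact_mod_cast m2.le))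
  refine ⟨m, by omega, mono m _ _ (by positivity) ?_ hm⟩
  rw [add_div]
  linarith

end Pool.Agent.Lib.V3
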