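import Pool.Agent.Lib.V3.Prob

/-! Block GEO: existence of a supporting functional with a curvature bound. -/

namespace Pool.Agent.Lib.V3

open Filter Topology

namespace GEO

lemma exists_theta {ι : Type} (K : Set ι) (hK : K.Nonempty) (φ s1 s2 : ι → ℝ) (R : ℝ)
    (h0 : ∀ z ∈ K, 0 ≤ φ z) (h1 : ∀ z ∈ K, |s1 z| ≤ R) (h2 : ∀ z ∈ K, |s2 z| ≤ R) :
    ∃ I θ1 θ2 : ℝ, (∀ z ∈ K, I ≤ φ z) ∧ |θ1| ≤ R ∧ |θ2| ≤ R ∧
      ∀ δ : ℝ, 0 < δ → ∃ z ∈ K, φ z ≤ I + δ ∧ |s1 z - θ1| ≤ δ ∧ |s2 z - θ2| ≤ δ := by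
  have hne : (φ '' K).Nonempty := hK.image φ
  have hbd : BddBelow (φ '' K) := ⟨0, by rintro _ ⟨z, hz, rfl⟩; exact h0 z hz⟩
  have hex : ∀ k : ℕ, ∃ z ∈ K, φ z < sInf (φ '' K) + 1 / ((k : ℝ) + 1) := fun k => by
    have hk : (0 : ℝ) < 1 / ((k : ℝ) + 1) := by positivity
    obtain ⟨_, ⟨z, hz, rfl⟩, hlt⟩ := exists_lt_of_csInf_lt hne (lt_add_of_pos_right _ hk)
    exact ⟨z, hz, hlt⟩
  choose z hzK hz using hex
  have hc : IsCompact (Set.Icc (-R) R ×ˢ Set.Icc (-R) R) := isCompact_Icc.prod isCompact_Icc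
  obtain ⟨θ, hθ, ψ, hψ, hlim⟩ := hc.tendsto_subseq (x := fun k => (s1 (z k), s2 (z k)))
    fun k => ⟨abs_le.1 (h1 _ (hzK k)), abs_le.1 (h2 _ (hzK k))⟩
  refine ⟨sInf (φ '' K), θ.1, θ.2, fun w hw => csInf_le hbd ⟨w, hw, rfl⟩, abs_le.2 hθ.1,
    abs_le.2 hθ.2, fun δ hδ => ?_⟩
  obtain ⟨N, hN⟩ := Metric.tendsto_atTop.1 hlim δ hδ
  obtain ⟨M, hM⟩ := exists_nat_one_div_lt hδ
  have hd := hN (max N M) (le_max_left _ _)
  rw [Prod.dist_eq, max_lt_iff, Real.dist_eq, Real.dist_eq] at hd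
  refine ⟨z (ψ (max N M)), hzK _, (hz _).le.trans ?_, hd.1.le, hd.2.le⟩
  have hle : (M : ℝ) ≤ (ψ (max N M) : ℝ) := by
    exact_mod_cast (le_max_right N M).trans (hψ.id_le _)
  have : 1 / ((ψ (max N M) : ℝ) + 1) ≤ 1 / ((M : ℝ) + 1) :=
    one_div_le_one_div_of_le (by positivity) (by linarith)
  linarith

lemma sq_le_mul {ε R r s : ℝ} (hε : 0 ≤ ε) (hεR : ε * R ≤ r / 4) (hs : |s| ≤ R) :
    ε * s ^ 2 ≤ r / 4 * |s| := by
  have h1 : s ^ 2 ≤ R * |s| := by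
    rw [← sq_abs, sq]
    exact mul_le_mul_of_nonneg_right hs (abs_nonneg _)
  calc ε * s ^ 2 ≤ ε * (R * |s|) := mul_le_mul_of_nonneg_left h1 hε
    _ = ε * R * |s| := by ring
    _ ≤ r / 4 * |s| := mul_le_mul_of_nonneg_right hεR (abs_nonneg _)

end GEO

theorem bGEO : St_GEO := by
  intro p
  have hr := p.r_pos
  have hb := p.b_pos
  have hR := p.R_pos
  have hrR : p.r * p.R = 4 * (5 * p.b + 2) := by unfold Par.R; field_simp
  obtain ⟨ε, hε0, hε1, hεR⟩ : ∃ ε : ℝ, 0 < ε ∧ ε ≤ 1 ∧ ε * p.R ≤ p.r / 4 := by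
    refine ⟨min 1 (p.r / (4 * p.R)), lt_min one_pos (by positivity), min_le_left _ _, ?_⟩
    calc min 1 (p.r / (4 * p.R)) * p.R ≤ p.r / (4 * p.R) * p.R :=
          mul_le_mul_of_nonneg_right (min_le_right _ _) hR.le
      _ = p.r / 4 := by field_simp
  set K : Set V := {z | 0 < z 0 ∧ |(z 1 : ℝ)| ≤ p.R * z 0 ∧ |(z 2 : ℝ)| ≤ p.R * z 0} with hK
  set s1 : V → ℝ := fun z => (z 1 : ℝ) / z 0 with hs1
  set s2 : V → ℝ := fun z => (z 2 : ℝ) / z 0 with hs2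
  set φ : V → ℝ := fun z => p.h z / z 0 - ε * (s1 z ^ 2 + s2 z ^ 2) with hφ
  have hpos : ∀ z ∈ K, (0 : ℝ) < z 0 := fun z hz => by exact_mod_cast hz.1
  have h1 : ∀ z ∈ K, |s1 z| ≤ p.R := fun z hz => by
    simp only [hs1]
    rw [abs_div, abs_of_pos (hpos z hz), div_le_iff₀ (hpos z hz)]
    exact hz.2.1
  have h2 : ∀ z ∈ K, |s2 z| ≤ p.R := fun z hz => by
    simp only [hs2]
    rw [abs_div, abs_of_pos (hpos z hz), div_le_iff₀ (hpos z hz)]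
    exact hz.2.2
  have hlow : ∀ z ∈ K, p.r + 3 * p.r / 4 * (|s1 z| + |s2 z|) ≤ φ z := fun z hz => by
    have hz0 := hpos z hz
    have a1 := GEO.sq_le_mul hε0.le hεR (h1 z hz)
    have a2 := GEO.sq_le_mul hε0.le hεR (h2 z hz)
    have a3 : p.r * (1 + |s1 z| + |s2 z|) ≤ p.h z / z 0 := by
      rw [le_div_iff₀ hz0]
      refine le_trans (le_of_eq ?_) (p.h_ge z)
      simp only [hs1, hs2, n1, abs_div, abs_of_pos hz0]
      field_simp
    simp only [hφ]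
    linarith
  have he0 : e0 ∈ K := by
    refine ⟨by simp, ?_, ?_⟩ <;> simp [hR.le]
  obtain ⟨I, θ1, θ2, hI, hθ1, hθ2, hap⟩ := GEO.exists_theta K ⟨e0, he0⟩ φ s1 s2 p.R
    (fun z hz => le_trans (by positivity) (hlow z hz)) h1 h2
  set d : Dat := ⟨I - ε * (θ1 ^ 2 + θ2 ^ 2), 2 * ε * θ1, 2 * ε * θ2, θ1, θ2, ε⟩ with hd
  have hid : ∀ z ∈ K, p.g d z =
      z 0 * (φ z - I + ε * ((s1 z - θ1) ^ 2 + (s2 z - θ2) ^ 2)) := fun z hz => by
    have hz0 := (hpos z hz).ne'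
    simp only [Par.g, Dat.ρ, hd, hφ, hs1, hs2]
    field_simp
    ring
  have heta : ∀ z ∈ K, d.eta z = (z 0 : ℝ) ^ 2 * ((s1 z - θ1) ^ 2 + (s2 z - θ2) ^ 2) :=
    fun z hz => by
      have hz0 := (hpos z hz).ne'
      simp only [Dat.eta, hd, hs1, hs2]
      field_simp
  have hl : ∀ θ : ℝ, |θ| ≤ p.R → |2 * ε * θ| ≤ p.r / 2 := fun θ hθ => by
    rw [abs_mul, abs_of_pos (by positivity : (0 : ℝ) < 2 * ε)]
    have := mul_le_mul_of_nonneg_left hθ hε0.le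
    linarith
  have hIb : I ≤ p.b := by
    have a1 := hI e0 he0
    have a2 := p.h_le e0
    simp [hφ, hs1, hs2] at a1 a2
    linarith
  have hρb : I - ε * (θ1 ^ 2 + θ2 ^ 2) ≤ p.b := by
    have : 0 ≤ ε * (θ1 ^ 2 + θ2 ^ 2) := by positivity
    linarith
  have hρ0 : 0 ≤ I - ε * (θ1 ^ 2 + θ2 ^ 2) := by
    obtain ⟨z, hz, a1, a2, a3⟩ := hap (min (p.r / 2) (1 / 3)) (lt_min (by positivity) (by norm_num))
    have a4 := hlow z hz
    have a5 := GEO.sq_le_mul hε0.le hεR hθ1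
    have a6 := GEO.sq_le_mul hε0.le hεR hθ2
    have a7 := abs_sub_abs_le_abs_sub θ1 (s1 z)
    have a8 := abs_sub_abs_le_abs_sub θ2 (s2 z)
    rw [abs_sub_comm] at a7 a8
    have m1 := min_le_left (p.r / 2) (1 / 3)
    have m2 := min_le_right (p.r / 2) (1 / 3)
    have a9 : |θ1| + |θ2| - 2 / 3 ≤ |s1 z| + |s2 z| := by linarith
    have a10 := mul_le_mul_of_nonneg_left a9 (by positivity : 0 ≤ 3 * p.r / 4)
    have a11 : 0 ≤ p.r * (|θ1| + |θ2|) := by positivity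
    linarith
  have hG2 : ∀ z ∈ K, ε * d.eta z ≤ z 0 * p.g d z := fun z hz => by
    rw [hid z hz, heta z hz]
    have a1 : 0 ≤ (z 0 : ℝ) ^ 2 * (φ z - I) := mul_nonneg (sq_nonneg _) (sub_nonneg.2 (hI z hz))
    linarith
  refine ⟨d, hρ0, hρb, hl θ1 hθ1, hl θ2 hθ2, hε0, hε1, hθ1, hθ2, fun z hz => ?_,
    fun z a b c => hG2 z ⟨a, b, c⟩, fun e he N => ?_⟩
  · by_cases hzK : z ∈ K
    · have a1 := hG2 z hzK
      have a2 : 0 ≤ ε * d.eta z := mul_nonneg hε0.le (d.eta_nonneg z)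
      exact nonneg_of_mul_nonneg_right (a2.trans a1) (hpos z hzK) 
    · have hz0 : (0 : ℝ) ≤ z 0 := by exact_mod_cast hz
      have a0 : p.R * z 0 ≤ |(z 1 : ℝ)| + |(z 2 : ℝ)| := by
        by_contra hc
        push Not at hc
        refine hzK ⟨?_, by linarith [abs_nonneg (z 2 : ℝ)], by linarith [abs_nonneg (z 1 : ℝ)]⟩
        rcases hz.eq_or_lt with h | h
        · rw [← h] at hc
          simp only [Int.cast_zero, mul_zero] at hc
          linarith [abs_nonneg (z 1 : ℝ), abs_nonneg (z 2 : ℝ)]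
        · exact h
      have a1 := p.h_ge z
      have a2 : 2 * ε * θ1 * z 1 ≤ p.r / 2 * |(z 1 : ℝ)| :=
        (le_abs_self _).trans (by
          rw [abs_mul]; exact mul_le_mul_of_nonneg_right (hl θ1 hθ1) (abs_nonneg _))
      have a3 : 2 * ε * θ2 * z 2 ≤ p.r / 2 * |(z 2 : ℝ)| :=
        (le_abs_self _).trans (by
          rw [abs_mul]; exact mul_le_mul_of_nonneg_right (hl θ2 hθ2) (abs_nonneg _))
      have a4 := mul_le_mul_of_nonneg_right hρb hz0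
      have a5 := mul_le_mul_of_nonneg_left a0 (by positivity : 0 ≤ p.r / 2)
      have a6 : p.r / 2 * (p.R * z 0) = 2 * (5 * p.b + 2) * z 0 := by
        rw [← mul_assoc, show p.r / 2 * p.R = p.r * p.R / 2 by ring, hrR]; ring
      have a7 : 0 ≤ p.b * z 0 := mul_nonneg hb.le hz0
      have a8 : 0 ≤ p.r * |(z 0 : ℝ)| := by positivity
      simp only [Par.g, Dat.ρ, hd]
      simp only [n1] at a1
      linarith
  · obtain ⟨z, hz, a1, a2, a3⟩ := hap (min (e / 3) 1) (lt_min (by positivity) one_pos)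
    have m1 := min_le_left (e / 3) 1
    have m2 := min_le_right (e / 3) 1
    have hsq : ∀ t : ℝ, |t| ≤ min (e / 3) 1 → ε * t ^ 2 ≤ e / 3 := fun t ht => by
      have b1 : t ^ 2 ≤ |t| := by
        rw [← sq_abs, sq]
        exact mul_le_of_le_one_left (abs_nonneg _) (ht.trans m2)
      have b2 : ε * t ^ 2 ≤ t ^ 2 := mul_le_of_le_one_left (sq_nonneg _) hε1
      linarith
    have a4 : p.g d z ≤ e * z 0 := by
      rw [hid z hz, mul_comm e]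
      refine mul_le_mul_of_nonneg_left ?_ (hpos z hz).le
      linarith [hsq _ a2, hsq _ a3]
    refine ⟨N • z, ?_, (Par.g_nsmul d N z).trans ?_⟩
    · have : 1 ≤ z 0 := hz.1
      simp only [Pi.smul_apply, nsmul_eq_mul]
      exact le_mul_of_one_le_right (Int.natCast_nonneg N) this
    · simp only [Pi.smul_apply, nsmul_eq_mul, Int.cast_mul, Int.cast_natCast]
      have := mul_le_mul_of_nonneg_left a4 (Nat.cast_nonneg (α := ℝ) N)
      linarith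

end Pool.Agent.Lib.V3
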