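import Pool.Agent.Lib.V3.Prob

/-! Row HL: lower bound for the mean passage time when light walks are rare. -/

namespace Pool.Agent.Lib.V3

open MeasureTheory ProbabilityTheory Finset SimpleGraph Pool.Agent.Lib.MP_eba68f_pr
open scoped NNReal ENNReal

namespace HL

lemma LW_low (p : Par) (τ : Cfg) (l : List (Sym2 V)) :
    (p.hi : ℝ) * l.length - (p.hi - p.r) * (l.filter fun e => decide (τ e ≤ p.hi)).length ≤
      p.LW τ l := by
  induction l with
  | nil => simp
  | cons a l ih =>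
    by_cases h : τ a ≤ p.hi
    · rw [List.filter_cons_of_pos (by simpa using h)]
      simp only [Par.LW_cons, List.length_cons, Nat.cast_add, Nat.cast_one]
      linarith [p.w_ge (τ a)]
    · rw [List.filter_cons_of_neg (by simpa using h)]
      simp only [Par.LW_cons, List.length_cons, Nat.cast_add, Nat.cast_one]
      have h1 := p.w_mono (not_le.1 h).le
      rw [p.w_hi] at h1
      linarith

lemma ratio_le (p : Par) : p.b / p.r ≤ DD p.r p.b := by
  have h1 := p.r_pos
  have h2 := p.b_pos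
  have h3 : 0 ≤ p.b / p.r * (2 / p.r * (p.b + 1)) := by positivity
  unfold DD
  linarith

lemma T_low (p : Par) (τ : Cfg) (v : V)
    (h : τ ∉ Light p.hi (DD p.r p.b * n1 v) (n1 v / 100)) :
    99 / 100 * ((p.hi - p.r) * n1 v) ≤ p.T τ 0 v - p.r * n1 v := by
  classical
  obtain ⟨q, hq, hT⟩ := p.exists_geo τ 0 v
  have h1 := p.geo_length hT
  have h2 := n1_le_length q
  rw [sub_zero] at h1 h2
  have h3 : (q.length : ℝ) ≤ DD p.r p.b * n1 v :=
    h1.trans (mul_le_mul_of_nonneg_right (ratio_le p) (n1_nonneg v))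
  have h4 : (((q.edges.filter fun e => decide (τ e ≤ p.hi)).length : ℕ) : ℝ) ≤ n1 v / 100 := by
    by_contra hc
    refine h ⟨v, q, h3, (q.edges.filter fun e => decide (τ e ≤ p.hi)).toFinset, fun e he => ?_, ?_⟩
    · simpa using he
    · rw [List.toFinset_card_of_nodup (hq.isTrail.edges_nodup.filter _)]
      exact (not_le.1 hc).le
  have h5 := LW_low p τ q.edges
  rw [hT, Walk.length_edges] at h5
  have h6 : (0 : ℝ) ≤ p.hi - p.r := by linarith [p.r_le_lo, p.lo_lt_hi]
  have h7 := mul_le_mul_of_nonneg_left h4 h6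
  have h8 := mul_le_mul_of_nonneg_left h2 p.hi.coe_nonneg
  linarith

end HL

theorem bHL : St_HL := by
  intro p hR v
  obtain ⟨n, hn⟩ : ∃ n : ℕ, n1 v = n := ⟨_, n1_nat v⟩
  rcases Nat.eq_zero_or_pos n with h0 | h0
  · have := p.h_ge v
    rw [hn, h0] at this ⊢
    simpa using this
  have h1 := hR n h0
  rw [← hn] at h1
  have h2 : (0 : ℝ) < p.hi - p.r := by linarith [p.r_le_lo, p.lo_lt_hi]
  have h3 : 0 < n1 v := by rw [hn]; exact_mod_cast h0
  have h4 : 0 < (p.hi - p.r) * n1 v := mul_pos h2 h3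
  have hN : Nice fun τ => p.T τ 0 v - p.r * n1 v := (p.T_nice 0 v).sub (Nice.const _)
  have h5 := p.markov hN (fun τ => by
    have := p.T_ge τ 0 v
    rw [sub_zero] at this
    linarith) (t := 99 / 100 * ((p.hi - p.r) * n1 v)) (by positivity)
  have h6 : p.pr (Light p.hi (DD p.r p.b * n1 v) (n1 v / 100))ᶜ ≤
      p.pr {τ | 99 / 100 * ((p.hi - p.r) * n1 v) ≤ p.T τ 0 v - p.r * n1 v} :=
    p.pr_mono fun τ hτ => HL.T_low p τ v hτ
  have h7 := p.one_le_pr_add (Light p.hi (DD p.r p.b * n1 v) (n1 v / 100))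
  have h8 : ∫ τ, (p.T τ 0 v - p.r * n1 v) ∂p.P = p.h v - p.r * n1 v := by
    rw [integral_sub ((p.T_nice 0 v).int _) (integrable_const _)]
    simp [Par.h]
  rw [h8, le_div_iff₀ (by positivity)] at h5
  have h9 : 99 / 100 ≤ p.pr {τ | 99 / 100 * ((p.hi - p.r) * n1 v) ≤ p.T τ 0 v - p.r * n1 v} := by
    linarith
  have h10 := mul_le_mul_of_nonneg_right h9
    (by positivity : 0 ≤ 99 / 100 * ((p.hi - p.r) * n1 v))
  linarith

end Pool.Agent.Lib.V3
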