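import Pool.Agent.Lib.V3.Prob

/-! A uniform lower tail bound on a whole plane. -/

namespace Pool.Agent.Lib.V3

open MeasureTheory ProbabilityTheory Filter Topology Function Finset SimpleGraph
  Pool.Agent.Lib.MP_eba68f_pr
open scoped NNReal ENNReal

namespace LOW

/-- the passage time to `z` is unusually small -/
def Bad (p : Par) (d : Dat) (a l : ℝ) (z : V) : Set Cfg :=
  {τ | p.T τ 0 z ≤ p.h z - (a * d.eta z + l)}

noncomputable def idx (n : ℕ) (M : ℤ) : Finset (ℤ × ℤ × ℤ) :=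
  Finset.Icc 1 (6 * (n : ℤ)) ×ˢ (Finset.Icc (-M) M ×ˢ Finset.Icc (-M) M)

/-- number of bad sites in a box -/
noncomputable def cnt (p : Par) (d : Dat) (a l : ℝ) (n : ℕ) (M : ℤ) (τ : Cfg) : ℝ :=
  ∑ t ∈ idx n M, (Bad p d a l (pt t.1 t.2.1 t.2.2)).indicator (fun _ => (1 : ℝ)) τ

lemma bad_meas (p : Par) (d : Dat) (a l : ℝ) (z : V) : MeasurableSet (Bad p d a l z) :=
  measurableSet_le (p.T_meas 0 z) measurable_const

lemma cnt_nice (p : Par) (d : Dat) (a l : ℝ) (n : ℕ) (M : ℤ) : Nice (cnt p d a l n M) :=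
  Nice.sum _ fun _ _ => Nice.ind (bad_meas p d a l _)

lemma cnt_nonneg (p : Par) (d : Dat) (a l : ℝ) (n : ℕ) (M : ℤ) (τ : Cfg) :
    0 ≤ cnt p d a l n M τ :=
  sum_nonneg fun _ _ => Set.indicator_nonneg (fun _ _ => zero_le_one) _

lemma int_cnt (hS : St_SUM) {p : Par} (hV : p.VarB) (d : Dat) {a l : ℝ} (ha : 0 < a)
    (hal : a ≤ l) (n : ℕ) (M : ℤ) :
    ∫ τ, cnt p d a l n M τ ∂p.P ≤ 6 * n * (p.σ ^ 2 * (64 / (a * l))) := by
  unfold cnt
  rw [integral_finsetSum _ fun t _ => (Nice.ind (bad_meas p d a l _)).int _]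
  have h1 : ∀ t ∈ idx n M,
      ∫ τ, (Bad p d a l (pt t.1 t.2.1 t.2.2)).indicator (fun _ => (1 : ℝ)) τ ∂p.P ≤
        p.σ ^ 2 * (1 / (a * (((t.2.1 : ℝ) - t.1 * d.θ1) ^ 2 + ((t.2.2 : ℝ) - t.1 * d.θ2) ^ 2)
          + l) ^ 2) := by
    intro t _
    rw [p.int_ind (bad_meas p d a l _), mul_one_div]
    have hp : 0 < a * d.eta (pt t.1 t.2.1 t.2.2) + l :=
      add_pos_of_nonneg_of_pos (mul_nonneg ha.le (d.eta_nonneg _)) (ha.trans_le hal)
    have h2 := hV.low 0 (pt t.1 t.2.1 t.2.2) hp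
    rw [sub_zero] at h2
    exact h2
  refine (sum_le_sum h1).trans ?_
  unfold idx
  rw [sum_product]
  have h2 : ∀ i ∈ Finset.Icc 1 (6 * (n : ℤ)),
      ∑ m ∈ Finset.Icc (-M) M ×ˢ Finset.Icc (-M) M,
        p.σ ^ 2 * (1 / (a * (((m.1 : ℝ) - i * d.θ1) ^ 2 + ((m.2 : ℝ) - i * d.θ2) ^ 2)
          + l) ^ 2) ≤ p.σ ^ 2 * (64 / (a * l)) := by
    intro i _
    rw [← mul_sum]
    exact mul_le_mul_of_nonneg_left (hS a l _ _ _ ha hal) (sq_nonneg _)
  refine (sum_le_sum h2).trans_eq ?_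
  rw [sum_const, Int.card_Icc, nsmul_eq_mul]
  have h3 : (6 * (n : ℤ) + 1 - 1).toNat = 6 * n := by omega
  rw [h3]
  push_cast
  ring

lemma eta_three (d : Dat) (y v : V) :
    d.eta y ≤ 3 * (d.eta (v + (y + e0)) + d.eta v + (d.θ1 ^ 2 + d.θ2 ^ 2)) := by
  have key : ∀ s t u : ℝ, (s - t + u) ^ 2 ≤ 3 * (s ^ 2 + t ^ 2 + u ^ 2) := fun s t u => by
    nlinarith [sq_nonneg (s + t), sq_nonneg (s - u), sq_nonneg (t + u)]
  have h1 := key ((v 1 : ℝ) + y 1 - (v 0 + (y 0 + 1)) * d.θ1) (v 1 - v 0 * d.θ1) d.θ1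
  have h2 := key ((v 2 : ℝ) + y 2 - (v 0 + (y 0 + 1)) * d.θ2) (v 2 - v 0 * d.θ2) d.θ2
  have e1 : (v 1 : ℝ) + y 1 - (v 0 + (y 0 + 1)) * d.θ1 - (v 1 - v 0 * d.θ1) + d.θ1 =
      y 1 - y 0 * d.θ1 := by ring
  have e2 : (v 2 : ℝ) + y 2 - (v 0 + (y 0 + 1)) * d.θ2 - (v 2 - v 0 * d.θ2) + d.θ2 =
      y 2 - y 0 * d.θ2 := by ring
  rw [e1] at h1
  rw [e2] at h2
  simp only [Dat.eta, Pi.add_apply, e0_zero, e0_one, e0_two, add_zero, Int.cast_add, Int.cast_one]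
  linarith

lemma rR (p : Par) : p.r * p.R = 4 * (5 * p.b + 2) := by
  have := p.r_pos.ne'
  unfold Par.R
  field_simp

/-- a transversal bound places a site in the cone -/
lemma cone (p : Par) {x t n : ℝ} (hx : p.r / 2 * x ≤ (5 * p.b + 2) * n) (ht : n ≤ 2 * t) :
    x ≤ p.R * t := by
  refine le_of_mul_le_mul_left ?_ p.r_pos
  rw [← mul_assoc, rR]
  have := mul_le_mul_of_nonneg_left ht (by linarith [p.b_pos] : 0 ≤ 5 * p.b + 2)
  linarith

lemma arith {ε n k R b C₁ L A B ey ez ev th gz ρ0 : ℝ} (hε : 0 < ε) (hε1 : ε ≤ 1) (hn : 1 ≤ n)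
    (hk : 0 ≤ k) (hb : 0 ≤ b) (hL : 0 ≤ L) (hρ : 0 ≤ ρ0)
    (hA : A ≤ ε / 36 * ey / n - (C₁ + 1 + R ^ 2 + b + L) * (k + 1)) (hB : B ≤ C₁ * (k + 1))
    (h3 : ey ≤ 3 * (ez + ev + th)) (hv : ε * ev ≤ 2 * n * k) (hth : th ≤ 2 * R ^ 2)
    (hz : ε * ez ≤ 6 * n * gz) :
    A + b + B - ρ0 ≤ gz - (ε / (12 * n) * ez + L) := by
  have hn0 : 0 < n := by linarith
  have h1 : ε / 36 * ey / n ≤ ε / (12 * n) * ez + k / 6 + R ^ 2 := by
    rw [div_le_iff₀ hn0]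
    have e : (ε / (12 * n) * ez + k / 6 + R ^ 2) * n = ε * ez / 12 + n * k / 6 + R ^ 2 * n := by
      field_simp
    rw [e]
    have a1 := mul_le_mul_of_nonneg_left h3 hε.le
    have a2 := mul_le_mul_of_nonneg_left hth hε.le
    have a3 := mul_le_mul_of_nonneg_right hε1 (sq_nonneg R)
    have a4 := mul_le_mul_of_nonneg_left hn (sq_nonneg R)
    have a5 := sq_nonneg R
    linarith
  have h2 : 2 * (ε / (12 * n) * ez) ≤ gz := by
    have e : 2 * (ε / (12 * n) * ez) = ε * ez / (6 * n) := by field_simp; ring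
    rw [e, div_le_iff₀ (by linarith)]
    linarith
  have a1 := mul_nonneg (sq_nonneg R) hk
  have a2 := mul_nonneg hb hk
  have a3 := mul_nonneg hL hk
  linarith

/-- the deterministic step: a low site of the plane and a good continuation give a bad site -/
lemma det {p : Par} {d : Dat} (g : p.Good d) {C₁ L k : ℝ} {n : ℕ} {j : ℤ} {y v : V}
    {τ τ' : Cfg} (hC : 0 ≤ C₁) (hL : 0 ≤ L) (hn : 1 ≤ n) (hk : 0 ≤ k) (hkn : k ≤ n)
    (hv1 : (n : ℤ) ≤ 2 * v 0) (hv2 : v 0 ≤ 2 * n) (hv3 : p.g d v ≤ k) (hj : 0 ≤ j)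
    (hj3 : j ≤ 3 * n) (hy : y 0 = j)
    (hA : p.A d j τ y ≤ d.ε / 36 * d.eta y / n - (C₁ + 1 + p.R ^ 2 + p.b + L) * (k + 1))
    (hAn : p.A d j τ y < n) :
    (|((v + (y + e0)) 1 : ℝ)| ≤ p.R * (6 * n) ∧ |((v + (y + e0)) 2 : ℝ)| ≤ p.R * (6 * n)) ∧
    (p.TA (Up 0) (sh (y + e0) τ') 0 v - d.ρ v ≤ C₁ * (p.g d v + 1) →
      spl (Lo j) τ τ' ∈ Bad p d (d.ε / (12 * n)) L (v + (y + e0))) := by
  have hb := p.b_pos
  have hr := p.r_pos
  have hn' : (1 : ℝ) ≤ n := by exact_mod_cast hn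
  have hv1' : (n : ℝ) ≤ 2 * v 0 := by exact_mod_cast hv1
  have hv2' : (v 0 : ℝ) ≤ 2 * n := by exact_mod_cast hv2
  have hy0 : (0 : ℝ) ≤ y 0 := by rw [hy]; exact_mod_cast hj
  have hy3 : (y 0 : ℝ) ≤ 3 * n := by rw [hy]; exact_mod_cast hj3
  have z0 : (v + (y + e0)) 0 = v 0 + (y 0 + 1) := rfl
  have z0' : (((v + (y + e0)) 0 : ℤ) : ℝ) = v 0 + (y 0 + 1) := by rw [z0]; push_cast; ring
  have z1 : (((v + (y + e0)) 1 : ℤ) : ℝ) = v 1 + y 1 := by simp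
  have z2 : (((v + (y + e0)) 2 : ℤ) : ℝ) = v 2 + y 2 := by simp
  have hyb : p.r / 2 * (|(y 1 : ℝ)| + |(y 2 : ℝ)|) ≤ n + p.b * (3 * n) := by
    have h1 := g.T_sub_ρ (spl (Lo j) τ fun _ => p.b.toNNReal) 0 y (by rw [hy]; exact hj)
    rw [sub_zero] at h1
    have h2 : p.T (spl (Lo j) τ fun _ => p.b.toNNReal) 0 y - d.ρ y < n := hAn
    have h3 := mul_le_mul_of_nonneg_left hy3 hb.le
    linarith
  have hvb : p.r / 2 * (|(v 1 : ℝ)| + |(v 2 : ℝ)|) ≤ n + p.b * (2 * n) := by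
    have h1 := g.g_ge v (by omega)
    have h3 := mul_le_mul_of_nonneg_left hv2' hb.le
    linarith
  have hr2 : 0 ≤ p.r / 2 := by linarith
  have m1 := mul_nonneg hr2 (abs_nonneg (y 1 : ℝ))
  have m2 := mul_nonneg hr2 (abs_nonneg (y 2 : ℝ))
  have m3 := mul_nonneg hr2 (abs_nonneg (v 1 : ℝ))
  have m4 := mul_nonneg hr2 (abs_nonneg (v 2 : ℝ))
  have m5 := mul_le_mul_of_nonneg_left (abs_add_le (v 1 : ℝ) (y 1)) hr2
  have m6 := mul_le_mul_of_nonneg_left (abs_add_le (v 2 : ℝ) (y 2)) hr2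
  have m7 := mul_nonneg hb.le (by linarith : (0 : ℝ) ≤ n)
  have cz1 : |((v + (y + e0)) 1 : ℝ)| ≤ p.R * ((v + (y + e0)) 0 : ℤ) := by
    rw [z1, z0']
    exact cone p (n := n) (by linarith) (by linarith)
  have cz2 : |((v + (y + e0)) 2 : ℝ)| ≤ p.R * ((v + (y + e0)) 0 : ℤ) := by
    rw [z2, z0']
    exact cone p (n := n) (by linarith) (by linarith)
  have hz6 : (((v + (y + e0)) 0 : ℤ) : ℝ) ≤ 6 * n := by rw [z0']; linarith
  have hR6 := mul_le_mul_of_nonneg_left hz6 p.R_pos.le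
  refine ⟨⟨cz1.trans hR6, cz2.trans hR6⟩, fun hD => ?_⟩
  have hzp : 0 < (v + (y + e0)) 0 := by rw [z0]; omega
  have G2z := g.G2 _ hzp cz1 cz2
  have G1z := g.G1 _ hzp.le
  have G2v := g.G2 v (by omega) (cone p (n := n) (by linarith) hv1')
    (cone p (n := n) (by linarith) hv1')
  have G1v := g.G1 v (by omega)
  have hv : d.ε * d.eta v ≤ 2 * n * k :=
    G2v.trans (mul_le_mul hv2' hv3 G1v (by linarith))
  have hz : d.ε * d.eta (v + (y + e0)) ≤ 6 * n * p.g d (v + (y + e0)) :=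
    G2z.trans (mul_le_mul_of_nonneg_right hz6 G1z)
  have hth : d.θ1 ^ 2 + d.θ2 ^ 2 ≤ 2 * p.R ^ 2 := by
    have a1 := pow_le_pow_left₀ (abs_nonneg _) g.θ1_le 2
    have a2 := pow_le_pow_left₀ (abs_nonneg _) g.θ2_le 2
    rw [sq_abs] at a1 a2
    linarith
  have hB : p.TA (Up 0) (sh (y + e0) τ') 0 v - d.ρ v ≤ C₁ * (k + 1) :=
    hD.trans (mul_le_mul_of_nonneg_left (by linarith) hC)
  have key := arith g.ε_pos g.ε_le hn' hk hb.le hL g.ρ0_nonneg hA hB (eta_three d y v) hv hth hz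
  have e1 : p.TA (Up 0) (sh (y + e0) τ') 0 v =
      p.TA (Up (j + 1)) (spl (Lo j) τ τ') (y + e0) (v + (y + e0)) := by
    have e : (0 : ℤ) + (y + e0) 0 = j + 1 := by rw [← hy]; simp
    rw [p.TA_sh_Up, e, zero_add]
    exact p.TA_congr (fun e he => (spl_notMem _ _ (notMem_Lo_of_Up he)).symm) _ _
  have e2 : p.A d j τ y = p.TA (Lo j) (spl (Lo j) τ τ') 0 y - d.ρ y :=
    p.A_congr d (fun e he => (spl_mem _ _ he).symm) y
  have t1 := p.T_tri (spl (Lo j) τ τ') 0 (y + e0) (v + (y + e0))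
  have t2 := p.T_tri (spl (Lo j) τ τ') 0 y (y + e0)
  have t3 := (p.T_ed (spl (Lo j) τ τ') y).trans (p.w_le _)
  have t4 := p.T_le_TA (Lo j) (spl (Lo j) τ τ') 0 y
  have t5 := p.T_le_TA (Up (j + 1)) (spl (Lo j) τ τ') (y + e0) (v + (y + e0))
  have e3 : d.ρ (v + (y + e0)) = d.ρ v + (d.ρ y + d.ρ0) := by rw [d.ρ_add, d.ρ_add, d.ρ_e0]
  have e4 : p.g d (v + (y + e0)) = p.h (v + (y + e0)) - d.ρ (v + (y + e0)) := rfl
  show p.T (spl (Lo j) τ τ') 0 (v + (y + e0)) ≤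
    p.h (v + (y + e0)) - (d.ε / (12 * n) * d.eta (v + (y + e0)) + L)
  linarith

lemma pt_self (z : V) : pt (z 0) (z 1) (z 2) = z := vext rfl rfl rfl

/-- sites of the box which are bad are counted -/
lemma le_cnt (p : Par) (d : Dat) (a l : ℝ) (n : ℕ) (M : ℤ) (S : Finset V) (u : V) (τ : Cfg)
    (hS : ∀ v ∈ S, ((v + u) 0, (v + u) 1, (v + u) 2) ∈ idx n M) :
    ∑ v ∈ S, (Bad p d a l (v + u)).indicator (fun _ => (1 : ℝ)) τ ≤ cnt p d a l n M τ := by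
  classical
  have hi : Set.InjOn (fun v : V => ((v + u) 0, (v + u) 1, (v + u) 2)) S := by
    intro v _ w _ h
    simp only [Prod.mk.injEq] at h
    exact add_right_cancel (vext h.1 h.2.1 h.2.2)
  have e := Finset.sum_image (f := fun t : ℤ × ℤ × ℤ =>
    (Bad p d a l (pt t.1 t.2.1 t.2.2)).indicator (fun _ => (1 : ℝ)) τ) hi
  simp only [pt_self] at e
  rw [← e]
  refine sum_le_sum_of_subset_of_nonneg ?_ fun _ _ _ =>
    Set.indicator_nonneg (fun _ _ => zero_le_one) _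
  intro t ht
  obtain ⟨v, hv, rfl⟩ := Finset.mem_image.1 ht
  exact hS v hv

lemma abs_int {x M : ℤ} {c : ℝ} (h : |(x : ℝ)| ≤ c) (hM : c ≤ M) : x ∈ Finset.Icc (-M) M := by
  have : |x| ≤ M := by exact_mod_cast h.trans hM
  exact Finset.mem_Icc.2 (abs_le.1 this)

end LOW

open LOW in
theorem bLOW (hS : St_SUM) : St_LOW := by
  intro p d C₁ g hV hC hH
  have hb := p.b_pos
  have hε := g.ε_pos
  have hcS := p.cS_pos
  obtain ⟨L, hL1, hL2⟩ : ∃ L : ℝ, 1 ≤ L ∧ 921600 * p.σ ^ 2 ≤ d.ε * p.cS * L := by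
    refine ⟨max 1 (921600 * p.σ ^ 2 / (d.ε * p.cS)), le_max_left _ _, ?_⟩
    rw [← div_le_iff₀' (mul_pos hε hcS)]
    exact le_max_right _ _
  have hL : 0 ≤ L := by linarith
  refine ⟨C₁ + 1 + p.R ^ 2 + p.b + L, by positivity, ?_⟩
  intro n k S j hn hk hkn hSv hcard hj hj3
  have hn' : (1 : ℝ) ≤ n := by exact_mod_cast hn
  have ha : 0 < d.ε / (12 * n) := by positivity
  have hal : d.ε / (12 * n) ≤ L := by
    refine le_trans ?_ hL1
    rw [div_le_one (by positivity)]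
    linarith [g.ε_le]
  have hnice := cnt_nice p d (d.ε / (12 * n)) L n ⌈p.R * (6 * n)⌉
  have hcond := p.cond (Lo j) hnice (cnt_nonneg p d _ _ _ _)
    (p.Low d n j ((C₁ + 1 + p.R ^ 2 + p.b + L) * (k + 1))) (c := (S.card : ℝ) / 2)
    (by positivity) (by
      rintro τ ⟨y, hy, hA, hAn⟩
      have hm : ∀ v : V, MeasurableSet {τ' : Cfg | sh (y + e0) τ' ∈
          {τ : Cfg | p.TA (Up 0) τ 0 v - d.ρ v ≤ C₁ * (p.g d v + 1)}} := fun v =>
        meas_sh (y + e0) (measurableSet_le ((p.TA_meas _ _ _).sub_const _) measurable_const)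
      have h1 := integral_mono ((Nice.sum S fun v _ => Nice.ind (hm v)).int p.P)
        ((hnice.comp (meas_spl_right (Lo j) τ)).int p.P) fun τ' => by
          refine le_trans (sum_le_sum fun v hv => ?_) (le_cnt p d _ _ n _ S (y + e0) _ ?_)
          · obtain ⟨h1, h2, h3⟩ := hSv v hv
            have hd := (det g (τ' := τ') hC hL hn hk hkn h1 h2 h3 hj hj3 hy hA hAn).2
            by_cases hτ : τ' ∈ {τ' : Cfg | sh (y + e0) τ' ∈
                {τ : Cfg | p.TA (Up 0) τ 0 v - d.ρ v ≤ C₁ * (p.g d v + 1)}}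
            · rw [Set.indicator_of_mem hτ, Set.indicator_of_mem (hd hτ)]
            · rw [Set.indicator_of_notMem hτ]
              exact Set.indicator_nonneg (fun _ _ => zero_le_one) _
          · intro v hv
            obtain ⟨h1, h2, h3⟩ := hSv v hv
            have hd := (det g (τ' := τ') hC hL hn hk hkn h1 h2 h3 hj hj3 hy hA hAn).1
            have z0 : (v + (y + e0)) 0 = v 0 + (y 0 + 1) := rfl
            refine Finset.mem_product.2 ⟨Finset.mem_Icc.2 ?_, Finset.mem_product.2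
              ⟨abs_int hd.1 (Int.le_ceil _), abs_int hd.2 (Int.le_ceil _)⟩⟩
            show 1 ≤ (v + (y + e0)) 0 ∧ (v + (y + e0)) 0 ≤ 6 * (n : ℤ)
            rw [z0]
            omega
      refine le_trans ?_ h1
      rw [integral_finsetSum _ fun v _ => (Nice.ind (hm v)).int _]
      have h2 : ∀ v ∈ S, (1 / 2 : ℝ) ≤ ∫ τ', {τ' : Cfg | sh (y + e0) τ' ∈
          {τ : Cfg | p.TA (Up 0) τ 0 v - d.ρ v ≤ C₁ * (p.g d v + 1)}}.indicator
            (fun _ => (1 : ℝ)) τ' ∂p.P := by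
        intro v hv
        rw [p.int_ind (hm v), p.pr_sh]
        exact hH v (by have := (hSv v hv).1; omega)
      refine le_trans (le_of_eq ?_) (sum_le_sum h2)
      rw [sum_const, nsmul_eq_mul]
      ring)
  have hup := hcond.trans (int_cnt hS hV d ha hal n _)
  have e : 6 * (n : ℝ) * (p.σ ^ 2 * (64 / (d.ε / (12 * n) * L))) =
      4608 * p.σ ^ 2 * n ^ 2 / (d.ε * L) := by
    field_simp
    ring
  have hεL : 0 < d.ε * L := by positivity
  rw [e, le_div_iff₀ hεL] at hup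
  have hP := p.pr_nonneg (p.Low d n j ((C₁ + 1 + p.R ^ 2 + p.b + L) * (k + 1)))
  generalize p.pr (p.Low d n j ((C₁ + 1 + p.R ^ 2 + p.b + L) * (k + 1))) = P at hup hP ⊢
  have hn2 : 0 < (n : ℝ) ^ 2 := by positivity
  have hσ : 0 < p.σ ^ 2 := pow_pos p.σ_pos 2
  have a1 := mul_le_mul_of_nonneg_right hcard (mul_nonneg hP hεL.le)
  have a2 := mul_le_mul_of_nonneg_right hL2 (mul_nonneg hP hn2.le)
  refine le_of_mul_le_mul_left ?_ (mul_pos hσ hn2)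
  linarith

end Pool.Agent.Lib.V3
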