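import Pool.Agent.Lib.V3.Prob

/-! Row OUT: back to the definitions of the hand-in. -/

namespace Pool.Agent.Lib.V3

open MeasureTheory ProbabilityTheory Filter Topology Pool.Agent.Lib.MP_eba68f_pr SimpleGraph
open scoped NNReal ENNReal

namespace OUT

lemma ident (p : Par) (hF : p.F {t | p.r ≤ (t : ℝ) ∧ (t : ℝ) ≤ p.b} = 1) (z : V) :
    IdentDistrib (fun τ => passage τ 0 z) (fun τ => p.T τ 0 z)
      (Measure.infinitePi fun _ : (lattice 3).edgeSet => p.F) p.P := by
  have hm : Measurable fun τ : (lattice 3).edgeSet → ℝ≥0 => passage τ 0 z := by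
    refine Measurable.iInf fun q => ?_
    induction q.darts with
    | nil => simp
    | cons a l ih =>
      simp only [List.map_cons, List.sum_cons]
      exact ((measurable_pi_apply
        (⟨a.edge, a.edge_mem⟩ : (lattice 3).edgeSet)).coe_nnreal_real).add ih
  have h1 := Measure.map_infinitePi_infinitePi_of_inj (P := fun _ : Sym2 V => p.F)
    (f := fun e : (lattice 3).edgeSet => (e : Sym2 V)) Subtype.val_injective
  have h2 : ∀ᵐ t ∂p.F, p.w t = t := by
    have ms : MeasurableSet {t : ℝ≥0 | p.r ≤ (t : ℝ) ∧ (t : ℝ) ≤ p.b} :=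
      measurable_coe_nnreal_real (measurableSet_Icc (a := p.r) (b := p.b))
    filter_upwards [(mem_ae_iff_prob_eq_one ms).2 hF] with t ht
    exact p.w_eq ht.1 ht.2
  have h3 : ∀ᵐ τ ∂p.P, ∀ e, p.w (τ e) = τ e := ae_all_iff.2 fun e =>
    (measurePreserving_eval_infinitePi (fun _ : Sym2 V => p.F) e).quasiMeasurePreserving.ae h2
  refine ⟨hm.aemeasurable, (p.T_meas 0 z).aemeasurable, ?_⟩
  rw [← h1, Measure.map_map hm (by fun_prop)]
  refine Measure.map_congr (h3.mono fun τ hτ => ?_)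
  show passage (fun e : (lattice 3).edgeSet => τ e) 0 z = p.T τ 0 z
  unfold passage Par.T Par.LW
  simp only [hτ, Walk.edges, List.map_map]
  rfl

/-- a level above the bottom of the support that carries little mass -/
lemma level (F : Measure ℝ≥0) [IsProbabilityMeasure F] (r b : ℝ≥0) (hF : F (Set.Icc r b) = 1)
    (c : ℝ≥0∞) (hc : F {r} < c) (h1 : c ≤ 1) : ∃ a : ℝ≥0, r < a ∧ a ≤ b ∧ F (Set.Iic a) < c := by
  have hrb : r < b := by
    by_contra h
    have : F (Set.Icc r b) ≤ F {r} := measure_mono fun t ht =>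
      le_antisymm (ht.2.trans (not_lt.1 h)) ht.1
    exact absurd (hF ▸ this) (not_le.2 (hc.trans_le h1))
  have h0 : F (Set.Icc r b)ᶜ = 0 := (prob_compl_eq_zero_iff measurableSet_Icc).2 hF
  have h2 : F (Set.Iic r) ≤ F {r} := by
    have : Set.Iic r ⊆ {r} ∪ (Set.Icc r b)ᶜ := fun t ht => by
      rcases eq_or_lt_of_le (show t ≤ r from ht) with h | h
      · exact Or.inl h
      · exact Or.inr fun h' => absurd h'.1 (not_le.2 h)
    refine (measure_mono this).trans ((measure_union_le _ _).trans ?_)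
    rw [h0, add_zero]
  have h3 := tendsto_measure_biInter_gt (μ := F) (s := fun a : ℝ≥0 => Set.Iic a) (a := r)
    (fun a _ => measurableSet_Iic.nullMeasurableSet) (fun i j _ h => Set.Iic_subset_Iic.2 h)
    ⟨b, hrb, measure_ne_top _ _⟩
  have h4 : (⋂ a > r, Set.Iic a) = Set.Iic r := by
    ext t
    simp only [Set.mem_iInter, Set.mem_Iic]
    exact ⟨fun h => le_of_forall_gt_imp_ge_of_dense h, fun h a ha => h.trans ha.le⟩
  rw [h4] at h3
  have h6 : ∀ᶠ a in 𝓝[>] r, r < a := self_mem_nhdsWithin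
  have h7 : ∀ᶠ a in 𝓝[>] r, a ≤ b := mem_nhdsWithin_of_mem_nhds (Iic_mem_nhds hrb)
  have : (𝓝[>] r).NeBot := nhdsGT_neBot_of_exists_gt ⟨b, hrb⟩
  obtain ⟨a, ha, hb, hc⟩ := ((h3.eventually (gt_mem_nhds (h2.trans_lt hc))).and (h6.and h7)).exists
  exact ⟨a, hb, hc, ha⟩

end OUT

open OUT in
theorem bFIN (hP : St_PC) (hM : St_MAIN) : St_FIN := by
  intro r b hr
  obtain ⟨p₀, hp, H⟩ := hP (DD r b)
  refine ⟨min 1 (ENNReal.ofReal p₀), lt_min zero_lt_one (ENNReal.ofReal_pos.2 hp),
    fun F _ hF ha hs => ?_⟩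
  obtain ⟨a, hra, hab, hc⟩ := level F r b hF _ hs (min_le_left _ _)
  have hra' : (r : ℝ) < a := hra
  by_contra hne
  set B := ⨆ v : Fin 3 → ℤ, evariance (fun τ => passage τ 0 v)
      (Measure.infinitePi fun _ : (lattice 3).edgeSet => F) with hB
  have hlo : r < (3 * r + a) / 4 := by
    rw [← NNReal.coe_lt_coe]; push_cast; linarith
  let p : Par :=
    { F := F
      prob := inferInstance
      r := r
      b := b
      lo := (3 * r + a) / 4
      hi := a
      σ := B.toReal + 1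
      r_pos := hr
      r_le_lo := hlo.le
      lo_lt := by push_cast; linarith
      hi_le := hab
      q_pos := ENNReal.toReal_pos (ha _ hlo).ne' (measure_ne_top _ _)
      one_le := by linarith [ENNReal.toReal_nonneg (a := B)] }
  refine hM p (H p ?_) fun v => ?_
  · exact ENNReal.toReal_le_of_le_ofReal hp.le (hc.le.trans (min_le_right _ _))
  · have h1 : evariance (fun τ => passage τ 0 v)
        (Measure.infinitePi fun _ : (lattice 3).edgeSet => F) ≤ B := le_iSup (fun v : Fin 3 → ℤ =>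
          evariance (fun τ => passage τ 0 v)
            (Measure.infinitePi fun _ : (lattice 3).edgeSet => F)) v
    have h2 := (ident p hF v).evariance_eq
    have h3 : p.Vr v ≤ B.toReal := ENNReal.toReal_mono hne (h2 ▸ h1)
    have h4 := ENNReal.toReal_nonneg (a := B)
    show p.Vr v ≤ (B.toReal + 1) ^ 2
    nlinarith

theorem bMAIN (h1 : St_HL) (h2 : St_GEO) (h3 : St_HALF) (h4 : St_LOW) (h5 : St_STEP)
    (h6 : St_START) (h7 : St_CHAIN) (h8 : St_FINAL) : St_MAIN := by
  intro p hR hV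
  obtain ⟨d, g⟩ := h2 p
  obtain ⟨C₁, c1, hH⟩ := h3 p d g hV
  obtain ⟨C, c0, hL⟩ := h4 p d C₁ g hV c1 hH
  obtain ⟨B, β₀, n₀, hB, hβ, hS⟩ := h5 p d C g hV hR c0 hL
  obtain ⟨M, -, hM⟩ := h7 (p.PP d) B β₀ n₀ hB hβ (Par.PP_mono d) hS (h6 p d g)
  exact h8 p d C₁ C M g (h1 p hR) c1 hH c0 hL hM

end Pool.Agent.Lib.V3
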