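import Pool.Agent.Lib.V3.Prob

/-! Block START: the initial scale. -/

namespace Pool.Agent.Lib.V3

theorem bSTART : St_START := by
  intro p d hg e he N
  have hb := p.b_pos
  have hcS := p.cS_pos
  obtain ⟨c, hc0, hc1, hc2⟩ : ∃ c : ℝ, 0 < c ∧ c ≤ 1 ∧ 12 * p.b * c ≤ e ^ 2 := by
    refine ⟨min 1 (e ^ 2 / (12 * p.b)), lt_min one_pos (by positivity), min_le_left _ _, ?_⟩
    calc 12 * p.b * min 1 (e ^ 2 / (12 * p.b)) ≤ 12 * p.b * (e ^ 2 / (12 * p.b)) :=
          mul_le_mul_of_nonneg_left (min_le_right _ _) (by positivity)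
      _ = e ^ 2 := by field_simp
  obtain ⟨M, hM⟩ := exists_nat_ge (2 / c + 8 * p.cS / c ^ 3)
  obtain ⟨x, hx, hgx⟩ := hg.G3 (e ^ 2 / 2) (by positivity) (N + M)
  obtain ⟨n, hn⟩ : ∃ n : ℕ, x 0 = n := ⟨(x 0).toNat, by omega⟩
  have hnN : N + M ≤ n := by
    rw [hn] at hx
    exact_mod_cast hx
  have hMn : (M : ℝ) ≤ n := by exact_mod_cast (Nat.le_add_left M N).trans hnN
  have hn0 : (0 : ℝ) ≤ n := Nat.cast_nonneg n
  have hxr : ((x 0 : ℤ) : ℝ) = n := by rw [hn]; simp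
  rw [hxr] at hgx
  have q1 : (0 : ℝ) ≤ 2 / c := by positivity
  have q2 : (0 : ℝ) ≤ 8 * p.cS / c ^ 3 := by positivity
  have h2 : 2 ≤ c * n := by
    have : 2 / c ≤ n := by linarith
    rwa [div_le_iff₀ hc0, mul_comm] at this
  have h8 : 8 * p.cS ≤ n * c ^ 3 := by
    have : 8 * p.cS / c ^ 3 ≤ n := by linarith
    rwa [div_le_iff₀ (by positivity)] at this
  obtain ⟨m, hm1, hm2⟩ : ∃ m : ℕ, (m : ℝ) ≤ c * n ∧ c * n / 2 ≤ m :=
    ⟨⌊c * n⌋₊, Nat.floor_le (by positivity), by linarith [Nat.lt_floor_add_one (c * n)]⟩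
  have hmn : m ≤ n := by
    have : (m : ℝ) ≤ n := hm1.trans (mul_le_of_le_one_left hn0 hc1)
    exact_mod_cast this
  have he2 : 0 ≤ e ^ 2 * n := by positivity
  refine ⟨n, (Nat.le_add_right N M).trans hnN, ⟨x, hn, by linarith⟩,
    (Finset.range m ×ˢ Finset.range m ×ˢ Finset.range m).image
      fun t : ℕ × ℕ × ℕ => x + pt t.1 t.2.1 t.2.2, ?_, ?_⟩
  · intro v hv
    obtain ⟨⟨i, j, k⟩, ht, rfl⟩ := Finset.mem_image.1 hv
    simp only [Finset.mem_product, Finset.mem_range] at ht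
    obtain ⟨hi, hj, hk⟩ := ht
    refine ⟨?_, ?_, ?_⟩
    · simp only [Pi.add_apply, pt_zero]
      omega
    · simp only [Pi.add_apply, pt_zero]
      omega
    · have a1 := hg.g_lip x (pt i j k)
      have a2 : n1 (pt i j k) = (i : ℝ) + j + k := by simp [n1]
      have hi' : (i : ℝ) ≤ m := by exact_mod_cast hi.le
      have hj' : (j : ℝ) ≤ m := by exact_mod_cast hj.le
      have hk' : (k : ℝ) ≤ m := by exact_mod_cast hk.le
      have a3 : 2 * p.b * n1 (pt i j k) ≤ 2 * p.b * (3 * (c * n)) :=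
        mul_le_mul_of_nonneg_left (by rw [a2]; linarith) (by positivity)
      have a4 := mul_le_mul_of_nonneg_right hc2 hn0
      have a5 : 0 ≤ e ^ 2 * (i : ℝ) := by positivity
      simp only [Pi.add_apply, pt_zero, Int.cast_add, Int.cast_natCast, hxr]
      linarith
  · rw [Finset.card_image_of_injective]
    · simp only [Finset.card_product, Finset.card_range, Nat.cast_mul]
      have a1 : (c * n / 2) ^ 3 ≤ (m : ℝ) ^ 3 := pow_le_pow_left₀ (by positivity) hm2 3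
      have a2 := mul_le_mul_of_nonneg_right h8 (sq_nonneg (n : ℝ))
      linarith
    · rintro ⟨i, j, k⟩ ⟨i', j', k'⟩ h
      simp only [add_right_inj, vext_iff, pt_zero, pt_one, pt_two, Nat.cast_inj] at h
      simp [h.1, h.2.1, h.2.2]

end Pool.Agent.Lib.V3
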