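import Pool.Agent.Lib.V3.Prob

/-! Row STEP: one change of scale. -/

namespace Pool.Agent.Lib.V3

namespace STEP

theorem gain {β z r B a c : ℝ} (h0 : 0 ≤ β) (h1 : β ≤ 1) (hz : 0 ≤ z) (hr : 0 ≤ r)
    (h2 : 2 ≤ r ^ 2) (e : z * r = B) (ha : 0 ≤ a) (hc : 0 ≤ c) (hB : B = c + 2 * a + 2) :
    (β * r) ^ 2 + c + 2 * (a * (β * r + 1)) ≤ (β + z) ^ 2 * (r ^ 2 - 1) := by
  have i : (β + z) ^ 2 * (r ^ 2 - 1) = (β * r) ^ 2 - β ^ 2 + (β * r) * (z * r) + (z * r) ^ 2 / 2 +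
      (2 * β * z + z ^ 2) * (r ^ 2 / 2 - 1) := by ring
  have j1 : 0 ≤ (2 * β * z + z ^ 2) * (r ^ 2 / 2 - 1) := mul_nonneg (by positivity) (by linarith)
  have j2 : β ^ 2 ≤ 1 := pow_le_one₀ h0 h1
  have j3 : β * r * (2 * a) ≤ β * r * B := mul_le_mul_of_nonneg_left (by linarith) (by positivity)
  have j4 : B * 2 ≤ B * B := mul_le_mul_of_nonneg_left (by linarith) (by linarith)
  rw [i, e]
  linarith

theorem win {ε c C u A g : ℝ} (hc : 0 ≤ c) (hC : 0 ≤ C) (hu : 0 ≤ u) (hε : 0 < ε) (hA : 1 ≤ A)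
    (h : 36 * (1 + c + 4 * C) ≤ ε * A) (hg : g ≤ u ^ 2) :
    36 * (g + c + 2 * (C * (2 * u ^ 2 + 1))) ≤ ε * (A * (u + 1)) ^ 2 := by
  have j1 : ε * A * 1 ≤ ε * A * A := mul_le_mul_of_nonneg_left hA (by positivity)
  have j2 : 36 * (1 + c + 4 * C) * (u ^ 2 + 1) ≤ ε * A * A * (u + 1) ^ 2 :=
    mul_le_mul (by linarith) (by linarith [add_sq u 1]) (by positivity) (by positivity)
  have j3 : 0 ≤ c * u ^ 2 := by positivity
  linarith [mul_pow A (u + 1) 2, j2, j3, show ε * (A * (u + 1)) ^ 2 = ε * A * A * (u + 1) ^ 2 by ring]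

end STEP

theorem bSTEP (hC : St_CORE) : St_STEP := by
  intro p d C hG hV hR C0 hL
  have s0 := p.σ_pos
  have b0 := p.b_pos
  have e0 := hG.ε_pos
  have c0 := p.c1_pos
  obtain ⟨c, hc⟩ : ∃ c, c = 10 * p.σ + p.b := ⟨_, rfl⟩
  have cp : 0 ≤ c := by rw [hc]; positivity
  obtain ⟨A, A1, A2⟩ : ∃ A : ℝ, 1 ≤ A ∧ 36 * (1 + c + 4 * C) ≤ d.ε * A := by
    refine ⟨1 + 36 * (1 + c + 4 * C) / d.ε, le_add_of_nonneg_right (by positivity), ?_⟩
    rw [mul_add d.ε, mul_div_cancel₀ _ e0.ne']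
    linarith
  obtain ⟨a, a0, a1⟩ : ∃ a : ℝ, 0 ≤ a ∧ p.c1 * a = 300 * p.σ ^ 2 * A :=
    ⟨300 * p.σ ^ 2 * A / p.c1, by positivity, mul_div_cancel₀ _ c0.ne'⟩
  obtain ⟨k, hk⟩ := exists_nat_gt (2 * (c + C))
  refine ⟨c + 2 * a + 2, 1 / (2 + 4 * C), k + 24, by positivity, by positivity, ?_⟩
  rintro n β hn β0 β1 ⟨⟨x, x0, hx⟩, S, hS, cS⟩
  have n24 : (24 : ℝ) ≤ n := by exact_mod_cast (by omega : 24 ≤ n)
  have nk : 2 * (c + C) < n := hk.trans_le (by exact_mod_cast (by omega : k ≤ n))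
  obtain ⟨r, hr⟩ : ∃ r, r = √(n : ℝ) := ⟨_, rfl⟩
  have r0 : 0 < r := hr ▸ Real.sqrt_pos.2 (by linarith)
  have r2 : r ^ 2 = n := hr ▸ Real.sq_sqrt (by linarith)
  rw [le_div_iff₀ (by positivity)] at β1
  have β2 : β ≤ 1 := by linarith [mul_nonneg β0 C0]
  have β3 : β ^ 2 * (2 + 4 * C) ≤ 1 :=
    (mul_le_mul_of_nonneg_right (pow_le_of_le_one β0 β2 two_ne_zero) (by positivity)).trans β1
  have u2 : (β * r) ^ 2 = β ^ 2 * n := by rw [mul_pow, r2]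
  have u3 : (β * r) ^ 2 * (2 + 4 * C) ≤ n := by
    have := mul_le_mul_of_nonneg_right β3 (Nat.cast_nonneg n : (0 : ℝ) ≤ n)
    rw [u2]
    linarith
  have u4 : 0 ≤ (β * r) ^ 2 * C := by positivity
  rw [← u2] at hx
  obtain ⟨W, hW, cW⟩ := hC p d hG hV hR n x (C * (2 * (β * r) ^ 2 + 1)) ((A * (β * r + 1)) ^ 2)
    (a * (β * r + 1)) (by omega) x0 (by positivity) (by linarith)
    (fun j hj => hL n _ S j (by omega) (by positivity) (by linarith)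
      (fun v hv => ⟨(hS v hv).1, (hS v hv).2.1, (hS v hv).2.2.trans (by
        have h : (v 0 : ℝ) ≤ 2 * n := by exact_mod_cast (hS v hv).2.1
        have := mul_le_mul_of_nonneg_left h (sq_nonneg β)
        linarith)⟩) cS (by omega) (by omega))
    (one_le_pow₀ (one_le_mul_of_one_le_of_one_le A1 (le_add_of_nonneg_left (by positivity))))
    (by linarith [STEP.win cp C0 (by positivity : 0 ≤ β * r) e0 A1 A2 hx])
    (by rw [Real.sqrt_sq (by positivity), ← mul_assoc, ← mul_assoc, a1])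
  have key : ∀ v ∈ W, p.g d v ≤ (β + (c + 2 * a + 2) / √(n : ℝ)) ^ 2 * v 0 := fun v hv => by
    obtain ⟨w1, -, w3⟩ := hW v hv
    have v0 : (0 : ℝ) ≤ v 0 := by exact_mod_cast (by omega : 0 ≤ v 0)
    have g := STEP.gain β0 β2 (by positivity : 0 ≤ (c + 2 * a + 2) / r) r0.le (by linarith)
      (div_mul_cancel₀ _ r0.ne') a0 cp rfl
    rw [r2] at g
    have g2 := mul_le_mul_of_nonneg_left (show p.g d x + 10 * p.σ + p.b + 2 * (a * (β * r + 1)) ≤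
      (β + (c + 2 * a + 2) / r) ^ 2 * (n - 1) by linarith) v0
    rw [← hr]
    refine le_of_mul_le_mul_right ?_ (by linarith : (0 : ℝ) < n - 1)
    linarith
  have cp2 : 0 < p.cS * (n : ℝ) ^ 2 := mul_pos p.cS_pos (by positivity)
  obtain ⟨y, hy⟩ : W.Nonempty := Finset.card_pos.1 (by exact_mod_cast cp2.trans_le cW)
  obtain ⟨y1, y2, -⟩ := hW y hy
  obtain ⟨m, hm⟩ : ∃ m : ℕ, y 0 = m := ⟨(y 0).toNat, by omega⟩
  refine ⟨m, by omega, by omega, ⟨y, hm, ?_⟩, W, fun v hv => ⟨?_, ?_, key v hv⟩, ?_⟩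
  · have := key y hy
    rwa [hm, Int.cast_natCast] at this
  · obtain ⟨w1, w2, -⟩ := hW v hv
    omega
  · obtain ⟨w1, w2, -⟩ := hW v hv
    omega
  · have h : (m : ℝ) ≤ n := by exact_mod_cast (by omega : m ≤ n)
    exact (mul_le_mul_of_nonneg_left (pow_le_pow_left₀ (Nat.cast_nonneg m) h 2)
      p.cS_pos.le).trans cW

end Pool.Agent.Lib.V3
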