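import Pool.Agent.Lib.V3.B_SUM
import Pool.Agent.Lib.V3.B_WIN
import Pool.Agent.Lib.V3.B_PC
import Pool.Agent.Lib.V3.B_HL
import Pool.Agent.Lib.V3.B_GEO
import Pool.Agent.Lib.V3.B_START
import Pool.Agent.Lib.V3.B_HALF
import Pool.Agent.Lib.V3.B_LOW
import Pool.Agent.Lib.V3.B_DEC
import Pool.Agent.Lib.V3.B_MART
import Pool.Agent.Lib.V3.B_CORE
import Pool.Agent.Lib.V3.B_STEP
import Pool.Agent.Lib.V3.B_CHAIN
import Pool.Agent.Lib.V3.Fast47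
import Pool.Agent.Lib.V3.Sep47
import Pool.Agent.Lib.V3.B_FINAL
import Pool.Agent.Lib.V3.B_OUT

/-! Assembly. -/

namespace Pool.Agent.Lib.V3

theorem st_MAIN : St_MAIN :=
  bMAIN bHL bGEO bHALF (bLOW bSUM) (bSTEP (bCORE bWIN bDEC bMART)) bSTART bCHAIN
    (bFINAL bFAST47 bSEP47)

theorem st_FIN : St_FIN := bFIN bPC st_MAIN

end Pool.Agent.Lib.V3
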