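import Pool.Agent.Lib.V3.Blue

/-! Basic kit: lattice walks, passage times, geodesics, symmetries. -/

namespace Pool.Agent.Lib.V3

open MeasureTheory ProbabilityTheory Filter Topology Function Finset SimpleGraph
  Pool.Agent.Lib.MP_eba68f_pr
open scoped NNReal ENNReal

instance Par.instF (p : Par) : IsProbabilityMeasure p.F := p.prob
instance Par.instP (p : Par) : IsProbabilityMeasure p.P := by unfold Par.P; infer_instance

/-! ### the lattice -/

@[simp] lemma pt_zero (a b c : ℤ) : pt a b c 0 = a := rfl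
@[simp] lemma pt_one (a b c : ℤ) : pt a b c 1 = b := rfl
@[simp] lemma pt_two (a b c : ℤ) : pt a b c 2 = c := rfl
@[simp] lemma e0_zero : e0 0 = 1 := rfl
@[simp] lemma e0_one : e0 1 = 0 := rfl
@[simp] lemma e0_two : e0 2 = 0 := rfl

lemma vext {u v : V} (h0 : u 0 = v 0) (h1 : u 1 = v 1) (h2 : u 2 = v 2) : u = v := by
  ext i; fin_cases i <;> assumption

lemma vext_iff {u v : V} : u = v ↔ u 0 = v 0 ∧ u 1 = v 1 ∧ u 2 = v 2 :=
  ⟨fun h => by simp [h], fun h => vext h.1 h.2.1 h.2.2⟩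

lemma adj_iff {u v : V} : G.Adj u v ↔
    (v 0 = u 0 + 1 ∧ v 1 = u 1 ∧ v 2 = u 2) ∨ (v 0 = u 0 - 1 ∧ v 1 = u 1 ∧ v 2 = u 2) ∨
    (v 0 = u 0 ∧ v 1 = u 1 + 1 ∧ v 2 = u 2) ∨ (v 0 = u 0 ∧ v 1 = u 1 - 1 ∧ v 2 = u 2) ∨
    (v 0 = u 0 ∧ v 1 = u 1 ∧ v 2 = u 2 + 1) ∨ (v 0 = u 0 ∧ v 1 = u 1 ∧ v 2 = u 2 - 1) := by
  show ∑ i, |u i - v i| = 1 ↔ _
  rw [Fin.sum_univ_three]
  simp only [Int.abs_eq_natAbs]
  omega

lemma adj_e0 (y : V) : G.Adj y (y + e0) := by simp [adj_iff]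

/-- the six neighbours of a site -/
def nb (u : V) : Finset V :=
  {pt (u 0 + 1) (u 1) (u 2), pt (u 0 - 1) (u 1) (u 2), pt (u 0) (u 1 + 1) (u 2),
    pt (u 0) (u 1 - 1) (u 2), pt (u 0) (u 1) (u 2 + 1), pt (u 0) (u 1) (u 2 - 1)}

lemma mem_nb {u v : V} : v ∈ nb u ↔ G.Adj u v := by
  simp only [nb, mem_insert, mem_singleton, adj_iff, vext_iff, pt_zero, pt_one, pt_two]

lemma card_nb (u : V) : (nb u).card ≤ 6 := Finset.card_le_six

instance locFin : G.LocallyFinite := fun u =>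
  Fintype.ofFinset (nb u) fun _ => by rw [mem_nb, mem_neighborSet]

instance walkCountable (u v : V) : Countable (G.Walk u v) :=
  (Walk.support_injective (G := G) (u := u) (v := v)).countable

lemma n1_nonneg (z : V) : 0 ≤ n1 z := by unfold n1; positivity
@[simp] lemma n1_zero : n1 0 = 0 := by simp [n1]
@[simp] lemma n1_e0 : n1 e0 = 1 := by simp [n1]
lemma n1_neg (v : V) : n1 (-v) = n1 v := by simp [n1]
lemma n1_sub_comm (u v : V) : n1 (u - v) = n1 (v - u) := by rw [← n1_neg, neg_sub]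
lemma n1_add_le (u v : V) : n1 (u + v) ≤ n1 u + n1 v := by
  simp only [n1, Pi.add_apply, Int.cast_add]
  linarith [abs_add_le (u 0 : ℝ) (v 0), abs_add_le (u 1 : ℝ) (v 1), abs_add_le (u 2 : ℝ) (v 2)]
lemma n1_tri (u v w : V) : n1 (w - u) ≤ n1 (v - u) + n1 (w - v) := by
  have := n1_add_le (v - u) (w - v)
  rwa [show v - u + (w - v) = w - u by abel] at this
lemma n1_nsmul (k : ℕ) (v : V) : n1 (k • v) = k * n1 v := by
  simp only [n1, Pi.smul_apply, nsmul_eq_mul, Int.cast_mul, Int.cast_natCast, abs_mul,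
    Nat.abs_cast]
  ring
lemma n1_nat (v : V) : n1 v = (((v 0).natAbs + (v 1).natAbs + (v 2).natAbs : ℕ) : ℝ) := by
  simp [n1, Nat.cast_natAbs]

lemma n1_adj {u v : V} (h : G.Adj u v) : n1 (v - u) = 1 := by
  simp only [n1, Pi.sub_apply, Int.cast_sub]
  rcases adj_iff.1 h with ⟨h0, h1, h2⟩ | ⟨h0, h1, h2⟩ | ⟨h0, h1, h2⟩ | ⟨h0, h1, h2⟩ |
    ⟨h0, h1, h2⟩ | ⟨h0, h1, h2⟩ <;> simp [h0, h1, h2]

lemma n1_le_length {u v : V} (p : G.Walk u v) : n1 (v - u) ≤ p.length := by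
  induction p with
  | nil => simp [n1]
  | @cons a b c h p ih =>
    have := n1_tri a b c
    rw [n1_adj h] at this
    simp only [Walk.length_cons, Nat.cast_add, Nat.cast_one]
    linarith

lemma exists_walk_aux (n : ℕ) : ∀ u v : V,
    (v 0 - u 0).natAbs + (v 1 - u 1).natAbs + (v 2 - u 2).natAbs = n →
    ∃ p : G.Walk u v, p.length = n ∧
      ∀ z ∈ p.support, ∀ i, min (u i) (v i) ≤ z i ∧ z i ≤ max (u i) (v i) := by
  induction n with
  | zero =>
    intro u v h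
    have : u = v := vext (by omega) (by omega) (by omega)
    subst this
    exact ⟨Walk.nil, rfl, by simp⟩
  | succ n ih =>
    intro u v h
    have : ∃ w, G.Adj u w ∧ (v 0 - w 0).natAbs + (v 1 - w 1).natAbs + (v 2 - w 2).natAbs = n := by
      rcases lt_trichotomy (u 0) (v 0) with h0 | h0 | h0
      · exact ⟨pt (u 0 + 1) (u 1) (u 2), by simp [adj_iff],
          by simp only [pt_zero, pt_one, pt_two]; omega⟩
      · rcases lt_trichotomy (u 1) (v 1) with h1 | h1 | h1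
        · exact ⟨pt (u 0) (u 1 + 1) (u 2), by simp [adj_iff],
            by simp only [pt_zero, pt_one, pt_two]; omega⟩
        · rcases lt_trichotomy (u 2) (v 2) with h2 | h2 | h2
          · exact ⟨pt (u 0) (u 1) (u 2 + 1), by simp [adj_iff],
              by simp only [pt_zero, pt_one, pt_two]; omega⟩
          · omega
          · exact ⟨pt (u 0) (u 1) (u 2 - 1), by simp [adj_iff],
              by simp only [pt_zero, pt_one, pt_two]; omega⟩
        · exact ⟨pt (u 0) (u 1 - 1) (u 2), by simp [adj_iff],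
            by simp only [pt_zero, pt_one, pt_two]; omega⟩
      · exact ⟨pt (u 0 - 1) (u 1) (u 2), by simp [adj_iff],
          by simp only [pt_zero, pt_one, pt_two]; omega⟩
    obtain ⟨w, hw, hn⟩ := this
    obtain ⟨p, hp, hb⟩ := ih w v hn
    refine ⟨Walk.cons hw p, by simp [hp], fun z hz i => ?_⟩
    rw [Walk.support_cons, List.mem_cons] at hz
    rcases hz with rfl | hz
    · exact ⟨min_le_left _ _, le_max_left _ _⟩
    · have h0 := hb z hz 0
      have h1 := hb z hz 1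
      have h2 := hb z hz 2
      rw [adj_iff] at hw
      fin_cases i
      · show min (u 0) (v 0) ≤ z 0 ∧ z 0 ≤ max (u 0) (v 0); omega
      · show min (u 1) (v 1) ≤ z 1 ∧ z 1 ≤ max (u 1) (v 1); omega
      · show min (u 2) (v 2) ≤ z 2 ∧ z 2 ≤ max (u 2) (v 2); omega

/-- a shortest walk inside the coordinate box of its end points -/
lemma exists_walk_box (u v : V) : ∃ p : G.Walk u v, (p.length : ℝ) = n1 (v - u) ∧
    ∀ z ∈ p.support, ∀ i, min (u i) (v i) ≤ z i ∧ z i ≤ max (u i) (v i) := by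
  obtain ⟨p, hp, hb⟩ := exists_walk_aux _ u v rfl
  refine ⟨p, ?_, hb⟩
  rw [hp, n1_nat]
  simp

lemma exists_walk (u v : V) : ∃ p : G.Walk u v, (p.length : ℝ) = n1 (v - u) :=
  (exists_walk_box u v).imp fun _ h => h.1

instance walkNonempty (u v : V) : Nonempty (G.Walk u v) := ⟨(exists_walk u v).choose⟩

/-- translation as a graph homomorphism -/
def transl (a : V) : G →g G where
  toFun z := z + a
  map_rel' := by
    intro u v h
    have h' : ∑ i, |u i - v i| = 1 := h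
    show ∑ i, |(u + a) i - (v + a) i| = 1
    simpa only [Pi.add_apply, add_sub_add_right_eq_sub] using h'

/-- point reflection as a graph homomorphism -/
def refl (a : V) : G →g G where
  toFun z := a - z
  map_rel' := by
    intro u v h
    have h' : ∑ i, |v i - u i| = 1 := h.symm
    show ∑ i, |(a - u) i - (a - v) i| = 1
    simpa only [Pi.sub_apply, sub_sub_sub_cancel_left] using h'

lemma ed_inj : Injective ed := by
  intro y y' h
  simp only [ed, Sym2.eq_iff, vext_iff, Pi.add_apply, e0_zero, e0_one, e0_two] at h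
  refine vext ?_ ?_ ?_ <;> omega

lemma ed_notMem_Lo {y : V} {j : ℤ} (h : j ≤ y 0) : ed y ∉ Lo j := fun he => by
  have := he (y + e0) (Sym2.mem_mk_right _ _)
  simp only [Pi.add_apply, e0_zero] at this
  omega

lemma Lo_mono {i j : ℤ} (h : i ≤ j) : Lo i ⊆ Lo j := fun _ he z hz => (he z hz).trans h
lemma Up_anti {i j : ℤ} (h : i ≤ j) : Up j ⊆ Up i := fun _ he z hz => h.trans (he z hz)
lemma notMem_Lo_of_Up {j : ℤ} {e : Sym2 V} (h : e ∈ Up (j + 1)) : e ∉ Lo j := fun h' => by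
  induction e using Sym2.ind with
  | h x y =>
    have h1 := h x (Sym2.mem_mk_left x y)
    have h2 := h' x (Sym2.mem_mk_left x y)
    omega
lemma edges_mem_Lo {u v : V} (q : G.Walk u v) {j : ℤ} (h : ∀ z ∈ q.support, z 0 ≤ j) :
    ∀ e ∈ q.edges, e ∈ Lo j := fun _ he z hz => h z (Walk.mem_support_of_mem_edges he hz)
lemma edges_mem_Up {u v : V} (q : G.Walk u v) {j : ℤ} (h : ∀ z ∈ q.support, j ≤ z 0) :
    ∀ e ∈ q.edges, e ∈ Up j := fun _ he z hz => h z (Walk.mem_support_of_mem_edges he hz)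

lemma spl_mem {A : Set (Sym2 V)} (τ τ' : Cfg) {e : Sym2 V} (h : e ∈ A) : spl A τ τ' e = τ e := by
  simp [spl, h]
lemma spl_notMem {A : Set (Sym2 V)} (τ τ' : Cfg) {e : Sym2 V} (h : e ∉ A) :
    spl A τ τ' e = τ' e := by simp [spl, h]
lemma meas_spl (A : Set (Sym2 V)) : Measurable fun z : Cfg × Cfg => spl A z.1 z.2 := by
  refine measurable_pi_lambda _ fun e => ?_
  by_cases h : e ∈ A
  · simp only [spl_mem _ _ h]; fun_prop
  · simp only [spl_notMem _ _ h]; fun_prop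
lemma meas_spl_left (A : Set (Sym2 V)) (τ' : Cfg) : Measurable fun τ : Cfg => spl A τ τ' :=
  (meas_spl A).comp (measurable_id.prodMk measurable_const)
lemma meas_spl_right (A : Set (Sym2 V)) (τ : Cfg) : Measurable fun τ' : Cfg => spl A τ τ' :=
  (meas_spl A).comp (measurable_const.prodMk measurable_id)
lemma meas_sh (a : V) : Measurable (sh a) := by unfold sh; fun_prop
lemma meas_rf (a : V) : Measurable (rf a) := by unfold rf; fun_prop
lemma sh_sh (a : V) (τ : Cfg) : sh (-a) (sh a τ) = τ := by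
  ext e
  simp only [sh, Sym2.map_map]
  congr 2
  induction e using Sym2.ind with
  | h x y => simp
lemma rf_rf (a : V) (τ : Cfg) : rf a (rf a τ) = τ := by
  ext e
  simp only [rf, Sym2.map_map]
  congr 2
  induction e using Sym2.ind with
  | h x y => simp

/-! ### the functional -/

lemma Dat.ρ_add (d : Dat) (u v : V) : d.ρ (u + v) = d.ρ u + d.ρ v := by
  simp only [Dat.ρ, Pi.add_apply, Int.cast_add]; ring
lemma Dat.ρ_sub (d : Dat) (u v : V) : d.ρ (u - v) = d.ρ u - d.ρ v := by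
  simp only [Dat.ρ, Pi.sub_apply, Int.cast_sub]; ring
lemma Dat.ρ_nsmul (d : Dat) (k : ℕ) (v : V) : d.ρ (k • v) = k * d.ρ v := by
  simp only [Dat.ρ, Pi.smul_apply, nsmul_eq_mul, Int.cast_mul, Int.cast_natCast]; ring
@[simp] lemma Dat.ρ_zero (d : Dat) : d.ρ 0 = 0 := by simp [Dat.ρ]
@[simp] lemma Dat.ρ_e0 (d : Dat) : d.ρ e0 = d.ρ0 := by simp [Dat.ρ]
lemma Dat.eta_nonneg (d : Dat) (v : V) : 0 ≤ d.eta v := by unfold Dat.eta; positivity

/-! ### bounded measurable functions -/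

lemma Nice.int {f : Cfg → ℝ} (hf : Nice f) (μ : Measure Cfg) [IsFiniteMeasure μ] :
    Integrable f μ := by
  obtain ⟨hm, C, hC⟩ := hf
  exact Integrable.of_bound hm.aestronglyMeasurable C (ae_of_all _ hC)
lemma Nice.memLp {f : Cfg → ℝ} (hf : Nice f) (μ : Measure Cfg) [IsFiniteMeasure μ] (q : ℝ≥0∞) :
    MemLp f q μ := by
  obtain ⟨hm, C, hC⟩ := hf
  exact MemLp.of_bound hm.aestronglyMeasurable C (ae_of_all _ hC)
lemma Nice.const (c : ℝ) : Nice fun _ => c := ⟨measurable_const, |c|, fun _ => le_rfl⟩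
lemma Nice.add {f g : Cfg → ℝ} (hf : Nice f) (hg : Nice g) : Nice fun τ => f τ + g τ := by
  obtain ⟨hm, C, hC⟩ := hf
  obtain ⟨hm', C', hC'⟩ := hg
  exact ⟨hm.add hm', C + C', fun τ => (abs_add_le _ _).trans (add_le_add (hC τ) (hC' τ))⟩
lemma Nice.sub {f g : Cfg → ℝ} (hf : Nice f) (hg : Nice g) : Nice fun τ => f τ - g τ := by
  obtain ⟨hm, C, hC⟩ := hf
  obtain ⟨hm', C', hC'⟩ := hg
  exact ⟨hm.sub hm', C + C', fun τ => (abs_sub _ _).trans (add_le_add (hC τ) (hC' τ))⟩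
lemma Nice.mul {f g : Cfg → ℝ} (hf : Nice f) (hg : Nice g) : Nice fun τ => f τ * g τ := by
  obtain ⟨hm, C, hC⟩ := hf
  obtain ⟨hm', C', hC'⟩ := hg
  refine ⟨hm.mul hm', C * C', fun τ => ?_⟩
  rw [abs_mul]
  exact mul_le_mul (hC τ) (hC' τ) (abs_nonneg _) ((abs_nonneg _).trans (hC τ))
lemma Nice.max {f g : Cfg → ℝ} (hf : Nice f) (hg : Nice g) : Nice fun τ => max (f τ) (g τ) := by
  obtain ⟨hm, C, hC⟩ := hf
  obtain ⟨hm', C', hC'⟩ := hg
  refine ⟨hm.max hm', C + C', fun τ => ?_⟩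
  have h1 := hC τ
  have h2 := hC' τ
  show |Max.max (f τ) (g τ)| ≤ C + C'
  rcases max_choice (f τ) (g τ) with h | h <;> rw [h] <;>
    linarith [abs_nonneg (f τ), abs_nonneg (g τ)]
lemma Nice.abs {f : Cfg → ℝ} (hf : Nice f) : Nice fun τ => |f τ| := by
  obtain ⟨hm, C, hC⟩ := hf
  exact ⟨hm.abs, C, fun τ => by simpa using hC τ⟩
lemma Nice.sum {ι : Type} (s : Finset ι) {f : ι → Cfg → ℝ} (hf : ∀ i ∈ s, Nice (f i)) :
    Nice fun τ => ∑ i ∈ s, f i τ := by
  classical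
  induction s using Finset.induction_on with
  | empty => simpa using Nice.const 0
  | insert a s ha ih =>
    simp only [sum_insert ha]
    exact (hf a (mem_insert_self _ _)).add (ih fun i hi => hf i (mem_insert_of_mem hi))
lemma Nice.comp {f : Cfg → ℝ} (hf : Nice f) {g : Cfg → Cfg} (hg : Measurable g) :
    Nice fun τ => f (g τ) := by
  obtain ⟨hm, C, hC⟩ := hf
  exact ⟨hm.comp hg, C, fun τ => hC _⟩
lemma Nice.ind {A : Set Cfg} (hA : MeasurableSet A) : Nice (A.indicator fun _ => (1 : ℝ)) :=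
  ⟨measurable_const.indicator hA, 1, fun τ => by by_cases h : τ ∈ A <;> simp [h]⟩

namespace Par

variable (p : Par)

lemma lo_lt_hi : (p.lo : ℝ) < p.hi := by linarith [p.r_le_lo, p.lo_lt]
lemma r_le : p.r ≤ p.b := by linarith [p.r_le_lo, p.lo_lt_hi, p.hi_le]
lemma q_pos' : 0 < p.q := p.q_pos
lemma q_le_one : p.q ≤ 1 := measureReal_le_one
lemma σ_pos : 0 < p.σ := zero_lt_one.trans_le p.one_le
lemma c1_pos : 0 < p.c1 := mul_pos p.q_pos' (sub_pos.2 p.lo_lt_hi)
lemma cS_pos : 0 < p.cS := div_pos (pow_pos p.c1_pos 2) (by have := p.σ_pos; positivity)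

/-! ### probabilities -/

lemma b_pos : 0 < p.b := p.r_pos.trans_le p.r_le
lemma one_le_ratio : 1 ≤ p.b / p.r := (one_le_div p.r_pos).2 p.r_le
lemma pr_nonneg (A : Set Cfg) : 0 ≤ p.pr A := measureReal_nonneg
lemma pr_le_one (A : Set Cfg) : p.pr A ≤ 1 := measureReal_le_one
lemma pr_mono {A B : Set Cfg} (h : A ⊆ B) : p.pr A ≤ p.pr B := measureReal_mono h
lemma pr_empty : p.pr ∅ = 0 := measureReal_empty
lemma pr_univ : p.pr Set.univ = 1 := probReal_univ
lemma pr_union_le (A B : Set Cfg) : p.pr (A ∪ B) ≤ p.pr A + p.pr B := measureReal_union_le A B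
lemma pr_biUnion_le {ι : Type} (s : Finset ι) (A : ι → Set Cfg) :
    p.pr (⋃ i ∈ s, A i) ≤ ∑ i ∈ s, p.pr (A i) := measureReal_biUnion_finset_le s A
lemma pr_eq_zero {A : Set Cfg} (h : ∀ τ, τ ∉ A) : p.pr A = 0 := by
  rw [Set.eq_empty_of_forall_notMem h, pr_empty]
lemma int_ind {A : Set Cfg} (hA : MeasurableSet A) :
    ∫ τ, A.indicator (fun _ => (1 : ℝ)) τ ∂p.P = p.pr A := by
  rw [integral_indicator_const _ hA]; simp [pr]

/-- Markov inequality -/
lemma markov {f : Cfg → ℝ} (hf : Nice f) (h0 : ∀ τ, 0 ≤ f τ) {t : ℝ} (ht : 0 < t) :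
    p.pr {τ | t ≤ f τ} ≤ (∫ τ, f τ ∂p.P) / t := by
  rw [le_div_iff₀ ht, mul_comm]
  exact mul_meas_ge_le_integral_of_nonneg (ae_of_all _ h0) (hf.int _) t

/-! ### passage times -/

lemma w_ge (t : ℝ≥0) : p.r ≤ p.w t := le_max_left _ _
lemma w_le (t : ℝ≥0) : p.w t ≤ p.b := max_le p.r_le (min_le_left _ _)
lemma w_mono : Monotone p.w := fun _ _ h =>
  max_le_max le_rfl (min_le_min le_rfl (NNReal.coe_le_coe.2 h))
lemma w_meas : Measurable p.w := p.w_mono.measurable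

@[simp] lemma LW_nil (τ : Cfg) : p.LW τ [] = 0 := rfl
@[simp] lemma LW_cons (τ : Cfg) (e : Sym2 V) (l : List (Sym2 V)) :
    p.LW τ (e :: l) = p.w (τ e) + p.LW τ l := by simp [LW]
lemma LW_append (τ : Cfg) (l l' : List (Sym2 V)) : p.LW τ (l ++ l') = p.LW τ l + p.LW τ l' := by
  simp [LW]
lemma LW_ge (τ : Cfg) (l : List (Sym2 V)) : p.r * l.length ≤ p.LW τ l := by
  induction l with
  | nil => simp
  | cons e l ih =>
    simp only [LW_cons, List.length_cons, Nat.cast_add, Nat.cast_one]; linarith [p.w_ge (τ e)]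
lemma LW_le (τ : Cfg) (l : List (Sym2 V)) : p.LW τ l ≤ p.b * l.length := by
  induction l with
  | nil => simp
  | cons e l ih =>
    simp only [LW_cons, List.length_cons, Nat.cast_add, Nat.cast_one]; linarith [p.w_le (τ e)]
lemma LW_nonneg (τ : Cfg) (l : List (Sym2 V)) : 0 ≤ p.LW τ l :=
  (mul_nonneg p.r_pos.le (Nat.cast_nonneg _)).trans (p.LW_ge τ l)
lemma LW_sublist (τ : Cfg) {l l' : List (Sym2 V)} (h : l.Sublist l') : p.LW τ l ≤ p.LW τ l' := by
  induction h with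
  | slnil => simp
  | cons a _ ih => simp only [LW_cons]; linarith [p.w_ge (τ a), p.r_pos]
  | cons_cons a _ ih => simp only [LW_cons]; linarith
lemma LW_le_LW {τ τ' : Cfg} {l : List (Sym2 V)} (h : ∀ e ∈ l, τ e ≤ τ' e) :
    p.LW τ l ≤ p.LW τ' l := by
  induction l with
  | nil => simp
  | cons a l ih =>
    simp only [LW_cons]
    exact add_le_add (p.w_mono (h a List.mem_cons_self))
      (ih fun e he => h e (List.mem_cons_of_mem _ he))
lemma meas_LW (l : List (Sym2 V)) : Measurable fun τ => p.LW τ l := by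
  induction l with
  | nil => simp
  | cons a l ih =>
    simp only [LW_cons]
    exact (p.w_meas.comp (measurable_pi_apply a)).add ih

lemma T_le_LW (τ : Cfg) {u v : V} (q : G.Walk u v) : p.T τ u v ≤ p.LW τ q.edges :=
  ciInf_le ⟨0, by rintro _ ⟨q, rfl⟩; exact p.LW_nonneg τ _⟩ q
lemma T_ge (τ : Cfg) (u v : V) : p.r * n1 (v - u) ≤ p.T τ u v :=
  le_ciInf fun q => (mul_le_mul_of_nonneg_left (n1_le_length q) p.r_pos.le).trans
    (by simpa using p.LW_ge τ q.edges)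
lemma T_le (τ : Cfg) (u v : V) : p.T τ u v ≤ p.b * n1 (v - u) := by
  obtain ⟨q, hq⟩ := exists_walk u v
  rw [← hq]
  exact (p.T_le_LW τ q).trans (by simpa using p.LW_le τ q.edges)
lemma T_nonneg (τ : Cfg) (u v : V) : 0 ≤ p.T τ u v :=
  (mul_nonneg p.r_pos.le (n1_nonneg _)).trans (p.T_ge τ u v)
lemma T_self (τ : Cfg) (u : V) : p.T τ u u = 0 :=
  le_antisymm (by simpa using p.T_le τ u u) (p.T_nonneg τ u u)
lemma T_le0 (τ : Cfg) (v : V) : p.T τ 0 v ≤ p.b * n1 v := by simpa using p.T_le τ 0 v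

lemma exists_geo (τ : Cfg) (u v : V) :
    ∃ q : G.Walk u v, q.IsPath ∧ p.LW τ q.edges = p.T τ u v := by
  obtain ⟨q₀, hq₀⟩ := exists_walk u v
  obtain ⟨K, hK⟩ := exists_nat_gt (p.b / p.r * q₀.length)
  have hK0 : q₀.length < K := by
    have : (q₀.length : ℝ) ≤ p.b / p.r * q₀.length :=
      le_mul_of_one_le_left (Nat.cast_nonneg _) p.one_le_ratio
    exact_mod_cast this.trans_lt hK
  obtain ⟨q, hq, hmin⟩ := exists_min_image (G.finsetWalkLengthLT K u v)
    (fun q => p.LW τ q.edges) ⟨q₀, by rw [mem_finsetWalkLengthLT_iff]; exact hK0⟩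
  have hall : ∀ q' : G.Walk u v, p.LW τ q.edges ≤ p.LW τ q'.edges := by
    intro q'
    by_cases h : q'.length < K
    · exact hmin q' (mem_finsetWalkLengthLT_iff.2 h)
    · have h1 := hmin q₀ (by rw [mem_finsetWalkLengthLT_iff]; exact hK0)
      have h2 := p.LW_le τ q₀.edges
      have h3 := p.LW_ge τ q'.edges
      rw [Walk.length_edges] at h2 h3
      have h4 : (K : ℝ) ≤ q'.length := by exact_mod_cast not_lt.1 h
      have h5 : p.r * (p.b / p.r * q₀.length) = p.b * q₀.length := by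
        have := p.r_pos.ne'
        field_simp
      have h6 := mul_le_mul_of_nonneg_left (hK.le.trans h4) p.r_pos.le
      linarith
  refine ⟨q.bypass, q.bypass_isPath, le_antisymm ?_ (p.T_le_LW τ _)⟩
  exact (p.LW_sublist τ q.edges_bypass_sublist_edges).trans (le_ciInf hall)

lemma geo_length {τ : Cfg} {u v : V} {q : G.Walk u v} (hq : p.LW τ q.edges = p.T τ u v) :
    (q.length : ℝ) ≤ p.b / p.r * n1 (v - u) := by
  have := p.LW_ge τ q.edges
  rw [Walk.length_edges, hq] at this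
  rw [div_mul_eq_mul_div, le_div_iff₀ p.r_pos]
  linarith [p.T_le τ u v]

lemma T_meas (u v : V) : Measurable fun τ => p.T τ u v := Measurable.iInf fun _ => p.meas_LW _
lemma T_nice (u v : V) : Nice fun τ => p.T τ u v :=
  ⟨p.T_meas u v, p.b * n1 (v - u), fun τ => by
    rw [abs_of_nonneg (p.T_nonneg τ u v)]; exact p.T_le τ u v⟩
lemma T_tri (τ : Cfg) (u v w : V) : p.T τ u w ≤ p.T τ u v + p.T τ v w := by
  obtain ⟨q, -, hq⟩ := p.exists_geo τ u v
  obtain ⟨q', -, hq'⟩ := p.exists_geo τ v w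
  rw [← hq, ← hq', ← LW_append, ← Walk.edges_append]
  exact p.T_le_LW τ _
lemma T_comm (τ : Cfg) (u v : V) : p.T τ u v = p.T τ v u := by
  have key : ∀ u v, p.T τ u v ≤ p.T τ v u := fun u v => by
    obtain ⟨q, -, hq⟩ := p.exists_geo τ v u
    have := p.T_le_LW τ q.reverse
    rw [Walk.edges_reverse] at this
    rw [← hq]
    refine this.trans_eq ?_
    simp only [LW, List.map_reverse, List.sum_reverse]
  exact le_antisymm (key u v) (key v u)
lemma T_mono (u v : V) : Monotone fun τ => p.T τ u v := fun τ τ' h => by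
  obtain ⟨q, -, hq⟩ := p.exists_geo τ' u v
  show p.T τ u v ≤ p.T τ' u v
  rw [← hq]
  exact (p.T_le_LW τ q).trans (p.LW_le_LW fun e _ => h e)
/-- moving the end point -/
lemma T_lip (τ : Cfg) (u v v' : V) : p.T τ u v ≤ p.T τ u v' + p.b * n1 (v - v') := by
  linarith [p.T_tri τ u v' v, p.T_le τ v' v]

lemma w_eq {t : ℝ≥0} (h1 : p.r ≤ t) (h2 : (t : ℝ) ≤ p.b) : p.w t = t := by
  rw [w, min_eq_right h2, max_eq_right h1]
lemma w_lo : p.w p.lo = p.lo := p.w_eq p.r_le_lo (p.lo_lt_hi.le.trans p.hi_le)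
lemma w_hi : p.w p.hi = p.hi := p.w_eq (p.r_le_lo.trans p.lo_lt_hi.le) p.hi_le
lemma w_top : p.w p.b.toNNReal = p.b := by
  rw [p.w_eq] <;> rw [Real.coe_toNNReal _ p.b_pos.le]
  exact p.r_le
lemma R_pos : 0 < p.R := by have := p.r_pos; have := p.b_pos; unfold R; positivity

lemma T_adj (τ : Cfg) {u v : V} (h : G.Adj u v) : p.T τ u v ≤ p.w (τ s(u, v)) := by
  simpa using p.T_le_LW τ (Walk.cons h Walk.nil)
lemma T_ed (τ : Cfg) (y : V) : p.T τ y (y + e0) ≤ p.w (τ (ed y)) := p.T_adj τ (adj_e0 y)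

lemma LW_le_w {τ τ' : Cfg} {l : List (Sym2 V)} (h : ∀ e ∈ l, p.w (τ e) ≤ p.w (τ' e)) :
    p.LW τ l ≤ p.LW τ' l := by
  induction l with
  | nil => simp
  | cons a l ih =>
    simp only [LW_cons]
    exact add_le_add (h a List.mem_cons_self) (ih fun e he => h e (List.mem_cons_of_mem _ he))
lemma LW_le_mul {τ : Cfg} {l : List (Sym2 V)} {c : ℝ} (h : ∀ e ∈ l, p.w (τ e) ≤ c) :
    p.LW τ l ≤ c * l.length := by
  induction l with
  | nil => simp
  | cons a l ih =>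
    have h1 := h a List.mem_cons_self
    have h2 := ih fun e he => h e (List.mem_cons_of_mem _ he)
    simp only [LW_cons, List.length_cons, Nat.cast_add, Nat.cast_one]
    linarith
lemma T_le_w {τ τ' : Cfg} (h : ∀ e, p.w (τ e) ≤ p.w (τ' e)) (u v : V) :
    p.T τ u v ≤ p.T τ' u v := by
  obtain ⟨q, -, hq⟩ := p.exists_geo τ' u v
  rw [← hq]
  exact (p.T_le_LW τ q).trans (p.LW_le_w fun e _ => h e)

/-! ### passage times that see only the weights in `A` -/

lemma T_le_TA (A : Set (Sym2 V)) (τ : Cfg) (u v : V) : p.T τ u v ≤ p.TA A τ u v :=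
  p.T_le_w (fun e => by
    by_cases h : e ∈ A
    · rw [spl_mem _ _ h]
    · rw [spl_notMem _ _ h, w_top]; exact p.w_le _) u v
lemma TA_anti {A B : Set (Sym2 V)} (hAB : A ⊆ B) (τ : Cfg) (u v : V) :
    p.TA B τ u v ≤ p.TA A τ u v :=
  p.T_le_w (fun e => by
    by_cases h : e ∈ A
    · rw [spl_mem _ _ h, spl_mem _ _ (hAB h)]
    · rw [spl_notMem _ _ h, w_top]; exact p.w_le _) u v
lemma TA_le_LW {A : Set (Sym2 V)} (τ : Cfg) {u v : V} (q : G.Walk u v)
    (h : ∀ e ∈ q.edges, e ∈ A) : p.TA A τ u v ≤ p.LW τ q.edges :=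
  (p.T_le_LW _ q).trans (p.LW_le_LW fun e he => (spl_mem _ _ (h e he)).le)
lemma TA_le (A : Set (Sym2 V)) (τ : Cfg) (u v : V) : p.TA A τ u v ≤ p.b * n1 (v - u) :=
  p.T_le _ u v
lemma TA_ge (A : Set (Sym2 V)) (τ : Cfg) (u v : V) : p.r * n1 (v - u) ≤ p.TA A τ u v :=
  p.T_ge _ u v
lemma TA_tri (A : Set (Sym2 V)) (τ : Cfg) (u v w : V) :
    p.TA A τ u w ≤ p.TA A τ u v + p.TA A τ v w := p.T_tri _ u v w
lemma TA_comm (A : Set (Sym2 V)) (τ : Cfg) (u v : V) : p.TA A τ u v = p.TA A τ v u :=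
  p.T_comm _ u v
lemma TA_congr {A : Set (Sym2 V)} {τ τ' : Cfg} (h : ∀ e ∈ A, τ e = τ' e) (u v : V) :
    p.TA A τ u v = p.TA A τ' u v := by
  unfold TA
  congr 1
  funext e
  by_cases he : e ∈ A
  · rw [spl_mem _ _ he, spl_mem _ _ he, h e he]
  · rw [spl_notMem _ _ he, spl_notMem _ _ he]
lemma TA_nice (A : Set (Sym2 V)) (u v : V) : Nice fun τ => p.TA A τ u v :=
  (p.T_nice u v).comp (meas_spl_left A _)
lemma TA_meas (A : Set (Sym2 V)) (u v : V) : Measurable fun τ => p.TA A τ u v :=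
  (p.TA_nice A u v).1
lemma A_meas (d : Dat) (j : ℤ) (y : V) : Measurable fun τ => p.A d j τ y :=
  (p.TA_meas _ _ _).sub_const _
lemma A_congr (d : Dat) {j : ℤ} {τ τ' : Cfg} (h : ∀ e ∈ Lo j, τ e = τ' e) (y : V) :
    p.A d j τ y = p.A d j τ' y := by unfold A; rw [p.TA_congr h]

/-! ### translations and reflections -/

lemma T_map (φ : G →g G) (τ : Cfg) (u v : V) :
    p.T τ (φ u) (φ v) ≤ p.T (fun e => τ (Sym2.map φ e)) u v := by
  obtain ⟨q, -, hq⟩ := p.exists_geo (fun e => τ (Sym2.map φ e)) u v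
  have := p.T_le_LW τ (q.map φ)
  rw [Walk.edges_map] at this
  rw [← hq]
  refine this.trans_eq ?_
  simp only [LW, List.map_map]
  rfl

lemma T_sh (a : V) (τ : Cfg) (u v : V) : p.T (sh a τ) u v = p.T τ (u + a) (v + a) := by
  have key : ∀ (a : V) (τ : Cfg) (u v : V), p.T τ (u + a) (v + a) ≤ p.T (sh a τ) u v :=
    fun a τ u v => p.T_map (transl a) τ u v
  refine le_antisymm ?_ (key a τ u v)
  have h := key (-a) (sh a τ) (u + a) (v + a)
  rw [sh_sh] at h
  simpa using h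

lemma T_rf (a : V) (τ : Cfg) (u v : V) : p.T (rf a τ) u v = p.T τ (a - u) (a - v) := by
  have key : ∀ (τ : Cfg) (u v : V), p.T τ (a - u) (a - v) ≤ p.T (rf a τ) u v :=
    fun τ u v => p.T_map (refl a) τ u v
  refine le_antisymm ?_ (key τ u v)
  have h := key (rf a τ) (a - u) (a - v)
  rw [rf_rf] at h
  simpa using h

lemma T_rf0 (x : V) (τ : Cfg) : p.T (rf x τ) 0 x = p.T τ 0 x := by
  rw [T_rf, sub_zero, sub_self, T_comm]

lemma TA_sh_Up (a : V) (j : ℤ) (τ : Cfg) (u v : V) :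
    p.TA (Up j) (sh a τ) u v = p.TA (Up (j + a 0)) τ (u + a) (v + a) := by
  unfold TA
  rw [← T_sh]
  congr 1
  funext e
  have : Sym2.map (· + a) e ∈ Up (j + a 0) ↔ e ∈ Up j := by
    induction e using Sym2.ind with
    | h x y => simp [Up]
  by_cases he : e ∈ Up j
  · rw [spl_mem _ _ he]; exact (spl_mem _ _ (this.2 he)).symm
  · rw [spl_notMem _ _ he]; exact (spl_notMem τ (fun _ => p.b.toNNReal) fun h => he (this.1 h)).symm

lemma TA_rf_Lo (a : V) (j : ℤ) (τ : Cfg) (u v : V) :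
    p.TA (Lo j) (rf a τ) u v = p.TA (Up (a 0 - j)) τ (a - u) (a - v) := by
  unfold TA
  rw [← T_rf]
  congr 1
  funext e
  have : Sym2.map (a - ·) e ∈ Up (a 0 - j) ↔ e ∈ Lo j := by
    induction e using Sym2.ind with
    | h x y => simp [Up, Lo]; omega
  by_cases he : e ∈ Lo j
  · rw [spl_mem _ _ he]; exact (spl_mem _ _ (this.2 he)).symm
  · rw [spl_notMem _ _ he]; exact (spl_notMem τ (fun _ => p.b.toNNReal) fun h => he (this.1 h)).symm

lemma TA_rf_Up (a : V) (j : ℤ) (τ : Cfg) (u v : V) :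
    p.TA (Up j) (rf a τ) u v = p.TA (Lo (a 0 - j)) τ (a - u) (a - v) := by
  have := p.TA_rf_Lo a (a 0 - j) (rf a τ) (a - u) (a - v)
  rw [rf_rf] at this
  simpa using this.symm

lemma map_sh (a : V) : p.P.map (sh a) = p.P :=
  Measure.map_infinitePi_infinitePi_of_inj (P := fun _ : Sym2 V => p.F)
    (f := Sym2.map (· + a)) (Sym2.map.injective (add_left_injective a))
lemma map_rf (a : V) : p.P.map (rf a) = p.P :=
  Measure.map_infinitePi_infinitePi_of_inj (P := fun _ : Sym2 V => p.F)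
    (f := Sym2.map (a - ·)) (Sym2.map.injective sub_right_injective)

lemma pr_pre_le {f : Cfg → Cfg} (hf : Measurable f) (h : p.P.map f = p.P) (A : Set Cfg) :
    p.pr (f ⁻¹' A) ≤ p.pr A := by
  have := Measure.le_map_apply (μ := p.P) hf.aemeasurable A
  rw [h] at this
  exact ENNReal.toReal_mono (measure_ne_top _ _) this
/-- reflection invariance, for any set -/
lemma pr_rf (a : V) (A : Set Cfg) : p.pr {τ | rf a τ ∈ A} = p.pr A := by
  refine le_antisymm (p.pr_pre_le (meas_rf a) (p.map_rf a) A) ?_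
  have := p.pr_pre_le (meas_rf a) (p.map_rf a) {τ | rf a τ ∈ A}
  simpa [Set.preimage, rf_rf] using this
/-- translation invariance, for any set -/
lemma pr_sh (a : V) (A : Set Cfg) : p.pr {τ | sh a τ ∈ A} = p.pr A := by
  refine le_antisymm (p.pr_pre_le (meas_sh a) (p.map_sh a) A) ?_
  have := p.pr_pre_le (meas_sh (-a)) (p.map_sh (-a)) {τ | sh a τ ∈ A}
  have e : ∀ τ, sh a (sh (-a) τ) = τ := fun τ => by simpa using sh_sh (-a) τ
  simpa [Set.preimage, e] using this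

/-- the law of `T u v` is the law of `T 0 (v - u)` -/
lemma map_T (u v : V) : p.P.map (fun τ => p.T τ u v) = p.P.map (fun τ => p.T τ 0 (v - u)) := by
  conv_rhs => rw [← p.map_sh u, Measure.map_map (p.T_meas _ _) (meas_sh u)]
  congr 1
  ext τ
  simp [T_sh]

lemma pr_T (u v : V) {B : Set ℝ} (hB : MeasurableSet B) :
    p.pr {τ | p.T τ u v ∈ B} = p.pr {τ | p.T τ 0 (v - u) ∈ B} := by
  have h1 := Measure.map_apply (μ := p.P) (p.T_meas u v) hB
  have h2 := Measure.map_apply (μ := p.P) (p.T_meas 0 (v - u)) hB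
  rw [map_T, h2] at h1
  unfold pr Measure.real
  exact congrArg ENNReal.toReal h1.symm
lemma pr_lt_T (u v : V) (c : ℝ) : p.pr {τ | c < p.T τ u v} = p.pr {τ | c < p.T τ 0 (v - u)} :=
  p.pr_T u v (B := Set.Ioi c) measurableSet_Ioi
lemma pr_T_le (u v : V) (c : ℝ) : p.pr {τ | p.T τ u v ≤ c} = p.pr {τ | p.T τ 0 (v - u) ≤ c} :=
  p.pr_T u v (B := Set.Iic c) measurableSet_Iic
lemma int_comp_T (u v : V) {g : ℝ → ℝ} (hg : Measurable g) :
    ∫ τ, g (p.T τ u v) ∂p.P = ∫ τ, g (p.T τ 0 (v - u)) ∂p.P := by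
  rw [← integral_map (p.T_meas u v).aemeasurable hg.aestronglyMeasurable, map_T,
    integral_map (p.T_meas _ _).aemeasurable hg.aestronglyMeasurable]
lemma int_T (u v : V) : ∫ τ, p.T τ u v ∂p.P = p.h (v - u) := p.int_comp_T u v measurable_id

lemma h_ge (v : V) : p.r * n1 v ≤ p.h v := by
  have := integral_mono ((Nice.const (p.r * n1 (v - 0))).int p.P) ((p.T_nice 0 v).int p.P)
    fun τ => p.T_ge τ 0 v
  simpa [h] using this
lemma h_le (v : V) : p.h v ≤ p.b * n1 v := by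
  have := integral_mono ((p.T_nice 0 v).int p.P) ((Nice.const (p.b * n1 v)).int p.P)
    fun τ => p.T_le0 τ v
  simpa [h] using this
lemma h_add (u v : V) : p.h (u + v) ≤ p.h u + p.h v := by
  have := integral_mono ((p.T_nice 0 (u + v)).int p.P)
    (((p.T_nice 0 u).add (p.T_nice u (u + v))).int p.P) fun τ => p.T_tri τ 0 u (u + v)
  rw [integral_add ((p.T_nice _ _).int _) ((p.T_nice _ _).int _), int_T, int_T, int_T] at this
  simpa using this
lemma h_neg (v : V) : p.h (-v) = p.h v := by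
  have := p.int_T v 0
  simp only [p.T_comm _ v 0, zero_sub] at this
  exact this.symm
lemma h_lip (u v : V) : p.h u ≤ p.h v + p.b * n1 (u - v) := by
  have := p.h_add v (u - v)
  rw [add_sub_cancel] at this
  linarith [p.h_le (u - v)]

/-! ### variances -/

lemma Vr_nonneg (v : V) : 0 ≤ p.Vr v := variance_nonneg _ _
lemma Vr_eq (v : V) : p.Vr v = ∫ τ, (p.T τ 0 v - p.h v) ^ 2 ∂p.P :=
  variance_eq_integral (p.T_meas 0 v).aemeasurable

/-- Chebyshev inequality -/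
lemma cheb (u v : V) {t : ℝ} (ht : 0 < t) :
    p.pr {τ | t ≤ |p.T τ u v - p.h (v - u)|} ≤ p.Vr (v - u) / t ^ 2 := by
  have hB : MeasurableSet {y : ℝ | t ≤ |y - p.h (v - u)|} :=
    measurableSet_le measurable_const (measurable_id.sub_const _).abs
  have h1 := p.pr_T u v hB
  simp only [Set.mem_ofPred_eq] at h1
  rw [h1]
  have h2 := meas_ge_le_variance_div_sq ((p.T_nice 0 (v - u)).memLp p.P 2) ht
  exact ENNReal.toReal_le_of_le_ofReal (div_nonneg (p.Vr_nonneg _) (sq_nonneg _)) h2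
lemma cheb0 (v : V) {t : ℝ} (ht : 0 < t) :
    p.pr {τ | t ≤ |p.T τ 0 v - p.h v|} ≤ p.Vr v / t ^ 2 := by
  simpa using p.cheb 0 v ht


lemma h_zero : p.h 0 = 0 := by simp [h, T_self]
lemma h_nsmul (k : ℕ) (v : V) : p.h (k • v) ≤ k * p.h v := by
  induction k with
  | zero => simp [h_zero]
  | succ k ih =>
    rw [succ_nsmul]
    push_cast
    linarith [p.h_add (k • v) v]

/-- lower tail under the variance bound -/
lemma VarB.low {p : Par} (hV : p.VarB) (u v : V) {t : ℝ} (ht : 0 < t) :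
    p.pr {τ | p.T τ u v ≤ p.h (v - u) - t} ≤ p.σ ^ 2 / t ^ 2 := by
  refine le_trans (p.pr_mono fun τ hτ => ?_)
    ((p.cheb u v ht).trans (div_le_div_of_nonneg_right (hV _) (sq_nonneg t)))
  have : p.T τ u v ≤ p.h (v - u) - t := hτ
  show t ≤ |p.T τ u v - p.h (v - u)|
  exact le_abs.2 (Or.inr (by linarith))
/-- upper tail under the variance bound -/
lemma VarB.high {p : Par} (hV : p.VarB) (u v : V) {t : ℝ} (ht : 0 < t) :
    p.pr {τ | p.h (v - u) + t ≤ p.T τ u v} ≤ p.σ ^ 2 / t ^ 2 := by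
  refine le_trans (p.pr_mono fun τ hτ => ?_)
    ((p.cheb u v ht).trans (div_le_div_of_nonneg_right (hV _) (sq_nonneg t)))
  have : p.h (v - u) + t ≤ p.T τ u v := hτ
  show t ≤ |p.T τ u v - p.h (v - u)|
  exact le_abs.2 (Or.inl (by linarith))

variable {p}

lemma Good.ρ_le {d : Dat} (g : p.Good d) (v : V) (hv : 0 ≤ v 0) :
    d.ρ v ≤ p.b * v 0 + p.r / 2 * (|(v 1 : ℝ)| + |(v 2 : ℝ)|) := by
  have h0 : (0 : ℝ) ≤ v 0 := by exact_mod_cast hv
  have h1 := mul_le_mul_of_nonneg_right g.ρ0_le h0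
  have h2 := mul_le_mul_of_nonneg_right g.l1_le (abs_nonneg (v 1 : ℝ))
  have h3 := mul_le_mul_of_nonneg_right g.l2_le (abs_nonneg (v 2 : ℝ))
  rw [← abs_mul] at h2 h3
  unfold Dat.ρ
  linarith [le_abs_self (d.l1 * v 1), le_abs_self (d.l2 * v 2)]

lemma Good.abs_ρ {d : Dat} (g : p.Good d) (v : V) : |d.ρ v| ≤ p.b * n1 v := by
  have hr := p.r_pos
  have hb := p.r_le
  have h1 := mul_le_mul_of_nonneg_right ((abs_of_nonneg g.ρ0_nonneg).trans_le g.ρ0_le)
    (abs_nonneg (v 0 : ℝ))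
  have h2 := mul_le_mul_of_nonneg_right (g.l1_le.trans (by linarith : p.r / 2 ≤ p.b))
    (abs_nonneg (v 1 : ℝ))
  have h3 := mul_le_mul_of_nonneg_right (g.l2_le.trans (by linarith : p.r / 2 ≤ p.b))
    (abs_nonneg (v 2 : ℝ))
  rw [← abs_mul] at h1 h2 h3
  unfold Dat.ρ n1
  linarith [abs_add_three (d.ρ0 * v 0) (d.l1 * v 1) (d.l2 * v 2)]

/-- deterministic lower bound for `T - ρ` -/
lemma Good.T_sub_ρ {d : Dat} (g : p.Good d) (τ : Cfg) (u v : V) (hv : u 0 ≤ v 0) :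
    p.r / 2 * (|((v - u) 1 : ℝ)| + |((v - u) 2 : ℝ)|) - p.b * (v - u) 0 ≤
      p.T τ u v - d.ρ (v - u) := by
  have h0 : 0 ≤ (v - u) 0 := by simpa using hv
  have h1 := g.ρ_le (v - u) h0
  have h2 := p.T_ge τ u v
  have h3 := mul_nonneg p.r_pos.le (abs_nonneg ((v - u) 0 : ℝ))
  unfold n1 at h2
  linarith

lemma Good.g_ge {d : Dat} (g : p.Good d) (v : V) (hv : 0 ≤ v 0) :
    p.r / 2 * (|(v 1 : ℝ)| + |(v 2 : ℝ)|) - p.b * v 0 ≤ p.g d v := by
  have h1 := g.ρ_le v hv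
  have h2 := p.h_ge v
  have h3 := mul_nonneg p.r_pos.le (abs_nonneg (v 0 : ℝ))
  unfold n1 at h2
  unfold Par.g
  linarith

lemma Good.g_lip {d : Dat} (g : p.Good d) (u v : V) :
    p.g d (u + v) ≤ p.g d u + 2 * p.b * n1 v := by
  have h1 := p.h_add u v
  have h2 := p.h_le v
  have h3 := (abs_le.1 (g.abs_ρ v)).1
  unfold Par.g
  rw [d.ρ_add]
  linarith

lemma g_nsmul (d : Dat) (k : ℕ) (v : V) : p.g d (k • v) ≤ k * p.g d v := by
  unfold Par.g
  rw [d.ρ_nsmul]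
  linarith [p.h_nsmul k v]

lemma PP_mono (d : Dat) (n : ℕ) (β β' : ℝ) (h0 : 0 ≤ β) (h : β ≤ β') (hP : p.PP d n β) :
    p.PP d n β' := by
  have hb : β ^ 2 ≤ β' ^ 2 := pow_le_pow_left₀ h0 h 2
  obtain ⟨⟨x, hx, hg⟩, S, hS, hc⟩ := hP
  refine ⟨⟨x, hx, hg.trans (mul_le_mul_of_nonneg_right hb (Nat.cast_nonneg _))⟩, S,
    fun v hv => ⟨(hS v hv).1, (hS v hv).2.1, (hS v hv).2.2.trans ?_⟩, hc⟩
  have : 0 ≤ v 0 := by have := (hS v hv).1; omega
  exact mul_le_mul_of_nonneg_right hb (by exact_mod_cast this)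

end Par

end Pool.Agent.Lib.V3
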