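import Pool.Agent.Lib.V3.Defs

/-! Statements of the blocks. -/

namespace Pool.Agent.Lib.V3

open MeasureTheory ProbabilityTheory Filter Topology Pool.Agent.Lib.MP_eba68f_pr
open scoped NNReal ENNReal

def St_SUM : Prop :=
  ∀ (a l c₁ c₂ : ℝ) (s : Finset (ℤ × ℤ)), 0 < a → a ≤ l →
    ∑ m ∈ s, 1 / (a * (((m.1 : ℝ) - c₁) ^ 2 + ((m.2 : ℝ) - c₂) ^ 2) + l) ^ 2 ≤ 64 / (a * l)

def St_WIN : Prop :=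
  ∀ (d : Dat) (j : ℤ) (u : ℝ), 1 ≤ u →
    ∃ W : Finset V, (∀ y : V, y ∈ W ↔ y 0 = j ∧ d.eta y ≤ u) ∧ (W.card : ℝ) ≤ 9 * u

def St_PC : Prop :=
  ∀ D : ℝ, ∃ p₀ : ℝ, 0 < p₀ ∧ ∀ p : Par, p.F.real (Set.Iic p.hi) ≤ p₀ →
    ∀ n : ℕ, 1 ≤ n → p.pr (Light p.hi (D * n) (n / 100)) ≤ 1 / 100

def St_HL : Prop := ∀ p : Par, p.Rare → ∀ v : V, (p.r + p.hi) / 2 * n1 v ≤ p.h v

def St_GEO : Prop := ∀ p : Par, ∃ d : Dat, p.Good d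

def St_HALF : Prop := ∀ (p : Par) (d : Dat), p.Good d → p.VarB → ∃ C, 0 ≤ C ∧ p.Half d C

def St_LOW : Prop :=
  ∀ (p : Par) (d : Dat) (C₁ : ℝ), p.Good d → p.VarB → 0 ≤ C₁ → p.Half d C₁ →
    ∃ C, 0 ≤ C ∧ p.LowB d C

def St_DEC : Prop :=
  ∀ (p : Par) (d : Dat), p.Good d → ∀ (x : V) (n : ℕ) (τ : Cfg) (l m : ℝ), x 0 = n →
    p.b / p.r * n1 x ≤ l → τ ∉ Light p.hi l m → rf x τ ∉ Light p.hi l m →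
    ∃ y y' : ℕ → V,
      (∀ j : ℕ, j < n → y j 0 = j ∧ y' j 0 = j ∧ p.Cross x j τ (y j) ∧
        p.Cross x j (rf x τ) (y' j)) ∧
      (∀ j j' : ℕ, j + j' + 1 = n →
        p.A d j τ (y j) + p.A d j' (rf x τ) (y' j') ≤ p.T τ 0 x - d.ρ x + p.b) ∧
      ((((Finset.range n).filter fun j => τ (ed (y j)) ≤ p.hi).card : ℝ) < m) ∧
      ((((Finset.range n).filter fun j => rf x τ (ed (y' j)) ≤ p.hi).card : ℝ) < m)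

def St_MART : Prop :=
  ∀ (p : Par) (x : V) (J : Finset ℕ) (W : ℕ → Finset V) (C : ℕ → V → Set Cfg),
    (∀ j ∈ J, ∀ y ∈ W j, y 0 = j ∧ MeasurableSet (C j y) ∧ Dep (Lo j) (C j y)) →
    (p.c1 * ∑ j ∈ J, p.pr (p.Ev x j (W j) (C j))) ^ 2 ≤
      p.Vr x * ∑ j ∈ J, ∑ y ∈ W j, p.pr (C j y)

def St_CORE : Prop :=
  ∀ (p : Par) (d : Dat), p.Good d → p.VarB → p.Rare →
    ∀ (n : ℕ) (x : V) (lam t s : ℝ), 24 ≤ n → x 0 = n → 0 ≤ lam →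
      p.g d x + 10 * p.σ + p.b + lam < n →
      (∀ j : ℕ, j < n → p.pr (p.Low d n j lam) ≤ 1 / 100) → 1 ≤ t →
      36 * (p.g d x + 10 * p.σ + p.b + 2 * lam) ≤ d.ε * t → 300 * p.σ ^ 2 * √t ≤ p.c1 * s →
      ∃ S : Finset V, (∀ v ∈ S, (n : ℤ) ≤ 3 * v 0 ∧ 3 * v 0 ≤ 2 * n ∧
        p.g d v * (n - 1) ≤ v 0 * (p.g d x + 10 * p.σ + p.b + 2 * s)) ∧ p.cS * n ^ 2 ≤ S.card

def St_STEP : Prop :=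
  ∀ (p : Par) (d : Dat) (C : ℝ), p.Good d → p.VarB → p.Rare → 0 ≤ C → p.LowB d C →
    ∃ (B β₀ : ℝ) (n₀ : ℕ), 0 ≤ B ∧ 0 < β₀ ∧ ∀ (n : ℕ) (β : ℝ), n₀ ≤ n → 0 ≤ β → β ≤ β₀ →
      p.PP d n β → ∃ n' : ℕ, n ≤ 3 * n' ∧ 3 * n' ≤ 2 * n ∧ p.PP d n' (β + B / √n)

def St_START : Prop :=
  ∀ (p : Par) (d : Dat), p.Good d → ∀ e : ℝ, 0 < e → ∀ N : ℕ, ∃ n : ℕ, N ≤ n ∧ p.PP d n e

def St_CHAIN : Prop :=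
  ∀ (Q : ℕ → ℝ → Prop) (B β₀ : ℝ) (n₀ : ℕ), 0 ≤ B → 0 < β₀ →
    (∀ (n : ℕ) (β β' : ℝ), 0 ≤ β → β ≤ β' → Q n β → Q n β') →
    (∀ (n : ℕ) (β : ℝ), n₀ ≤ n → 0 ≤ β → β ≤ β₀ → Q n β →
      ∃ n' : ℕ, n ≤ 3 * n' ∧ 3 * n' ≤ 2 * n ∧ Q n' (β + B / √n)) →
    (∀ e : ℝ, 0 < e → ∀ N : ℕ, ∃ n : ℕ, N ≤ n ∧ Q n e) →
    ∃ M : ℝ, 0 ≤ M ∧ ∀ N : ℕ, ∃ n : ℕ, N ≤ n ∧ Q n (M / √n)

def St_FAST : Prop :=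
  ∀ (p : Par) (Y : Finset V) (E : V → Finset (Sym2 V)) (K : ℕ),
    (∀ y ∈ Y, ∀ y' ∈ Y, y ≠ y' → Disjoint (E y) (E y')) → (∀ y ∈ Y, (E y).card ≤ K) →
    p.pr {τ | ∀ y ∈ Y, ∃ e ∈ E y, p.lo < τ e} ≤ (1 - p.q ^ K) ^ Y.card

/-- many sites of one plane with disjoint fast routes above them -/
def St_SEP : Prop :=
  ∀ z : V, 0 ≤ z 0 → ∃ (K : ℕ) (c : ℝ), 0 < c ∧ ∀ (n : ℕ) (S : Finset V), 1 ≤ n →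
    (∀ v ∈ S, 0 ≤ v 0 ∧ v 0 ≤ 2 * n) →
    ∃ (j : ℤ) (Y : Finset V) (E : V → Finset (Sym2 V)), Y ⊆ S ∧ c * S.card ≤ n * Y.card ∧
      0 ≤ j ∧ j ≤ 2 * n ∧ (∀ y ∈ Y, y 0 = j) ∧
      (∀ y ∈ Y, ∀ y' ∈ Y, y ≠ y' → Disjoint (E y) (E y')) ∧ (∀ y ∈ Y, (E y).card ≤ K) ∧
      ∀ y ∈ Y, (∀ e ∈ E y, e ∈ Up (j + 1) ∧ e ∈ Lo (j + 1 + z 0)) ∧
        ∃ q : G.Walk (y + e0) (y + e0 + z), (q.length : ℝ) = n1 z ∧ ∀ e ∈ q.edges, e ∈ E y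

def St_FINAL : Prop :=
  ∀ (p : Par) (d : Dat) (C₁ C M : ℝ), p.Good d → (∀ v : V, (p.r + p.hi) / 2 * n1 v ≤ p.h v) →
    0 ≤ C₁ → p.Half d C₁ → 0 ≤ C → p.LowB d C →
    (∀ N : ℕ, ∃ n : ℕ, N ≤ n ∧ p.PP d n (M / √n)) → False

def St_MAIN : Prop := ∀ p : Par, p.Rare → ¬ p.VarB

def St_FIN : Prop :=
  ∀ r b : ℝ≥0, 0 < r → ∃ p₀ : ℝ≥0∞, 0 < p₀ ∧ ∀ (F : Measure ℝ≥0) [IsProbabilityMeasure F],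
    F (Set.Icc r b) = 1 → (∀ a, r < a → 0 < F (Set.Iic a)) → F {r} < p₀ →
    ⨆ v : Fin 3 → ℤ, evariance (fun τ => passage τ 0 v)
      (Measure.infinitePi fun _ : (lattice 3).edgeSet => F) = ⊤

end Pool.Agent.Lib.V3
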