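import Pool.Agent.Lib.MP_eba68f_pr.Defs

/-! Working definitions: unbounded variance of first-passage percolation in dimension three. -/

namespace Pool.Agent.Lib.V3

open MeasureTheory ProbabilityTheory Filter Topology Pool.Agent.Lib.MP_eba68f_pr
open scoped NNReal ENNReal

abbrev V : Type := Fin 3 → ℤ
abbrev G : SimpleGraph V := lattice 3
abbrev Cfg : Type := Sym2 V → ℝ≥0

def pt (a b c : ℤ) : V := ![a, b, c]
def e0 : V := pt 1 0 0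
noncomputable def n1 (z : V) : ℝ := |(z 0 : ℝ)| + |(z 1 : ℝ)| + |(z 2 : ℝ)|

/-- bounded measurable functions -/
def Nice (f : Cfg → ℝ) : Prop := Measurable f ∧ ∃ C, ∀ τ, |f τ| ≤ C

/-- pairs inside the lower half space -/
def Lo (j : ℤ) : Set (Sym2 V) := {e | ∀ z ∈ e, z 0 ≤ j}
/-- pairs inside the upper half space -/
def Up (j : ℤ) : Set (Sym2 V) := {e | ∀ z ∈ e, j ≤ z 0}
/-- the edge above a site -/
def ed (y : V) : Sym2 V := s(y, y + e0)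
/-- translated configuration -/
def sh (a : V) (τ : Cfg) : Cfg := fun e => τ (Sym2.map (· + a) e)
/-- reflected configuration -/
def rf (a : V) (τ : Cfg) : Cfg := fun e => τ (Sym2.map (a - ·) e)
open Classical in
/-- `τ` on `A` and `τ'` off `A` -/
noncomputable def spl (A : Set (Sym2 V)) (τ τ' : Cfg) : Cfg := fun e => if e ∈ A then τ e else τ' e
/-- the event `C` depends only on the weights in `A` -/
def Dep (A : Set (Sym2 V)) (C : Set Cfg) : Prop :=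
  ∀ τ τ' : Cfg, (∀ e ∈ A, τ e = τ' e) → τ ∈ C → τ' ∈ C

/-- some walk from the origin of length at most `l` has `m` distinct edges of weight `≤ a` -/
def Light (a : ℝ≥0) (l m : ℝ) : Set Cfg :=
  {τ | ∃ (v : V) (q : G.Walk 0 v), (q.length : ℝ) ≤ l ∧
    ∃ s : Finset (Sym2 V), (∀ e ∈ s, e ∈ q.edges ∧ τ e ≤ a) ∧ m ≤ s.card}

noncomputable def DD (r b : ℝ) : ℝ := b / r * (1 + 2 / r * (b + 1))

/-- weight law, bounds of the weights, two levels, and a bound for the standard deviation -/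
structure Par where
  F : Measure ℝ≥0
  prob : IsProbabilityMeasure F
  r : ℝ
  b : ℝ
  lo : ℝ≥0
  hi : ℝ≥0
  σ : ℝ
  r_pos : 0 < r
  r_le_lo : r ≤ lo
  lo_lt : 2 * (lo : ℝ) < r + hi
  hi_le : (hi : ℝ) ≤ b
  q_pos : 0 < F.real (Set.Iic lo)
  one_le : 1 ≤ σ

/-- supporting functional, slope and curvature constant -/
structure Dat where
  ρ0 : ℝ
  l1 : ℝ
  l2 : ℝ
  θ1 : ℝ
  θ2 : ℝ
  ε : ℝ

noncomputable def Dat.ρ (d : Dat) (v : V) : ℝ := d.ρ0 * v 0 + d.l1 * v 1 + d.l2 * v 2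
/-- squared transversal displacement -/
noncomputable def Dat.eta (d : Dat) (v : V) : ℝ :=
  ((v 1 : ℝ) - v 0 * d.θ1) ^ 2 + ((v 2 : ℝ) - v 0 * d.θ2) ^ 2

namespace Par

variable (p : Par)

noncomputable def P : Measure Cfg := Measure.infinitePi fun _ : Sym2 V => p.F
noncomputable def pr (A : Set Cfg) : ℝ := p.P.real A
noncomputable def w (t : ℝ≥0) : ℝ := max p.r (min p.b (t : ℝ))
noncomputable def LW (τ : Cfg) (l : List (Sym2 V)) : ℝ := (l.map fun e => p.w (τ e)).sum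
/-- passage time for the weights clamped to `[r, b]` -/
noncomputable def T (τ : Cfg) (u v : V) : ℝ := ⨅ q : G.Walk u v, p.LW τ q.edges
/-- passage time when the weights off `A` are set to `b` -/
noncomputable def TA (A : Set (Sym2 V)) (τ : Cfg) (u v : V) : ℝ :=
  p.T (spl A τ fun _ => p.b.toNNReal) u v
noncomputable def h (v : V) : ℝ := ∫ τ, p.T τ 0 v ∂p.P
noncomputable def Vr (v : V) : ℝ := variance (fun τ => p.T τ 0 v) p.P
noncomputable def q : ℝ := p.F.real (Set.Iic p.lo)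
noncomputable def c1 : ℝ := p.q * (p.hi - p.lo)
noncomputable def cS : ℝ := p.c1 ^ 2 / (400 * p.σ ^ 2)
noncomputable def R : ℝ := 4 / p.r * (5 * p.b + 2)
noncomputable def g (d : Dat) (v : V) : ℝ := p.h v - d.ρ v
noncomputable def A (d : Dat) (j : ℤ) (τ : Cfg) (y : V) : ℝ := p.TA (Lo j) τ 0 y - d.ρ y

def VarB : Prop := ∀ v, p.Vr v ≤ p.σ ^ 2
def Rare : Prop :=
  ∀ n : ℕ, 1 ≤ n → p.pr (Light p.hi (DD p.r p.b * n) (n / 100)) ≤ 1 / 100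

structure Good (d : Dat) : Prop where
  ρ0_nonneg : 0 ≤ d.ρ0
  ρ0_le : d.ρ0 ≤ p.b
  l1_le : |d.l1| ≤ p.r / 2
  l2_le : |d.l2| ≤ p.r / 2
  ε_pos : 0 < d.ε
  ε_le : d.ε ≤ 1
  θ1_le : |d.θ1| ≤ p.R
  θ2_le : |d.θ2| ≤ p.R
  G1 : ∀ z : V, 0 ≤ z 0 → 0 ≤ p.g d z
  G2 : ∀ z : V, 0 < z 0 → |(z 1 : ℝ)| ≤ p.R * z 0 → |(z 2 : ℝ)| ≤ p.R * z 0 →
    d.ε * d.eta z ≤ z 0 * p.g d z
  G3 : ∀ e : ℝ, 0 < e → ∀ N : ℕ, ∃ z : V, (N : ℤ) ≤ z 0 ∧ p.g d z ≤ e * z 0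

def Half (d : Dat) (C : ℝ) : Prop :=
  ∀ v : V, 0 ≤ v 0 → 1 / 2 ≤ p.pr {τ | p.TA (Up 0) τ 0 v - d.ρ v ≤ C * (p.g d v + 1)}

def Low (d : Dat) (n : ℕ) (j : ℤ) (lam : ℝ) : Set Cfg :=
  {τ | ∃ y : V, y 0 = j ∧ p.A d j τ y ≤ d.ε / 36 * d.eta y / n - lam ∧ p.A d j τ y < n}

def LowB (d : Dat) (C : ℝ) : Prop :=
  ∀ (n : ℕ) (k : ℝ) (S : Finset V) (j : ℤ), 1 ≤ n → 0 ≤ k → k ≤ n →
    (∀ v ∈ S, (n : ℤ) ≤ 2 * v 0 ∧ v 0 ≤ 2 * n ∧ p.g d v ≤ k) → p.cS * n ^ 2 ≤ S.card →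
    0 ≤ j → j ≤ 3 * n → p.pr (p.Low d n j (C * (k + 1))) ≤ 1 / 100

/-- the edge above `y` can serve as first crossing of its slab by a geodesic from `0` to `x` -/
def Cross (x : V) (j : ℤ) (τ : Cfg) (y : V) : Prop :=
  p.TA (Lo j) τ 0 y + p.w (τ (ed y)) + p.T τ (y + e0) x ≤ p.T τ 0 x

def Ev (x : V) (j : ℤ) (W : Finset V) (C : V → Set Cfg) : Set Cfg :=
  {τ | ∃ y ∈ W, τ ∈ C y ∧ p.Cross x j τ y ∧ p.hi < τ (ed y)}

def PP (d : Dat) (n : ℕ) (β : ℝ) : Prop :=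
  (∃ x : V, x 0 = n ∧ p.g d x ≤ β ^ 2 * n) ∧
    ∃ S : Finset V, (∀ v ∈ S, (n : ℤ) ≤ 2 * v 0 ∧ v 0 ≤ 2 * n ∧ p.g d v ≤ β ^ 2 * v 0) ∧
      p.cS * n ^ 2 ≤ S.card

end Par

end Pool.Agent.Lib.V3
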